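import Pool.Agent.Lib.MP_5f065d_co.NF

set_option autoImplicit false

/-!
Decomposition of a block along a chain configuration (MP_5f065d_co, S09049).
-/

namespace Pool.Agent.RF

variable {V : Type} [DecidableEq V]

/-- label of the first leaf of `k` -/
def Blk.ll (A : Blk V) (X : V → V) (a : V → Option V) (k : V) : Bool :=
  (A.lb X (a k)).getD true

open Classical in
/-- number of centres strictly below `k` -/
noncomputable def below (A : Blk V) (K : Finset V) (k : V) : ℕ :=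
  (K.filter (fun k' => k' ≠ k ∧ Anc A.par A.J k k')).card

/-- route to the leaf `d` from the centre `k` -/
def rt (A : Blk V) (X T : V → V) (d : Option V) (k : V) : Option V :=
  if A.loc X d = k then none else some (T (A.loc X d))

/-- selections of the centres -/
def nnf (A : Blk V) (X : V → V) (bot : V) (a : V → Option V) (a2 : Option V) (T sc : V → V)
    (k : V) (i : Bool) : Option V :=
  if k = bot then (if i = A.ll X a bot then rt A X T (a bot) bot else rt A X T a2 bot)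
  else (if i = A.ll X a k then rt A X T (a k) k else some (sc k))

/-- data of the block with top `c` -/
inductive Spec (A : Blk V) (X : V → V) (K : Finset V) (bot : V) (a : V → Option V)
    (a2 : Option V) (T : V → V) (c : V) : V → Option Bool → Option V → Sym → Prop
  | leaf (d : Option V) (k : V) (σ : Sym) : Lf K bot a a2 d k → A.loc X d ∈ A.J \ K →
      T (A.loc X d) = c → (∀ i, A.lb X d = some i → σ = Sym.S i) →
      (A.lb X d = none → σ = Sym.P (!A.ll X a bot) 0) →
      Spec A X K bot a a2 T c (A.loc X d) (A.lb X d) none σ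
  | spine (k w : V) (σ : Sym) : k ∈ K → w ∈ A.J \ K → A.par k = some w → T w = c →
      (∀ k0, A.par c = some k0 → σ = Sym.P (!A.ll X a k0) (2 * below A K k0)) →
      (A.par c = none → σ = Sym.Fr) →
      Spec A X K bot a a2 T c w none (some k) σ
  | other : (∀ d k, Lf K bot a a2 d k → A.loc X d ∈ A.J \ K → T (A.loc X d) ≠ c) →
      (∀ k ∈ K, ∀ w ∈ A.J \ K, A.par k = some w → T w ≠ c) →
      Spec A X K bot a a2 T c c none (A.par c) Sym.Fr

structure ACD (A : Blk V) (h : ℕ) (X : V → V) (K : Finset V) (bot : V) (a : V → Option V)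
    (a2 : Option V) (T sc U : V → V) (ST : V → Option Bool) (TE : V → Option V) (SG : V → Sym)
    (q : V → Option V) : Prop where
  hA : A.Tree h
  hX : ∀ v ∈ A.J, ∃ n, Ex A.p A.J n v (X v)
  hf : ∀ i, A.st = some i → A.p (X A.u) = none ∧ A.lp (X A.u) = !i
  hN : NF A X K bot a a2
  hT : ∀ v ∈ A.J \ K, ∃ n ≤ h, Ex A.par (A.J \ K) n v (T v)
  hsc : ∀ k ∈ K, k ≠ bot → A.par (sc k) = some k ∧ Anc A.par A.J (sc k) bot
  hS : ∀ c ∈ A.J \ K, T c = c → Spec A X K bot a a2 T c (U c) (ST c) (TE c) (SG c)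
  q1 : ∀ v, v ∉ A.J → q v = A.p v
  q2 : ∀ k ∈ K, q k = none
  q3 : ∀ a ∈ A.J, ∀ b ∈ A.J, (A.p a = some b ∨ A.p b = some a) ↔ (q a = some b ∨ q b = some a)
  q4 : ∀ k ∈ K, ∀ v m, Ex A.p A.J m v (X k) → ∃ m', Ex q A.J m' v k
  q5 : ∀ v m y, (∀ k ∈ K, y ≠ X k) → Ex A.p A.J m v y → Ex q A.J m v y ∧ q v = A.p v
  q6 : ∀ v w, q v = some w → w ∈ A.J ∨ A.p v = some w

/-- the block with top `c` -/
def blkOf (A : Blk V) (K : Finset V) (T U : V → V) (ST : V → Option Bool) (q : V → Option V)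
    (c : V) : Blk V :=
  { J := (A.J \ K).filter (fun v => T v = c)
    par := Function.update A.par c none
    z := c
    p := q
    lp := A.lp
    u := U c
    st := ST c }

/-- class symbols -/
noncomputable def clsOf (A : Blk V) (K : Finset V) (T : V → V) (SG : V → Sym) (v : V) : Sym :=
  if v ∈ K then Sym.Ce (2 * below A K v + 1) else SG (T v)

namespace ACD

variable {A : Blk V} {h : ℕ} {X : V → V} {K : Finset V} {bot : V} {a : V → Option V}
    {a2 : Option V} {T sc U : V → V} {ST : V → Option Bool} {TE : V → Option V} {SG : V → Sym}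
    {q : V → Option V} (H : ACD A h X K bot a a2 T sc U ST TE SG q)
include H

theorem X_out {v : V} (hv : v ∈ A.J) (ho : Out A.p A.J v) : X v = v := by
  obtain ⟨n, hn⟩ := H.hX v hv
  exact (hn.det (Ex.self hv ho)).2

theorem X_mem {v : V} (hv : v ∈ A.J) : X v ∈ A.J := by
  obtain ⟨n, hn⟩ := H.hX v hv
  exact hn.right_mem

theorem out_none {v : V} (hv : A.p v = none) : Out A.p A.J v := by
  intro w hw; rw [hv] at hw; cases hw

theorem T_mem {v : V} (hv : v ∈ A.J \ K) : T v ∈ A.J \ K := by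
  obtain ⟨n, _, hn⟩ := H.hT v hv
  exact hn.right_mem

theorem T_out {v : V} (hv : v ∈ A.J \ K) : Out A.par (A.J \ K) (T v) := by
  obtain ⟨n, _, hn⟩ := H.hT v hv
  exact hn.2

theorem T_eq {v c : V} {n : ℕ} (hv : v ∈ A.J \ K) (hc : Ex A.par (A.J \ K) n v c) : T v = c := by
  obtain ⟨n, _, hn⟩ := H.hT v hv
  exact (hn.det hc).2

theorem T_self {v : V} (hv : v ∈ A.J \ K) (hc : Out A.par (A.J \ K) v) : T v = v :=
  H.T_eq hv (Ex.self hv hc)

theorem T_T {v : V} (hv : v ∈ A.J \ K) : T (T v) = T v :=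
  H.T_self (H.T_mem hv) (H.T_out hv)

theorem T_par {v w : V} (hv : v ∈ A.J \ K) (hw : w ∈ A.J \ K) (hvw : A.par v = some w) :
    T v = T w := by
  obtain ⟨n, _, hn⟩ := H.hT w hw
  exact H.T_eq hv (Ex.cons hv hvw hn)

theorem par_mem {v w : V} (hv : v ∈ A.J) (hvw : A.par v = some w) : w ∈ A.J := by
  obtain ⟨n, hn, hp⟩ := H.hA.tree v hv
  cases n with
  | zero =>
    have := hp.zero
    subst this
    rw [H.hA.pz] at hvw
    cases hvw
  | succ n =>
    obtain ⟨w', hw', hJ, _⟩ := hp.succ_inv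
    rw [hvw] at hw'
    cases hw'
    exact hJ

/-- parent of a top is a centre -/
theorem par_top {c k : V} (hc : c ∈ A.J \ K) (hT : T c = c) (hk : A.par c = some k) : k ∈ K := by
  by_contra hkK
  have h1 := H.T_out hc
  rw [hT] at h1
  have h2 := H.par_mem (Finset.mem_sdiff.mp hc).1 hk
  exact h1 k hk (Finset.mem_sdiff.mpr ⟨h2, hkK⟩)

theorem loc_mem {d : Option V} {k : V} (h1 : Lf K bot a a2 d k) : A.loc X d ∈ A.J :=
  (Lf.anc H.hN h1).mem_right

theorem loc_mem' {d : Option V} {k : V} (h1 : Lf K bot a a2 d k) (h2 : A.loc X d ≠ k) :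
    A.loc X d ∈ A.J \ K := by
  rw [Finset.mem_sdiff]
  refine ⟨H.loc_mem h1, fun h3 => h2 (Lf.at_centre H.hA H.hN h1 h3)⟩

/-- the top of a leaf component -/
theorem leaf_top {d : Option V} {k : V} (h1 : Lf K bot a a2 d k) (h2 : A.loc X d ∈ A.J \ K) :
    A.par (T (A.loc X d)) = some k := by
  obtain ⟨m, c, hc, hE⟩ := Lf.top H.hA H.hN h1 (Finset.mem_sdiff.mp h2).2
  rw [H.T_eq h2 hE]
  exact hc

theorem not_AB {d : Option V} {k k' w : V} (h1 : Lf K bot a a2 d k) (h2 : A.loc X d ∈ A.J \ K)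
    (hk' : k' ∈ K) (hw : w ∈ A.J \ K) (h3 : A.par k' = some w) : T (A.loc X d) ≠ T w := by
  intro h4
  obtain ⟨n, _, hn⟩ := H.hT _ h2
  obtain ⟨n', _, hn'⟩ := H.hT _ hw
  rw [← h4] at hn'
  exact NF.not_AB H.hA H.hN h1 hn hk' h3 hn'

theorem A_unique {d d' : Option V} {k k' : V} (h1 : Lf K bot a a2 d k)
    (h2 : A.loc X d ∈ A.J \ K) (h1' : Lf K bot a a2 d' k') (h2' : A.loc X d' ∈ A.J \ K)
    (h3 : T (A.loc X d) = T (A.loc X d')) : d = d' := by
  obtain ⟨n, _, hn⟩ := H.hT _ h2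
  obtain ⟨n', _, hn'⟩ := H.hT _ h2'
  rw [← h3] at hn'
  exact NF.A_unique H.hA H.hN h1 hn h1' hn'

theorem B_unique {k k' w w' : V} (hk : k ∈ K) (hk' : k' ∈ K) (hw : w ∈ A.J \ K)
    (hw' : w' ∈ A.J \ K) (h1 : A.par k = some w) (h1' : A.par k' = some w') (h3 : T w = T w') :
    k = k' := by
  obtain ⟨n, _, hn⟩ := H.hT _ hw
  obtain ⟨n', _, hn'⟩ := H.hT _ hw'
  rw [← h3] at hn'
  exact NF.B_unique H.hA H.hN hk hk' h1 h1' hn hn'

/-- a block containing a leaf -/
theorem spec_leaf {d : Option V} {k c : V} (h1 : Lf K bot a a2 d k)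
    (h2 : A.loc X d ∈ A.J \ K) (h3 : T (A.loc X d) = c) :
    U c = A.loc X d ∧ ST c = A.lb X d ∧ TE c = none ∧
      (∀ i, A.lb X d = some i → SG c = Sym.S i) ∧
      (A.lb X d = none → SG c = Sym.P (!A.ll X a bot) 0) := by
  subst h3
  have hs := H.hS _ (H.T_mem h2) (H.T_T h2)
  generalize hu : U (T (A.loc X d)) = u at hs
  generalize hst : ST (T (A.loc X d)) = st at hs
  generalize hte : TE (T (A.loc X d)) = te at hs
  generalize hsg : SG (T (A.loc X d)) = sg at hs
  cases hs with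
  | leaf d' k' σ g1 g2 g3 g4 g5 =>
    have := H.A_unique g1 g2 h1 h2 g3
    subst this
    exact ⟨rfl, rfl, rfl, g4, g5⟩
  | spine k' w σ g1 g2 g3 g4 g5 g6 =>
    exact absurd g4.symm (H.not_AB h1 h2 g1 g2 g3)
  | other g1 g2 => exact absurd rfl (g1 d k h1 h2)

/-- a block containing the parent of a centre -/
theorem spec_spine {k w c : V} (hk : k ∈ K) (hw : w ∈ A.J \ K) (h1 : A.par k = some w)
    (h3 : T w = c) : U c = w ∧ ST c = none ∧ TE c = some k ∧
      (∀ k0, A.par c = some k0 → SG c = Sym.P (!A.ll X a k0) (2 * below A K k0)) ∧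
      (A.par c = none → SG c = Sym.Fr) := by
  subst h3
  have hs := H.hS _ (H.T_mem hw) (H.T_T hw)
  generalize hu : U (T w) = u at hs
  generalize hst : ST (T w) = st at hs
  generalize hte : TE (T w) = te at hs
  generalize hsg : SG (T w) = sg at hs
  cases hs with
  | leaf d' k' σ g1 g2 g3 g4 g5 =>
    exact absurd g3 (H.not_AB g1 g2 hk hw h1)
  | spine k' w' σ g1 g2 g3 g4 g5 g6 =>
    have := H.B_unique g1 hk g2 hw g3 h1 g4
    subst this
    rw [h1] at g3
    cases g3
    exact ⟨rfl, rfl, rfl, g5, g6⟩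
  | other g1 g2 => exact absurd rfl (g2 k hk w hw h1)

/-- centres are not separated from `bot` -/
theorem sc_unique {k c : V} (hk : k ∈ K) (hkb : k ≠ bot) (hc : A.par c = some k)
    (hcb : Anc A.par A.J c bot) : sc k = c := by
  obtain ⟨h1, h2⟩ := H.hsc k hk hkb
  by_contra hne
  rcases h2.total hcb with h3 | h3
  · obtain ⟨n, hn⟩ := h3
    cases n with
    | zero => exact hne hn.zero.symm
    | succ n =>
      obtain ⟨w, hw, _, h4⟩ := hn.succ_inv
      rw [hc] at hw
      cases hw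
      exact H.hA.not_child h2.mem_left h1 (H.hN.KJ hk) ⟨n, h4⟩
  · obtain ⟨n, hn⟩ := h3
    cases n with
    | zero => exact hne hn.zero
    | succ n =>
      obtain ⟨w, hw, _, h4⟩ := hn.succ_inv
      rw [h1] at hw
      cases hw
      exact H.hA.not_child hcb.mem_left hc (H.hN.KJ hk) ⟨n, h4⟩

theorem below_lt {k k' : V} (hk' : k' ∈ K) (hne : k' ≠ k)
    (hkk : Anc A.par A.J k k') : below A K k' < below A K k := by
  classical
  apply Finset.card_lt_card
  rw [Finset.ssubset_iff_of_subset]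
  · refine ⟨k', ?_, ?_⟩
    · simp only [Finset.mem_filter]
      exact ⟨hk', hne, hkk⟩
    · simp
  · intro x hx
    simp only [Finset.mem_filter] at hx ⊢
    refine ⟨hx.1, ?_, hkk.trans hx.2.2⟩
    rintro rfl
    exact hx.2.1 (H.hA.antisymm hkk hx.2.2)

theorem card_K : K.card ≤ h + 1 := by
  classical
  have h1 : ∀ k ∈ K, ∃ n ≤ h, Pth A.par A.J n bot k := by
    intro k hk
    obtain ⟨n, hn⟩ := H.hN.chain k hk
    obtain ⟨m, hm, hE⟩ := H.hA.ex hn.left_mem
    exact ⟨n, (hE.le hn).1.trans hm, hn⟩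
  choose! f hf1 hf2 using h1
  have h2 : K.card ≤ (Finset.range (h + 1)).card := by
    apply Finset.card_le_card_of_injOn f
    · intro k hk
      have := hf1 k hk
      simp only [Finset.coe_range, Set.mem_Iio]
      omega
    · intro k hk k' hk' hkk
      have h3 := hf2 k hk
      rw [hkk] at h3
      exact h3.det (hf2 k' hk')
  simpa using h2

theorem below_le {k : V} (hk : k ∈ K) : below A K k ≤ h := by
  classical
  have h1 : below A K k < K.card := by
    apply Finset.card_lt_card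
    rw [Finset.ssubset_iff_of_subset (Finset.filter_subset _ _)]
    exact ⟨k, hk, by simp⟩
  have := H.card_K
  omega

theorem lb_a {k : V} (hk : k ∈ K) : A.lb X (a k) = some (A.ll X a k) := by
  unfold Blk.ll
  cases hak : a k with
  | none =>
    cases hst : A.st with
    | none =>
      exfalso
      have := H.hN.free hst
      exact H.hN.ne2 k hk (by rw [hak, this])
    | some i => simp [Blk.lb, hst]
  | some y => simp [Blk.lb]

theorem Ka {k : V} (hk : k ∈ K) : Lf K bot a a2 (a k) k := Or.inl ⟨hk, rfl⟩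

theorem Ka2 : Lf K bot a a2 a2 bot := Or.inr ⟨rfl, rfl⟩

/-- each leaf is a route of its centre -/
theorem nn_leaf {d : Option V} {k : V} (h1 : Lf K bot a a2 d k) :
    ∃ i, nnf A X bot a a2 T sc k i = rt A X T d k ∧
      (A.lb X d = some i ∨ (A.lb X d = none ∧ i = !A.ll X a bot ∧ k = bot)) := by
  rcases h1 with ⟨hk, rfl⟩ | ⟨rfl, rfl⟩
  · refine ⟨A.ll X a k, ?_, Or.inl (H.lb_a hk)⟩
    unfold nnf
    by_cases hb : k = bot
    · subst hb; simp
    · simp [hb]
  · refine ⟨!A.ll X a k, by simp [nnf], ?_⟩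
    cases h2 : A.lb X d with
    | none => exact Or.inr ⟨rfl, rfl, rfl⟩
    | some i =>
      left
      have h3 := H.hN.botlab (A.ll X a k) (H.lb_a H.hN.botK)
      rw [h2] at h3
      congr 1
      cases hi : i <;> cases hl : A.ll X a k <;> simp_all

/-- a labelled leaf is the route with its label -/
theorem nn_lab {d : Option V} {k : V} {i : Bool} (h1 : Lf K bot a a2 d k)
    (h2 : A.lb X d = some i) : nnf A X bot a a2 T sc k i = rt A X T d k := by
  obtain ⟨j, hj, h3 | ⟨h3, _⟩⟩ := H.nn_leaf h1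
  · rw [h2] at h3
    cases h3
    exact hj
  · rw [h2] at h3
    cases h3

/-- values of `nnf` -/
theorem nn_cases {k : V} (hk : k ∈ K) (i : Bool) :
    (∃ d, Lf K bot a a2 d k ∧ nnf A X bot a a2 T sc k i = rt A X T d k ∧
      (A.lb X d = some i ∨ (A.lb X d = none ∧ i = !A.ll X a bot ∧ k = bot))) ∨
    (k ≠ bot ∧ i = !A.ll X a k ∧ nnf A X bot a a2 T sc k i = some (sc k)) := by
  by_cases hb : k = bot
  · subst hb
    left
    by_cases hi : i = A.ll X a k
    · refine ⟨a k, H.Ka hk, ?_, ?_⟩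
      · simp [nnf, hi]
      · left; rw [hi]; exact H.lb_a hk
    · refine ⟨a2, H.Ka2, ?_, ?_⟩
      · simp [nnf, hi]
      · obtain ⟨j, hj, h3⟩ := H.nn_leaf H.Ka2
        have hij : i = !A.ll X a k := by
          cases i <;> cases hl : A.ll X a k <;> simp_all
        cases h2 : A.lb X a2 with
        | none => exact Or.inr ⟨rfl, hij, rfl⟩
        | some i' =>
          left
          have h3 := H.hN.botlab (A.ll X a k) (H.lb_a H.hN.botK)
          rw [h2] at h3
          congr 1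
          cases hi' : i' <;> cases hl : A.ll X a k <;> simp_all
  · by_cases hi : i = A.ll X a k
    · left
      refine ⟨a k, H.Ka hk, ?_, ?_⟩
      · simp [nnf, hb, hi]
      · left; rw [hi]; exact H.lb_a hk
    · right
      refine ⟨hb, ?_, by simp [nnf, hb, hi]⟩
      cases i <;> cases hl : A.ll X a k <;> simp_all

/-- the block below a non-bottom centre -/
theorem spec_sc {k : V} (hk : k ∈ K) (hkb : k ≠ bot) (hs : sc k ∉ K) :
    sc k ∈ A.J \ K ∧ T (sc k) = sc k ∧ SG (sc k) = Sym.P (!A.ll X a k) (2 * below A K k) := by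
  obtain ⟨h1, h2⟩ := H.hsc k hk hkb
  have h3 : sc k ∈ A.J \ K := Finset.mem_sdiff.mpr ⟨h2.mem_left, hs⟩
  have h4 : Out A.par (A.J \ K) (sc k) := by
    intro w hw
    rw [h1] at hw
    cases hw
    simp [hk]
  have h5 := H.T_self h3 h4
  refine ⟨h3, h5, ?_⟩
  obtain ⟨n, hn⟩ := h2
  rcases last_centre hn hs with h6 | ⟨k', hk', w, hw, m, m', g1, g2, g3⟩
  · have := h6.left_mem
    rw [Finset.mem_sdiff] at this
    exact absurd H.hN.botK this.2
  · have g4 : T w = sc k := H.T_eq hw ⟨g3, h4⟩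
    obtain ⟨_, _, _, g5, _⟩ := H.spec_spine hk' hw g1 g4
    exact g5 k h1

theorem n1 {k : V} (hk : k ∈ K) (i : Bool) (y : V)
    (hy : nnf A X bot a a2 T sc k i = some y) : y ∈ A.J ∧
      dig (2 * h + 3) i (clsOf A K T SG y) < dig (2 * h + 3) i (clsOf A K T SG k) := by
  have hck : clsOf A K T SG k = Sym.Ce (2 * below A K k + 1) := by simp [clsOf, hk]
  rw [hck]
  rcases H.nn_cases hk i with ⟨d, h1, h2, h3⟩ | ⟨h1, h2, h3⟩
  · rw [h2] at hy
    unfold rt at hy
    split_ifs at hy with h4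
    have h5 := H.loc_mem' h1 h4
    simp only [Option.some.injEq] at hy
    have h6 := H.T_mem h5
    rw [hy] at h6
    rw [Finset.mem_sdiff] at h6
    refine ⟨h6.1, ?_⟩
    obtain ⟨_, _, _, g4, g5⟩ := H.spec_leaf h1 h5 hy
    have h7 : clsOf A K T SG y = SG y := by
      simp only [clsOf, h6.2, if_false]
      rw [← hy, H.T_T h5]
    rw [h7]
    rcases h3 with h3 | ⟨h3, rfl, _⟩
    · rw [g4 i h3]
      simp [dig]
    · rw [g5 h3]
      simp [dig]
  · rw [h3] at hy
    simp only [Option.some.injEq] at hy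
    subst hy
    obtain ⟨g1, g2⟩ := H.hsc k hk h1
    refine ⟨g2.mem_left, ?_⟩
    by_cases hs : sc k ∈ K
    · have g3 : below A K (sc k) < below A K k := by
        refine H.below_lt hs ?_ ⟨1, Pth.step g2.mem_left g1 (Pth.refl (H.hN.KJ hk))⟩
        intro he
        have := H.hA.not_child g2.mem_left g1 (H.hN.KJ hk)
        rw [he] at this
        exact this (Anc.refl (H.hN.KJ hk))
      simp only [clsOf, hs, if_true, dig]
      omega
    · obtain ⟨g3, g4, g5⟩ := H.spec_sc hk h1 hs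
      have h7 : clsOf A K T SG (sc k) = SG (sc k) := by
        simp only [clsOf, hs, if_false, g4]
      rw [h7, g5, h2]
      simp [dig]

/-- centres: T-exit slots -/
theorem uK (hu : A.u ∈ K) : (∀ i, A.st = some i → nnf A X bot a a2 T sc A.u i = none) ∧
    (A.st = none → ∃ i, nnf A X bot a a2 T sc A.u i = none ∧
      (A.p A.u = none → i ≠ A.lp A.u)) := by
  obtain ⟨k, hk⟩ := H.hN.surjn
  have h1 : A.u = k := Lf.at_centre H.hA H.hN hk hu
  subst h1
  constructor
  · intro i hi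
    rw [H.nn_lab hk (i := i) (by simpa [Blk.lb] using hi)]
    simp [rt, Blk.loc]
  · intro hst
    obtain ⟨i, h2, h3⟩ := H.nn_leaf hk
    refine ⟨i, by rw [h2]; simp [rt, Blk.loc], ?_⟩
    rcases h3 with h3 | ⟨_, h3, h4⟩
    · simp [Blk.lb, hst] at h3
    · intro hp
      have h5 : X A.u = A.u := H.X_out (H.hN.KJ hu) (out_none H hp)
      obtain ⟨k', hk'⟩ := H.hN.surj A.u hu
      have h6 : A.loc X (some A.u) = k' :=
        Lf.at_centre H.hA H.hN hk' (by simp only [Blk.loc]; rw [h5]; exact hu)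
      simp only [Blk.loc] at h6
      rw [h5] at h6
      subst h6
      have ha2 := H.hN.free hst
      rcases hk' with ⟨_, h7⟩ | ⟨_, h7⟩
      · have h8 := H.lb_a hu
        rw [← h7] at h8
        simp only [Blk.lb, Option.some.injEq] at h8
        rw [h5] at h8
        rw [h3, ← h4, ← h8]
        simp
      · rw [ha2] at h7
        cases h7

theorem labK {k : V} (hk : k ∈ K) (hp : A.p k = none) :
    nnf A X bot a a2 T sc k (A.lp k) = none := by
  have h5 : X k = k := H.X_out (H.hN.KJ hk) (out_none H hp)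
  obtain ⟨k', hk'⟩ := H.hN.surj k hk
  have h6 : A.loc X (some k) = k' :=
    Lf.at_centre H.hA H.hN hk' (by simp only [Blk.loc]; rw [h5]; exact hk)
  simp only [Blk.loc] at h6
  rw [h5] at h6
  subst h6
  rw [H.nn_lab hk' (i := A.lp k) (by simp [Blk.lb, h5])]
  simp [rt, Blk.loc, h5]

theorem qX {v : V} (hv : v ∈ A.J) (hk : ∀ k ∈ K, X v ≠ X k) :
    (∃ m, Ex q A.J m v (X v)) ∧ q v = A.p v := by
  obtain ⟨n, hn⟩ := H.hX v hv
  obtain ⟨h1, h2⟩ := H.q5 v n (X v) hk hn
  exact ⟨⟨n, h1⟩, h2⟩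

theorem ex {v : V} (hv : v ∈ A.J) : ∃ n x, Ex q A.J n v x := by
  obtain ⟨n, hn⟩ := H.hX v hv
  by_cases hk : ∃ k ∈ K, X v = X k
  · obtain ⟨k, hk, hkX⟩ := hk
    rw [hkX] at hn
    obtain ⟨m, hm⟩ := H.q4 k hk v n hn
    exact ⟨m, k, hm⟩
  · push Not at hk
    obtain ⟨⟨m, hm⟩, _⟩ := H.qX hv hk
    exact ⟨m, _, hm⟩

/-- exits of a leaf under `q` -/
theorem leaf_exit_some {y : V} (hy : y ∈ K) {n : ℕ} {x : V} (hx : Ex q A.J n (X y) x) : x = y := by
  obtain ⟨m, hm⟩ := H.hX y (H.hN.KJ hy)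
  obtain ⟨m', hm'⟩ := H.q4 y hy (X y) 0 (Ex.self hm.right_mem hm.2)
  exact (hx.det hm').2

theorem leaf_exit_u {i : Bool} (hst : A.st = some i) {n : ℕ} {x : V} (hx : Ex q A.J n A.u x) :
    (∃ k ∈ K, X A.u = X k ∧ x = k) ∨ ((∀ k ∈ K, X A.u ≠ X k) ∧ x = X A.u ∧ q x = none ∧
      A.lp x = !i) := by
  obtain ⟨m, hm⟩ := H.hX A.u H.hA.uJ
  by_cases hk : ∃ k ∈ K, X A.u = X k
  · obtain ⟨k, hk, hkX⟩ := hk
    rw [hkX] at hm
    obtain ⟨m', hm'⟩ := H.q4 k hk _ _ hm
    exact Or.inl ⟨k, hk, hkX, (hx.det hm').2⟩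
  · push Not at hk
    obtain ⟨⟨m', hm'⟩, _⟩ := H.qX H.hA.uJ hk
    have h1 := (hx.det hm').2
    refine Or.inr ⟨hk, h1, ?_, ?_⟩
    · have h2 := H.q5 (X A.u) 0 (X A.u) hk (Ex.self hm.right_mem hm.2)
      rw [h1, h2.2]
      exact (H.hf i hst).1
    · rw [h1]; exact (H.hf i hst).2

/-! ### blocks -/

omit H in
theorem mem_blk {c v : V} : v ∈ (blkOf A K T U ST q c).J ↔ v ∈ A.J \ K ∧ T v = c := by
  simp [blkOf]

/-- `U c` is in the block -/
theorem U_mem {c : V} (hc : c ∈ A.J \ K) (hT : T c = c) : U c ∈ A.J \ K ∧ T (U c) = c := by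
  have hs := H.hS c hc hT
  generalize hu : U c = u at hs
  generalize hst : ST c = st at hs
  generalize hte : TE c = te at hs
  generalize hsg : SG c = sg at hs
  cases hs with
  | leaf d' k' σ g1 g2 g3 g4 g5 => exact ⟨g2, g3⟩
  | spine k' w' σ g1 g2 g3 g4 g5 g6 => exact ⟨g2, g4⟩
  | other g1 g2 => exact ⟨hc, hT⟩

/-- walks inside the block -/
theorem pth_blk {v c : V} {n : ℕ} (hp : Pth A.par (A.J \ K) n v c) (hc : Out A.par (A.J \ K) c) :
    Pth (blkOf A K T U ST q c).par (blkOf A K T U ST q c).J n v c := by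
  induction hp with
  | @refl v hv => exact Pth.refl (mem_blk.mpr ⟨hv, H.T_self hv hc⟩)
  | @step n v w x h1 h2 h3 ih =>
    refine Pth.step (mem_blk.mpr ⟨h1, H.T_eq h1 ⟨Pth.step h1 h2 h3, hc⟩⟩) ?_ (ih hc)
    have hvx : v ≠ x := by
      rintro rfl
      exact hc w h2 h3.left_mem
    simp only [blkOf]
    rw [Function.update_of_ne hvx]
    exact h2

theorem tree_blk {c : V} (hc : c ∈ A.J \ K) (hT : T c = c) :
    (blkOf A K T U ST q c).Tree h where
  zJ := mem_blk.mpr ⟨hc, hT⟩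
  pz := by simp [blkOf]
  tree := by
    intro v hv
    obtain ⟨h1, h2⟩ := mem_blk.mp hv
    obtain ⟨n, hn, hE⟩ := H.hT v h1
    rw [h2] at hE
    exact ⟨n, hn, H.pth_blk hE.1 hE.2⟩
  uJ := mem_blk.mpr (H.U_mem hc hT)

theorem cls_blk {c v : V} (hv : v ∈ (blkOf A K T U ST q c).J) : clsOf A K T SG v = SG c := by
  obtain ⟨h1, h2⟩ := mem_blk.mp hv
  simp [clsOf, (Finset.mem_sdiff.mp h1).2, h2]

theorem ST_cases {c : V} (hc : c ∈ A.J \ K) (hT : T c = c) :
    (∃ d k, Lf K bot a a2 d k ∧ A.loc X d ∈ A.J \ K ∧ T (A.loc X d) = c ∧ U c = A.loc X d ∧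
      ST c = A.lb X d) ∨ ST c = none := by
  have hs := H.hS c hc hT
  generalize hu : U c = u at hs
  generalize hst : ST c = st at hs
  generalize hte : TE c = te at hs
  generalize hsg : SG c = sg at hs
  cases hs with
  | leaf d' k' σ g1 g2 g3 g4 g5 => exact Or.inl ⟨d', k', g1, g2, g3, rfl, rfl⟩
  | spine k' w' σ g1 g2 g3 g4 g5 g6 => exact Or.inr rfl
  | other g1 g2 => exact Or.inr rfl

theorem clsS {c : V} (hc : c ∈ A.J \ K) (hT : T c = c) (i : Bool) :
    ST c = some i ↔ SG c = Sym.S i := by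
  have hs := H.hS c hc hT
  generalize hu : U c = u at hs
  generalize hst : ST c = st at hs
  generalize hte : TE c = te at hs
  generalize hsg : SG c = sg at hs
  cases hs with
  | leaf d' k' σ g1 g2 g3 g4 g5 =>
    cases h1 : A.lb X d' with
    | none => rw [g5 h1]; simp
    | some j => rw [g4 j h1]; simp
  | spine k' w' σ g1 g2 g3 g4 g5 g6 =>
    cases h1 : A.par c with
    | none => rw [g6 h1]; simp
    | some k0 => rw [g5 k0 h1]; simp
  | other g1 g2 => simp

theorem clsle {c : V} (hc : c ∈ A.J \ K) (hT : T c = c) :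
    ¬ (SG c).isCe ∧ (SG c).le (2 * h + 3) := by
  have hs := H.hS c hc hT
  generalize hu : U c = u at hs
  generalize hst : ST c = st at hs
  generalize hte : TE c = te at hs
  generalize hsg : SG c = sg at hs
  cases hs with
  | leaf d' k' σ g1 g2 g3 g4 g5 =>
    cases h1 : A.lb X d' with
    | none => rw [g5 h1]; simp [Sym.isCe, Sym.le]
    | some j => rw [g4 j h1]; simp [Sym.isCe, Sym.le]
  | spine k' w' σ g1 g2 g3 g4 g5 g6 =>
    cases h1 : A.par c with
    | none => rw [g6 h1]; simp [Sym.isCe, Sym.le]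
    | some k0 =>
      rw [g5 k0 h1]
      have := H.below_le (H.par_top hc hT h1)
      simp only [Sym.isCe, Sym.le, not_false_eq_true, true_and]
      omega
  | other g1 g2 => simp [Sym.isCe, Sym.le]

/-- T-exits to centres -/
theorem te1 {c : V} (hc : c ∈ A.J \ K) (hT : T c = c) {k : V} (hk : TE c = some k) :
    ST c = none ∧ k ∈ K ∧ ∀ i, dig (2 * h + 3) i (clsOf A K T SG k) < dig (2 * h + 3) i (SG c) := by
  have hs := H.hS c hc hT
  generalize hu : U c = u at hs
  generalize hst : ST c = st at hs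
  generalize hte : TE c = te at hs
  generalize hsg : SG c = sg at hs
  have hcls : ∀ k ∈ K, clsOf A K T SG k = Sym.Ce (2 * below A K k + 1) := by
    intro k hk; simp [clsOf, hk]
  cases hs with
  | leaf d' k' σ g1 g2 g3 g4 g5 =>
    rw [hk] at hte
    cases hte
  | spine k' w' σ g1 g2 g3 g4 g5 g6 =>
    rw [hk] at hte
    cases hte
    refine ⟨rfl, g1, fun i => ?_⟩
    rw [hcls k g1]
    have hb := H.below_le g1
    cases h1 : A.par c with
    | none => rw [g6 h1]; simp only [dig]; omega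
    | some k0 =>
      rw [g5 k0 h1]
      have hk0 := H.par_top hc hT h1
      have hcJ : c ∈ A.J := (Finset.mem_sdiff.mp hc).1
      have hwc : Anc A.par A.J c u := by
        obtain ⟨n, _, hn⟩ := H.hT u g2
        rw [g4] at hn
        exact ⟨n, hn.1.of_sdiff⟩
      have hck : Anc A.par A.J c k := Anc.of_parent (H.hN.KJ g1) g3 hwc
      have hk0k : Anc A.par A.J k0 k :=
        Anc.trans ⟨1, Pth.step hcJ h1 (Pth.refl (H.hN.KJ hk0))⟩ hck
      have hne : k ≠ k0 := by
        rintro rfl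
        exact H.hA.not_child hcJ h1 (H.hN.KJ hk0) hck
      have hlt := H.below_lt g1 hne hk0k
      simp only [dig]
      split_ifs <;> omega
  | other g1 g2 =>
    rw [hk] at hte
    have hk0 := H.par_top hc hT hte.symm
    refine ⟨rfl, hk0, fun i => ?_⟩
    have hb := H.below_le hk0
    rw [hcls k hk0]
    simp only [dig]
    omega

theorem lab {c : V} (hc : c ∈ A.J \ K) (hT : T c = c) {v : V}
    (hv : v ∈ (blkOf A K T U ST q c).J) (hp : A.p v = none) :
    q v = none ∨ (v = U c ∧ ST c = some (A.lp v)) := by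
  obtain ⟨h1, h2⟩ := mem_blk.mp hv
  have hvJ := (Finset.mem_sdiff.mp h1).1
  have h5 : X v = v := H.X_out hvJ (out_none H hp)
  by_cases hk : ∃ y ∈ K, X v = X y
  · right
    obtain ⟨y, hy, hyX⟩ := hk
    obtain ⟨k, hk⟩ := H.hN.surj y hy
    have h6 : A.loc X (some y) = v := by simp only [Blk.loc]; rw [← hyX, h5]
    obtain ⟨g1, g2, _, _, _⟩ := H.spec_leaf (c := c) hk (by rw [h6]; exact h1)
      (by rw [h6]; exact h2)
    refine ⟨by rw [g1, h6], ?_⟩
    rw [g2]
    simp only [Blk.lb]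
    rw [← hyX, h5]
  · left
    push Not at hk
    rw [(H.qX hvJ hk).2, hp]

theorem uC {c : V} (hu : A.u ∈ (blkOf A K T U ST q c).J) :
    A.u = U c ∧ ST c = A.st ∧ TE c = none := by
  obtain ⟨h1, h2⟩ := mem_blk.mp hu
  obtain ⟨k, hk⟩ := H.hN.surjn
  obtain ⟨g1, g2, g3, _, _⟩ := H.spec_leaf hk (by simpa [Blk.loc] using h1)
    (by simpa [Blk.loc] using h2)
  exact ⟨by rw [g1]; rfl, g2, g3⟩

theorem spec {c : V} (hc : c ∈ A.J \ K) (hT : T c = c) {i : Bool} (hst : ST c = some i) {n : ℕ}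
    {x : V} (hx : Ex q A.J n (U c) x) : x ∈ K ∨ (q x = none ∧ A.lp x = !i) := by
  rcases H.ST_cases hc hT with ⟨d, k, h1, h2, h3, h4, h5⟩ | h1
  · rw [h4] at hx
    rw [hst] at h5
    cases d with
    | none =>
      simp only [Blk.loc] at hx
      simp only [Blk.lb] at h5
      rcases H.leaf_exit_u h5.symm hx with ⟨k', hk', _, h6⟩ | ⟨_, _, h6, h7⟩
      · left; rw [h6]; exact hk'
      · exact Or.inr ⟨h6, h7⟩
    | some y =>
      simp only [Blk.loc] at hx
      have hy := H.hN.rng y k h1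
      left
      rw [H.leaf_exit_some hy hx]
      exact hy
  · rw [hst] at h1; cases h1

theorem dist {c c' : V} (hc : c ∈ A.J \ K) (hT : T c = c) (hc' : c' ∈ A.J \ K) (hT' : T c' = c')
    (h1 : ST c = ST c') (h2 : ST c ≠ none) {n n' : ℕ} {x : V} (hx : Ex q A.J n (U c) x)
    (hx' : Ex q A.J n' (U c') x) : c = c' := by
  have key : ∀ {y : V} {k k' : V} {n n' : ℕ}, Lf K bot a a2 none k → Lf K bot a a2 (some y) k' →
      A.lb X none = A.lb X (some y) → Ex q A.J n A.u x → Ex q A.J n' (X y) x → False := by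
    intro y k k' n n' g1 g2 g3 g4 g5
    have hy := H.hN.rng y k' g2
    have h3 := H.leaf_exit_some hy g5
    simp only [Blk.lb] at g3
    obtain ⟨h6, h7⟩ := H.hf _ g3
    rcases H.leaf_exit_u g3 g4 with ⟨k0, hk0, h4, h5⟩ | ⟨h4, h5, _, _⟩
    · have : k0 = y := by rw [← h5, h3]
      subst this
      rw [h4] at h7
      simp at h7
    · have h8 : X (X A.u) = X A.u := H.X_out (H.X_mem H.hA.uJ) (out_none H h6)
      have h9 : X A.u = y := by rw [← h5, h3]
      have := h4 y hy
      rw [← h9, h8] at this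
      exact this rfl
  rcases H.ST_cases hc hT with ⟨d, k, g1, g2, g3, g4, g5⟩ | g1
  · rcases H.ST_cases hc' hT' with ⟨d', k', g1', g2', g3', g4', g5'⟩ | g1'
    · rw [g4] at hx
      rw [g4'] at hx'
      have hlb : A.lb X d = A.lb X d' := by rw [← g5, ← g5', h1]
      have hdd : d = d' := by
        cases d with
        | none =>
          cases d' with
          | none => rfl
          | some y' => exact (key g1 g1' hlb hx hx').elim
        | some y =>
          cases d' with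
          | none => exact (key g1' g1 hlb.symm hx' hx).elim
          | some y' =>
            have h3 := H.leaf_exit_some (H.hN.rng y k g1) hx
            have h4 := H.leaf_exit_some (H.hN.rng y' k' g1') hx'
            rw [← h3, ← h4]
      subst hdd
      rw [← g3, ← g3']
    · rw [h1] at h2; exact absurd g1' h2
  · exact absurd g1 h2

theorem covp {v y : V} (hv : v ∈ A.J) (hy : A.p v = some y) :
    (v ∈ A.J ∧ v ∉ K ∧ q v = some y) ∨ (y ∈ A.J ∧ y ∉ K ∧ q y = some v) := by
  have hq : ∀ x w, q x = some w → x ∉ K := by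
    intro x w h1 h2
    rw [H.q2 x h2] at h1
    cases h1
  by_cases hyJ : y ∈ A.J
  · rcases (H.q3 v hv y hyJ).mp (Or.inl hy) with h1 | h1
    · exact Or.inl ⟨hv, hq _ _ h1, h1⟩
    · exact Or.inr ⟨hyJ, hq _ _ h1, h1⟩
  · have ho : Out A.p A.J v := by
      intro w hw
      rw [hy] at hw
      cases hw
      exact hyJ
    have hXv := H.X_out hv ho
    have hk : ∀ k ∈ K, X v ≠ X k := by
      intro k hk he
      have h1 := H.hN.lab k hk
      rw [← he, hXv, hy] at h1
      cases h1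
    have h1 := (H.qX hv hk).2
    rw [hy] at h1
    exact Or.inl ⟨hv, hq _ _ h1, h1⟩

theorem covt {v y : V} (hv : v ∈ A.J) (hy : A.par v = some y) :
    (∃ c, c ∈ A.J \ K ∧ T c = c ∧ ((v ∈ (blkOf A K T U ST q c).J ∧
        (blkOf A K T U ST q c).par v = some y) ∨
      (v = U c ∧ TE c = some y) ∨ (y = U c ∧ TE c = some v))) ∨
    (y ∈ K ∧ ∃ i, nnf A X bot a a2 T sc y i = some v) := by
  have hyJ := H.par_mem hv hy
  by_cases hyK : y ∈ K
  · by_cases hvK : v ∈ K
    · -- both centres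
      right
      refine ⟨hyK, ?_⟩
      have hyb : y ≠ bot := by
        rintro rfl
        exact H.hA.not_child hv hy hyJ (H.hN.chain v hvK)
      have h1 := H.sc_unique hyK hyb hy (H.hN.chain v hvK)
      refine ⟨!A.ll X a y, ?_⟩
      simp only [nnf, hyb, if_false, Bool.not_eq_eq_eq_not]
      simp [h1]
    · have hvI : v ∈ A.J \ K := Finset.mem_sdiff.mpr ⟨hv, hvK⟩
      have hTv : T v = v := by
        refine H.T_self hvI ?_
        intro w hw
        rw [hy] at hw
        cases hw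
        simp [hyK]
      have hs := H.hS v hvI hTv
      generalize hu : U v = u at hs
      generalize hst : ST v = st at hs
      generalize hte : TE v = te at hs
      generalize hsg : SG v = sg at hs
      cases hs with
      | leaf d' k' σ g1 g2 g3 g4 g5 =>
        right
        refine ⟨hyK, ?_⟩
        have h1 := H.leaf_top g1 g2
        rw [g3, hy] at h1
        cases h1
        obtain ⟨i, hi, _⟩ := H.nn_leaf g1
        refine ⟨i, ?_⟩
        rw [hi]
        unfold rt
        rw [if_neg, g3]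
        intro he
        rw [he] at g2
        exact (Finset.mem_sdiff.mp g2).2 hyK
      | spine k' w' σ g1 g2 g3 g4 g5 g6 =>
        right
        refine ⟨hyK, ?_⟩
        have hwc : Anc A.par A.J v u := by
          obtain ⟨n, _, hn⟩ := H.hT u g2
          rw [g4] at hn
          exact ⟨n, hn.1.of_sdiff⟩
        have hck : Anc A.par A.J v k' := Anc.of_parent (H.hN.KJ g1) g3 hwc
        have hvb := hck.trans (H.hN.chain k' g1)
        have hyb : y ≠ bot := by
          rintro rfl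
          exact H.hA.not_child hv hy hyJ hvb
        have h1 := H.sc_unique hyK hyb hy hvb
        refine ⟨!A.ll X a y, ?_⟩
        simp [nnf, hyb, h1]
      | other g1 g2 =>
        left
        exact ⟨v, hvI, hTv, Or.inr (Or.inl ⟨hu.symm, by rw [hte, hy]⟩)⟩
  · have hyI : y ∈ A.J \ K := Finset.mem_sdiff.mpr ⟨hyJ, hyK⟩
    by_cases hvK : v ∈ K
    · left
      obtain ⟨g1, _, g2, _, _⟩ := H.spec_spine hvK hyI hy rfl
      exact ⟨T y, H.T_mem hyI, H.T_T hyI, Or.inr (Or.inr ⟨g1.symm, g2⟩)⟩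
    · have hvI : v ∈ A.J \ K := Finset.mem_sdiff.mpr ⟨hv, hvK⟩
      left
      refine ⟨T v, H.T_mem hvI, H.T_T hvI, Or.inl ⟨mem_blk.mpr ⟨hvI, rfl⟩, ?_⟩⟩
      have hne : v ≠ T v := by
        intro he
        have h1 := H.T_out hvI
        rw [← he] at h1
        exact h1 y hy hyI
      simp only [blkOf]
      rw [Function.update_of_ne hne]
      exact hy

theorem t0in {t0 : V → Option V}
    (ht : ∀ v ∈ A.J, ∀ w ∈ A.J, t0 v = some w → A.par v = some w ∨ A.par w = some v) {c v w : V}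
    (hv : v ∈ (blkOf A K T U ST q c).J) (hw : w ∈ (blkOf A K T U ST q c).J)
    (h1 : t0 v = some w) : (blkOf A K T U ST q c).par v = some w ∨
      (blkOf A K T U ST q c).par w = some v := by
  obtain ⟨hv1, hv2⟩ := mem_blk.mp hv
  obtain ⟨hw1, hw2⟩ := mem_blk.mp hw
  have key : ∀ {v w : V}, v ∈ A.J \ K → T v = c → w ∈ A.J \ K → A.par v = some w →
      (blkOf A K T U ST q c).par v = some w := by
    intro v w g1 g2 g3 g4
    have hne : v ≠ c := by
      rintro rfl
      have h2 := H.T_out g1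
      rw [g2] at h2
      exact h2 w g4 g3
    simp only [blkOf]
    rw [Function.update_of_ne hne]
    exact g4
  rcases ht v (Finset.mem_sdiff.mp hv1).1 w (Finset.mem_sdiff.mp hw1).1 h1 with h2 | h2
  · exact Or.inl (key hv1 hv2 hw1 h2)
  · exact Or.inr (key hw1 hw2 hv1 h2)

theorem t0cr {t0 : V → Option V}
    (ht : ∀ v ∈ A.J, ∀ w ∈ A.J, t0 v = some w → A.par v = some w ∨ A.par w = some v) {c v w : V}
    (hv : v ∈ (blkOf A K T U ST q c).J) (hw : w ∈ A.J) (hwK : w ∉ K)
    (h1 : t0 v = some w) : w ∈ (blkOf A K T U ST q c).J := by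
  obtain ⟨hv1, hv2⟩ := mem_blk.mp hv
  have hwI : w ∈ A.J \ K := Finset.mem_sdiff.mpr ⟨hw, hwK⟩
  rw [mem_blk]
  refine ⟨hwI, ?_⟩
  rcases ht v (Finset.mem_sdiff.mp hv1).1 w hw h1 with h2 | h2
  · rw [← H.T_par hv1 hwI h2]; exact hv2
  · rw [H.T_par hwI hv1 h2]; exact hv2

theorem tops_le [Fintype V] {t0 : V → Option V}
    (ht : ∀ v ∈ A.J, ∀ w ∈ A.J, t0 v = some w → A.par v = some w ∨ A.par w = some v) {c : V}
    (hc : c ∈ A.J \ K) (hT : T c = c) :
    tops t0 (blkOf A K T U ST q c).J ≤ tops t0 A.J + 2 := by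
  unfold tops
  have hsub : {v : V | v ∈ (blkOf A K T U ST q c).J ∧ Out t0 (blkOf A K T U ST q c).J v} ⊆
      {v : V | v ∈ A.J ∧ Out t0 A.J v} ∪ {c, U c} := by
    rintro v ⟨hv, ho⟩
    obtain ⟨hv1, hv2⟩ := mem_blk.mp hv
    have hvJ := (Finset.mem_sdiff.mp hv1).1
    by_cases hoA : Out t0 A.J v
    · exact Or.inl ⟨hvJ, hoA⟩
    · right
      unfold Out at hoA
      push Not at hoA
      obtain ⟨w, hw, hwJ⟩ := hoA
      have hwC := ho w hw
      have hwK : w ∈ K := by
        by_contra hwK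
        exact hwC (H.t0cr ht hv hwJ hwK hw)
      rcases ht v hvJ w hwJ hw with h2 | h2
      · left
        have : T v = v := H.T_self hv1 (by
          intro w' hw'
          rw [h2] at hw'
          cases hw'
          simp [hwK])
        rw [← this]; exact hv2
      · right
        obtain ⟨g1, _⟩ := H.spec_spine hwK hv1 h2 hv2
        exact g1.symm
  calc _ ≤ ({v : V | v ∈ A.J ∧ Out t0 A.J v} ∪ {c, U c}).ncard :=
        Set.ncard_le_ncard hsub (Set.toFinite _)
    _ ≤ {v : V | v ∈ A.J ∧ Out t0 A.J v}.ncard + ({c, U c} : Set V).ncard := Set.ncard_union_le _ _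
    _ ≤ _ := by
        have := Set.ncard_insert_le c {U c}
        rw [Set.ncard_singleton] at this
        omega

theorem zz {c : V} (hz : A.z ∈ (blkOf A K T U ST q c).J) :
    c = A.z ∧ ST c = none ∧ (A.st = none → (blkOf A K T U ST q c).dist < A.dist) := by
  obtain ⟨h1, h2⟩ := mem_blk.mp hz
  have hout : Out A.par (A.J \ K) A.z := by
    intro w hw
    rw [H.hA.pz] at hw
    cases hw
  have hTz : T A.z = A.z := H.T_self h1 hout
  rw [hTz] at h2
  subst h2
  refine ⟨rfl, ?_⟩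
  -- there is a centre below z whose parent is in the block
  obtain ⟨n, hn, hnb⟩ := H.hA.ex (H.hN.KJ H.hN.botK)
  have hzK : A.z ∉ K := (Finset.mem_sdiff.mp h1).2
  rcases last_centre hnb.1 hzK with h6 | ⟨k, hk, w, hw, m, m', g1, g2, g3⟩
  · have := h6.left_mem
    rw [Finset.mem_sdiff] at this
    exact absurd H.hN.botK this.2
  · have hTw : T w = A.z := H.T_eq hw ⟨g3, hout⟩
    obtain ⟨f1, f2, f3, _, _⟩ := H.spec_spine hk hw g1 hTw
    refine ⟨f2, fun hst => ?_⟩
    have ha2 := H.hN.free hst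
    have hbu : Anc A.par A.J bot A.u := by
      have := H.hN.botm.2.1
      rw [ha2] at this
      exact this
    obtain ⟨n1, hn1⟩ := hbu.trans (Anc.refl H.hA.uJ)
    obtain ⟨n2, hn2⟩ := H.hN.chain k hk
    have hwz : Pth A.par A.J m w A.z := g3.of_sdiff
    have huz : Pth A.par A.J (n1 + n2 + (1 + m)) A.u A.z :=
      (hn1.trans hn2).trans ((Pth.step (H.hN.KJ hk) g1 (Pth.refl hwz.left_mem)).trans hwz)
    have hd1 : A.dist = n1 + n2 + (1 + m) := by
      unfold Blk.dist
      have hE : Ex A.par A.J (n1 + n2 + (1 + m)) A.u A.z :=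
        ⟨huz, fun w hw => by rw [H.hA.pz] at hw; cases hw⟩
      have : {n | Pth A.par A.J n A.u A.z} = {n1 + n2 + (1 + m)} := by
        ext n'
        simp only [Set.mem_ofPred_eq, Set.mem_singleton_iff]
        constructor
        · intro h'
          have hE' : Ex A.par A.J n' A.u A.z :=
            ⟨h', fun w hw => by rw [H.hA.pz] at hw; cases hw⟩
          exact (hE'.det hE).1
        · rintro rfl
          exact huz
      rw [this]
      simp
    have hd2 : (blkOf A K T U ST q A.z).dist ≤ m := by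
      unfold Blk.dist
      apply Nat.sInf_le
      simp only [Set.mem_ofPred_eq]
      have := H.pth_blk g3 hout
      have hu : (blkOf A K T U ST q A.z).u = w := f1
      have hzz : (blkOf A K T U ST q A.z).z = A.z := rfl
      rw [hu, hzz]
      exact this
    omega

end ACD

/-- AC: from a chain configuration to a decomposition -/
theorem ac [Fintype V] (t0 : V → Option V) (h : ℕ) (A : Blk V) (hA : A.Tree h) (X : V → V)
    (K : Finset V) (bot : V) (a : V → Option V) (a2 : Option V)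
    (hX : ∀ v ∈ A.J, ∃ n, Ex A.p A.J n v (X v))
    (hf : ∀ i, A.st = some i → A.p (X A.u) = none ∧ A.lp (X A.u) = !i)
    (hN : NF A X K bot a a2)
    (ht : ∀ v ∈ A.J, ∀ w ∈ A.J, t0 v = some w → A.par v = some w ∨ A.par w = some v) :
    ∃ cls q lq nn 𝓛 te, Dec t0 A h (2 * h + 3) K cls q lq nn 𝓛 te := by
  classical
  have hT : ∀ v ∈ A.J \ K, ∃ c, ∃ n ≤ h, Ex A.par (A.J \ K) n v c := by
    intro v hv
    obtain ⟨n, hn, hE⟩ := hA.ex (Finset.mem_sdiff.mp hv).1
    obtain ⟨m, x', hm, hE', _, _⟩ := hE.restrict Finset.sdiff_subset hv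
    exact ⟨x', m, hm.trans hn, hE'⟩
  choose! T hT using hT
  have hsc : ∀ k ∈ K, k ≠ bot → ∃ c, A.par c = some k ∧ Anc A.par A.J c bot :=
    fun k hk hkb => NF.spine hA hN hk hkb
  choose! sc hsc using hsc
  obtain ⟨q, q1, q2, q3, q4, q5, q6⟩ := mrev A.p A.J X K (fun k hk => hX k (hN.KJ hk)) hN.Xinj
  have hS : ∀ c, ∃ (D : V × Option Bool × Option V × Sym),
      Spec A X K bot a a2 T c D.1 D.2.1 D.2.2.1 D.2.2.2 := by
    intro c
    by_cases h1 : ∃ d k, Lf K bot a a2 d k ∧ A.loc X d ∈ A.J \ K ∧ T (A.loc X d) = c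
    · obtain ⟨d, k, h1, h2, h3⟩ := h1
      refine ⟨(A.loc X d, A.lb X d, none,
        match A.lb X d with
        | none => Sym.P (!A.ll X a bot) 0
        | some i => Sym.S i), ?_⟩
      refine Spec.leaf d k _ h1 h2 h3 ?_ ?_
      · intro i hi; simp only [hi]
      · intro hi; simp only [hi]
    · by_cases h2 : ∃ k ∈ K, ∃ w ∈ A.J \ K, A.par k = some w ∧ T w = c
      · obtain ⟨k, hk, w, hw, h3, h4⟩ := h2
        refine ⟨(w, none, some k,
          match A.par c with
          | none => Sym.Fr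
          | some k0 => Sym.P (!A.ll X a k0) (2 * below A K k0)), ?_⟩
        refine Spec.spine k w _ hk hw h3 h4 ?_ ?_
        · intro k0 hk0; simp only [hk0]
        · intro hk0; simp only [hk0]
      · push Not at h1 h2
        exact ⟨(c, none, A.par c, Sym.Fr), Spec.other h1 h2⟩
  choose D hD using hS
  have H : ACD A h X K bot a a2 T sc (fun c => (D c).1) (fun c => (D c).2.1)
      (fun c => (D c).2.2.1) (fun c => (D c).2.2.2) q :=
    { hA := hA, hX := hX, hf := hf, hN := hN, hT := hT, hsc := hsc, hS := fun c _ _ => hD c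
      q1 := q1, q2 := q2, q3 := q3, q4 := q4, q5 := q5, q6 := q6 }
  generalize (fun c => (D c).1) = U at H
  generalize (fun c => (D c).2.1) = ST at H
  generalize (fun c => (D c).2.2.1) = TE at H
  generalize (fun c => (D c).2.2.2) = SG at H
  refine ⟨clsOf A K T SG, q, A.lp, nnf A X bot a a2 T sc,
    {C | ∃ c, c ∈ A.J \ K ∧ T c = c ∧ C = blkOf A K T U ST q c}, fun C => TE C.z, ?_⟩
  have htop : ∀ v ∈ A.J, v ∉ K → v ∈ (blkOf A K T U ST q (T v)).J ∧ T v ∈ A.J \ K ∧
      T (T v) = T v := by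
    intro v hv hvK
    have hvI : v ∈ A.J \ K := Finset.mem_sdiff.mpr ⟨hv, hvK⟩
    exact ⟨ACD.mem_blk.mpr ⟨hvI, rfl⟩, H.T_mem hvI, H.T_T hvI⟩
  constructor
  case KJ => exact hN.KJ
  case Kce =>
    intro k hk
    have := H.below_le hk
    simp only [clsOf, hk, if_true, Sym.isCe, Sym.le, true_and]
    omega
  case sub =>
    rintro C ⟨c, hc, hTc, rfl⟩ v hv
    exact Finset.mem_sdiff.mp (ACD.mem_blk.mp hv).1
  case disj =>
    rintro C ⟨c, hc, hTc, rfl⟩ C' ⟨c', hc', hTc', rfl⟩ v hv hv'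
    have h1 := (ACD.mem_blk.mp hv).2
    have h2 := (ACD.mem_blk.mp hv').2
    rw [← h1, ← h2]
  case cover =>
    intro v hv hvK
    obtain ⟨h1, h2, h3⟩ := htop v hv hvK
    exact ⟨_, ⟨T v, h2, h3, rfl⟩, h1⟩
  case fin =>
    have : {C | ∃ c, c ∈ A.J \ K ∧ T c = c ∧ C = blkOf A K T U ST q c} ⊆
        Set.range (blkOf A K T U ST q) := by
      rintro C ⟨c, _, _, rfl⟩
      exact ⟨c, rfl⟩
    exact (Set.finite_range _).subset this
  case cnt =>
    have h1 : {C : Blk V | C ∈ {C | ∃ c, c ∈ A.J \ K ∧ T c = c ∧ C = blkOf A K T U ST q c} ∧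
        C.st ≠ none} ⊆
        (fun d => blkOf A K T U ST q (T (A.loc X d))) '' ((insert a2 (K.image a) : Finset (Option V)) : Set (Option V)) := by
      rintro C ⟨⟨c, hc, hTc, rfl⟩, hst⟩
      rcases H.ST_cases hc hTc with ⟨d, k, g1, g2, g3, g4, g5⟩ | g1
      · refine ⟨d, ?_, by simp only [g3]⟩
        rcases g1 with ⟨hk, rfl⟩ | ⟨_, rfl⟩
        · simp only [Finset.coe_insert, Finset.coe_image]
          exact Or.inr ⟨k, hk, rfl⟩
        · simp
      · exact absurd g1 hst
    calc _ ≤ _ := Set.ncard_le_ncard h1 ((Finset.finite_toSet _).image _)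
      _ ≤ _ := Set.ncard_image_le (Finset.finite_toSet _)
      _ ≤ h + 2 := by
        rw [Set.ncard_coe_finset]
        have h2 := Finset.card_insert_le a2 (K.image a)
        have h3 := Finset.card_image_le (s := K) (f := a)
        have h4 := H.card_K
        omega
  case tree =>
    rintro C ⟨c, hc, hTc, rfl⟩
    exact H.tree_blk hc hTc
  case pq =>
    rintro C ⟨c, hc, hTc, rfl⟩
    exact ⟨rfl, rfl⟩
  case clsC =>
    rintro C ⟨c, hc, hTc, rfl⟩ v hv
    rw [H.cls_blk hv, H.cls_blk (H.tree_blk hc hTc).uJ]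
  case clsle =>
    rintro C ⟨c, hc, hTc, rfl⟩
    rw [H.cls_blk (H.tree_blk hc hTc).uJ]
    exact H.clsle hc hTc
  case clsS =>
    rintro C ⟨c, hc, hTc, rfl⟩ i
    rw [H.cls_blk (H.tree_blk hc hTc).uJ]
    exact H.clsS hc hTc i
  case ex => exact fun v hv => H.ex hv
  case tgt => exact fun v _ w hw => H.q6 v w hw
  case spec =>
    rintro C ⟨c, hc, hTc, rfl⟩ i hi n x hx
    exact H.spec hc hTc hi hx
  case dist =>
    rintro C ⟨c, hc, hTc, rfl⟩ C' ⟨c', hc', hTc', rfl⟩ h1 h2 n n' x hx hx'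
    rw [H.dist hc hTc hc' hTc' h1 h2 hx hx']
  case te1 =>
    rintro C ⟨c, hc, hTc, rfl⟩ k hk
    rw [H.cls_blk (H.tree_blk hc hTc).uJ]
    exact H.te1 hc hTc hk
  case lab =>
    rintro C ⟨c, hc, hTc, rfl⟩ v hv hp
    rcases H.lab hc hTc hv hp with h1 | h1
    · exact Or.inl ⟨h1, rfl⟩
    · exact Or.inr h1
  case labK => exact fun k hk hp => H.labK hk hp
  case uK => exact fun hu => H.uK hu
  case uC =>
    rintro C ⟨c, hc, hTc, rfl⟩ hu
    exact H.uC hu
  case n1 => exact fun k hk i y hy => H.n1 hk i y hy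
  case cov =>
    intro v hv y hy
    rcases hy with hy | hy
    · rcases H.covt hv hy with ⟨c, hc, hTc, h1 | h1 | h1⟩ | h1
      · exact Or.inl ⟨_, ⟨c, hc, hTc, rfl⟩, Or.inl ⟨h1.1, Or.inl h1.2⟩⟩
      · exact Or.inl ⟨_, ⟨c, hc, hTc, rfl⟩, Or.inr (Or.inr (Or.inl h1))⟩
      · exact Or.inl ⟨_, ⟨c, hc, hTc, rfl⟩, Or.inr (Or.inr (Or.inr h1))⟩
      · exact Or.inr (Or.inr h1)
    · rcases H.covp hv hy with ⟨h1, h2, h3⟩ | ⟨h1, h2, h3⟩
      · obtain ⟨g1, g2, g3⟩ := htop v h1 h2
        exact Or.inl ⟨_, ⟨T v, g2, g3, rfl⟩, Or.inl ⟨g1, Or.inr h3⟩⟩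
      · obtain ⟨g1, g2, g3⟩ := htop y h1 h2
        exact Or.inl ⟨_, ⟨T y, g2, g3, rfl⟩, Or.inr (Or.inl ⟨g1, Or.inr h3⟩)⟩
  case t0in =>
    rintro C ⟨c, hc, hTc, rfl⟩ v hv w hw h1
    exact H.t0in ht hv hw h1
  case t0cr =>
    rintro C ⟨c, hc, hTc, rfl⟩ v hv w hw hwK h1
    exact H.t0cr ht hv hw hwK h1
  case tops =>
    rintro C ⟨c, hc, hTc, rfl⟩
    exact H.tops_le ht hc hTc
  case zz =>
    rintro C ⟨c, hc, hTc, rfl⟩ hz
    obtain ⟨h1, h2, h3⟩ := H.zz hz
    exact ⟨h1, h2, h3⟩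

end Pool.Agent.RF
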