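import Mathlib

set_option autoImplicit false

/-!
Walks of partial functions inside a finite set (MP_5f065d_co, S09049).
-/

namespace Pool.Agent.RF

variable {V : Type*}

/-- `Pth f J n v x`: the `f`-walk from `v` reaches `x` after `n` steps, all vertices in `J`. -/
inductive Pth (f : V → Option V) (J : Finset V) : ℕ → V → V → Prop
  | refl {v : V} : v ∈ J → Pth f J 0 v v
  | step {n : ℕ} {v w x : V} : v ∈ J → f v = some w → Pth f J n w x → Pth f J (n + 1) v x

/-- `x` is a vertex where the walk leaves `J` (or stops). -/
def Out (f : V → Option V) (J : Finset V) (x : V) : Prop := ∀ w, f x = some w → w ∉ J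

/-- the walk from `v` leaves `J` at `x`, after `n` steps inside `J` -/
def Ex (f : V → Option V) (J : Finset V) (n : ℕ) (v x : V) : Prop := Pth f J n v x ∧ Out f J x

theorem Pth.left_mem {f : V → Option V} {J : Finset V} {n : ℕ} {v x : V} (h : Pth f J n v x) :
    v ∈ J := by
  cases h <;> assumption

theorem Pth.right_mem {f : V → Option V} {J : Finset V} {n : ℕ} {v x : V} (h : Pth f J n v x) :
    x ∈ J := by
  induction h with
  | refl h => exact h
  | step _ _ _ ih => exact ih

theorem Pth.zero {f : V → Option V} {J : Finset V} {v x : V} (h : Pth f J 0 v x) : v = x := by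
  cases h; rfl

theorem Pth.succ_inv {f : V → Option V} {J : Finset V} {n : ℕ} {v x : V}
    (h : Pth f J (n + 1) v x) : ∃ w, f v = some w ∧ w ∈ J ∧ Pth f J n w x := by
  cases h with
  | step h1 h2 h3 => exact ⟨_, h2, h3.left_mem, h3⟩

theorem Pth.trans {f : V → Option V} {J : Finset V} {n m : ℕ} {v x y : V}
    (h : Pth f J n v x) (h' : Pth f J m x y) : Pth f J (n + m) v y := by
  induction h with
  | refl _ => simpa using h'
  | step h1 h2 _ ih =>
    have := Pth.step h1 h2 (ih h')
    have e : ∀ k : ℕ, k + 1 + m = k + m + 1 := by intro k; omega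
    rw [e]; exact this

theorem Pth.snoc {f : V → Option V} {J : Finset V} {n : ℕ} {v x y : V}
    (h : Pth f J n v x) (hy : f x = some y) (hyJ : y ∈ J) : Pth f J (n + 1) v y :=
  h.trans (Pth.step h.right_mem hy (Pth.refl hyJ))

/-- determinism -/
theorem Pth.det {f : V → Option V} {J : Finset V} {n : ℕ} {v x y : V}
    (h : Pth f J n v x) (h' : Pth f J n v y) : x = y := by
  induction h with
  | refl _ => exact h'.zero
  | step h1 h2 _ ih =>
    obtain ⟨w, hw, _, h3⟩ := h'.succ_inv
    rw [h2] at hw
    cases hw
    exact ih h3

theorem Pth.split {f : V → Option V} {J : Finset V} {n m : ℕ} {v x y : V}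
    (h : Pth f J n v x) (h' : Pth f J (n + m) v y) : Pth f J m x y := by
  induction h with
  | refl _ => simpa using h'
  | @step n v w x h1 h2 _ ih =>
    have e : n + 1 + m = (n + m) + 1 := by omega
    rw [e] at h'
    obtain ⟨w', hw, _, h3⟩ := h'.succ_inv
    rw [h2] at hw
    cases hw
    exact ih h3

theorem Pth.take {f : V → Option V} {J : Finset V} {n m : ℕ} {v y : V}
    (h' : Pth f J (n + m) v y) : ∃ x, Pth f J n v x ∧ Pth f J m x y := by
  induction n generalizing v with
  | zero => exact ⟨v, Pth.refl h'.left_mem, by simpa using h'⟩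
  | succ n ih =>
    have e : n + 1 + m = (n + m) + 1 := by omega
    rw [e] at h'
    obtain ⟨w, hw, _, h3⟩ := h'.succ_inv
    obtain ⟨x, h4, h5⟩ := ih h3
    exact ⟨x, Pth.step h'.left_mem hw h4, h5⟩

theorem Ex.le {f : V → Option V} {J : Finset V} {n m : ℕ} {v x y : V}
    (h : Ex f J n v x) (h' : Pth f J m v y) : m ≤ n ∧ Pth f J (n - m) y x := by
  by_cases hle : m ≤ n
  · refine ⟨hle, ?_⟩
    obtain ⟨k, rfl⟩ := Nat.exists_eq_add_of_le hle
    have := h'.split h.1
    simpa using this
  · exfalso
    push Not at hle
    obtain ⟨k, rfl⟩ := Nat.exists_eq_add_of_lt hle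
    have h2 : Pth f J (k + 1) x y := by
      have e : n + k + 1 = n + (k + 1) := by omega
      rw [e] at h'
      exact h.1.split h'
    obtain ⟨w, hw, hwJ, _⟩ := h2.succ_inv
    exact h.2 w hw hwJ

theorem Ex.det {f : V → Option V} {J : Finset V} {n m : ℕ} {v x y : V}
    (h : Ex f J n v x) (h' : Ex f J m v y) : n = m ∧ x = y := by
  have h1 := (h.le h'.1)
  have h2 := (h'.le h.1)
  have e : n = m := le_antisymm h2.1 h1.1
  subst e
  exact ⟨rfl, h.1.det h'.1⟩

theorem Ex.tail {f : V → Option V} {J : Finset V} {n m : ℕ} {v x y : V}
    (h : Ex f J n v x) (h' : Pth f J m v y) : Ex f J (n - m) y x := ⟨(h.le h').2, h.2⟩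

theorem Ex.self {f : V → Option V} {J : Finset V} {x : V} (hx : x ∈ J) (h : Out f J x) :
    Ex f J 0 x x := ⟨Pth.refl hx, h⟩

theorem Ex.cons {f : V → Option V} {J : Finset V} {n : ℕ} {v w x : V} (hv : v ∈ J)
    (h : f v = some w) (h' : Ex f J n w x) : Ex f J (n + 1) v x :=
  ⟨Pth.step hv h h'.1, h'.2⟩

theorem Ex.right_mem {f : V → Option V} {J : Finset V} {n : ℕ} {v x : V} (h : Ex f J n v x) :
    x ∈ J := h.1.right_mem

/-- if the walk from `v` passes through some vertex, both have the same exit vertex -/
theorem Ex.head {f : V → Option V} {J : Finset V} {n m : ℕ} {v x y : V}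
    (h' : Pth f J m v y) (h : Ex f J n y x) : Ex f J (m + n) v x := ⟨h'.trans h.1, h.2⟩

/-- the walk cannot return -/
theorem Ex.no_cycle {f : V → Option V} {J : Finset V} {n m : ℕ} {v x : V}
    (h : Ex f J n v x) (h' : Pth f J m v v) : m = 0 := by
  have h1 := h.tail h'
  have := (h.det h1).1
  have := (h.le h').1
  omega

theorem Pth.congr {f g : V → Option V} {J J' : Finset V} {n : ℕ} {v x : V} (h : Pth f J n v x)
    (hJ : ∀ m y, Pth f J m v y → y ∈ J')
    (hfg : ∀ m y, Pth f J m v y → y ≠ x → f y = g y) (hx : ∀ m, 0 < m → m ≤ n → ¬ Pth f J m x x) :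
    Pth g J' n v x := by
  induction h with
  | refl hv => exact Pth.refl (hJ 0 _ (Pth.refl hv))
  | @step n v w x h1 h2 h3 ih =>
    have hvx : v ≠ x := by
      rintro rfl
      exact hx (n + 1) (by omega) le_rfl (Pth.step h1 h2 h3)
    refine Pth.step (hJ 0 _ (Pth.refl h1)) ?_ (ih ?_ ?_ ?_)
    · rw [← hfg 0 v (Pth.refl h1) hvx]; exact h2
    · intro m y hm; exact hJ (m + 1) y (Pth.step h1 h2 hm)
    · intro m y hm hy; exact hfg (m + 1) y (Pth.step h1 h2 hm) hy
    · intro m hm hmn; exact hx m hm (by omega)

/-- congruence for exits: same function values and membership along the walk -/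
theorem Ex.congr {f g : V → Option V} {J : Finset V} {n : ℕ} {v x : V} (h : Ex f J n v x)
    (hfg : ∀ m y, Pth f J m v y → f y = g y) : Ex g J n v x := by
  obtain ⟨h1, h2⟩ := h
  have key : Pth g J n v x := by
    clear h2
    induction h1 with
    | refl hv => exact Pth.refl hv
    | @step n v w x h1 h2' h3 ih =>
      refine Pth.step h1 (by rw [← hfg 0 v (Pth.refl h1)]; exact h2') (ih ?_)
      intro m y hm; exact hfg (m + 1) y (Pth.step h1 h2' hm)
  refine ⟨key, ?_⟩
  intro w hw
  rw [← hfg n x h1] at hw
  exact h2 w hw

theorem Ex.pth_of {f : V → Option V} {J : Finset V} {n : ℕ} {v x : V} (h : Ex f J n v x) :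
    Pth f J n v x := h.1

/-- restriction of a walk to a subset -/
theorem Ex.restrict {f : V → Option V} {J B : Finset V} {n : ℕ} {v x : V} (h : Ex f J n v x)
    (hB : B ⊆ J) (hv : v ∈ B) : ∃ m x', m ≤ n ∧ Ex f B m v x' ∧ Pth f J m v x' ∧
      (x' = x ∨ ∃ w, f x' = some w ∧ w ∈ J ∧ w ∉ B ∧ Ex f J (n - m - 1) w x) := by
  obtain ⟨h1, h2⟩ := h
  induction h1 with
  | @refl v hvJ =>
    exact ⟨0, v, le_rfl, ⟨Pth.refl hv, fun w hw hwB => h2 w hw (hB hwB)⟩, Pth.refl hvJ, Or.inl rfl⟩
  | @step n v w x h1 h2' h3 ih =>
    by_cases hw : w ∈ B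
    · obtain ⟨m, x', hm, he, hp, hor⟩ := ih hw h2
      refine ⟨m + 1, x', by omega, Ex.cons hv h2' he, Pth.step h1 h2' hp, ?_⟩
      rcases hor with h | ⟨w', hw1, hw2, hw3, hw4⟩
      · exact Or.inl h
      · refine Or.inr ⟨w', hw1, hw2, hw3, ?_⟩
        have e : n + 1 - (m + 1) - 1 = n - m - 1 := by omega
        rw [e]; exact hw4
    · refine ⟨0, v, by omega, ⟨Pth.refl hv, ?_⟩, Pth.refl h1, Or.inr ⟨w, h2', h3.left_mem, hw, ?_⟩⟩
      · intro w' hw'
        rw [h2'] at hw'
        cases hw'
        exact hw
      · have e : n + 1 - 0 - 1 = n := by omega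
        rw [e]; exact ⟨h3, h2⟩

/-- reversing the walk from `k` to its exit vertex `x` -/
theorem rev [DecidableEq V] (f : V → Option V) (J : Finset V) {n : ℕ} {k x : V}
    (hk : Ex f J n k x) :
    ∃ q : V → Option V,
      (∀ v, (∀ m, ¬ Pth f J m k v) → q v = f v) ∧
      q k = none ∧
      (∀ v m, Pth f J m k v → v ≠ k → ∃ w ∈ J, q v = some w ∧ f w = some v) ∧
      (∀ a ∈ J, ∀ b ∈ J, (f a = some b ∨ f b = some a) ↔ (q a = some b ∨ q b = some a)) ∧
      (∀ v m, Ex f J m v x → ∃ m' ≤ m + n, Ex q J m' v k) ∧
      (∀ v m y, y ≠ x → Ex f J m v y → Ex q J m v y) := by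
  obtain ⟨h1, h2⟩ := hk
  induction h1 with
  | @refl k hkJ =>
    refine ⟨Function.update f k none, ?_, by simp, ?_, ?_, ?_, ?_⟩
    · intro v hv
      have : v ≠ k := by
        rintro rfl
        exact hv 0 (Pth.refl hkJ)
      simp [Function.update_of_ne this]
    · intro v m hm hvk
      exfalso
      have := (Ex.self hkJ h2).le hm
      have hm0 : m = 0 := by omega
      subst hm0
      exact hvk hm.zero.symm
    · intro a ha b hb
      have h3 : ∀ a b, b ∈ J → (f a = some b ↔ (Function.update f k none) a = some b) := by
        intro a b hb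
        by_cases hak : a = k
        · subst hak
          simp only [Function.update_self]
          constructor
          · intro h; exact absurd hb (h2 b h)
          · intro h; cases h
        · rw [Function.update_of_ne hak]
      rw [h3 a b hb, h3 b a ha]
    · intro v m hm
      refine ⟨m, by omega, ?_⟩
      obtain ⟨h3, h4⟩ := hm
      refine ⟨?_, fun w hw => by simp at hw⟩
      clear h4
      induction h3 with
      | refl hv => exact Pth.refl hv
      | @step n v w x h5 h6 h7 ih =>
        have hvk : v ≠ x := by
          rintro rfl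
          exact h2 w h6 h7.left_mem
        exact Pth.step h5 (by rw [Function.update_of_ne hvk]; exact h6) (ih hkJ h2)
    · intro v m y hy hm
      refine hm.congr ?_
      intro m' z hz
      have hzk : z ≠ k := by
        rintro rfl
        have := hm.tail hz
        exact hy (this.det (Ex.self hkJ h2)).2
      rw [Function.update_of_ne hzk]
  | @step n k k1 x hkJ hkk1 h1 ih =>
    obtain ⟨q1, r1, r2, r3, r4, r5, r6⟩ := ih h2
    have hk1J : k1 ∈ J := h1.left_mem
    have hEk1 : Ex f J n k1 x := ⟨h1, h2⟩
    have hEk : Ex f J (n + 1) k x := Ex.cons hkJ hkk1 hEk1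
    have hnk : ∀ m, ¬ Pth f J m k1 k := by
      intro m hm
      have := hEk.no_cycle (Pth.step hkJ hkk1 hm)
      omega
    have hkne : k ≠ k1 := by
      rintro rfl
      exact hnk 0 (Pth.refl hkJ)
    have hq1k : q1 k = some k1 := by rw [r1 k hnk]; exact hkk1
    refine ⟨Function.update (Function.update q1 k1 (some k)) k none, ?_, by simp, ?_, ?_, ?_, ?_⟩
    · intro v hv
      have hvk : v ≠ k := by rintro rfl; exact hv 0 (Pth.refl hkJ)
      have hvk1 : v ≠ k1 := by
        rintro rfl; exact hv 1 (Pth.step hkJ hkk1 (Pth.refl hk1J))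
      rw [Function.update_of_ne hvk, Function.update_of_ne hvk1]
      exact r1 v (fun m hm => hv (m + 1) (Pth.step hkJ hkk1 hm))
    · intro v m hm hvk
      rw [Function.update_of_ne hvk]
      have hm1 : ∃ m', m = m' + 1 := by
        cases m with
        | zero => exact absurd hm.zero.symm hvk
        | succ m => exact ⟨m, rfl⟩
      obtain ⟨m', rfl⟩ := hm1
      obtain ⟨w, hw, hwJ, hm2⟩ := hm.succ_inv
      rw [hkk1] at hw
      cases hw
      by_cases hvk1 : v = k1
      · subst hvk1
        refine ⟨k, hkJ, by simp, hkk1⟩
      · obtain ⟨w, hw1, hw2, hw3⟩ := r3 v m' hm2 hvk1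
        exact ⟨w, hw1, by rw [Function.update_of_ne hvk1]; exact hw2, hw3⟩
    · intro a ha b hb
      rw [r4 a ha b hb]
      have key : ∀ a b : V, (q1 a = some b ∨ q1 b = some a) ↔
          ((Function.update (Function.update q1 k1 (some k)) k none) a = some b ∨
           (Function.update (Function.update q1 k1 (some k)) k none) b = some a) := by
        intro a b
        by_cases hak : a = k
        · subst hak
          by_cases hbk1 : b = k1
          · subst hbk1
            simp [hq1k, Function.update_of_ne (Ne.symm hkne)]
          · by_cases hbk : b = a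
            · subst hbk
              simp only [Function.update_self, hq1k]
              simp [Ne.symm hkne]
            · simp only [Function.update_self, Function.update_of_ne hbk, Function.update_of_ne hbk1,
                hq1k, Option.some.injEq, reduceCtorEq, false_or]
              constructor
              · rintro (h | h)
                · exact absurd h.symm hbk1
                · exact h
              · intro h; exact Or.inr h
        · by_cases hbk : b = k
          · subst hbk
            by_cases hak1 : a = k1
            · subst hak1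
              simp [hq1k, Function.update_of_ne (Ne.symm hkne)]
            · simp only [Function.update_self, Function.update_of_ne hak, Function.update_of_ne hak1,
                hq1k, Option.some.injEq, reduceCtorEq, or_false]
              constructor
              · rintro (h | h)
                · exact h
                · exact absurd h.symm hak1
              · intro h; exact Or.inl h
          · by_cases hak1 : a = k1
            · subst hak1
              by_cases hbk1 : b = a
              · subst hbk1
                simp only [Function.update_of_ne hak, Function.update_self, r2]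
                simp [Ne.symm hak]
              · simp only [Function.update_of_ne hak, Function.update_self, r2,
                  Function.update_of_ne hbk, Function.update_of_ne hbk1]
                simp [Ne.symm hbk]
            · by_cases hbk1 : b = k1
              · subst hbk1
                simp only [Function.update_of_ne hbk, Function.update_self, r2,
                  Function.update_of_ne hak, Function.update_of_ne hak1]
                simp [Ne.symm hak]
              · rw [Function.update_of_ne hak, Function.update_of_ne hbk,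
                  Function.update_of_ne hak1, Function.update_of_ne hbk1]
      exact key a b
    · intro v m hm
      obtain ⟨m', hm', hE⟩ := r5 v m hm
      have claim : ∀ m' v, Pth q1 J m' v k1 → ∃ m'' ≤ m' + 1,
          Ex (Function.update (Function.update q1 k1 (some k)) k none) J m'' v k := by
        intro m'
        induction m' with
        | zero =>
          intro v hv
          have := hv.zero
          subst this
          exact ⟨1, le_rfl, Ex.cons hk1J (by rw [Function.update_of_ne (Ne.symm hkne)]; simp)
            (Ex.self hkJ (fun w hw => by simp at hw))⟩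
        | succ m' ihm =>
          intro v hv
          by_cases hvk : v = k
          · subst hvk
            exact ⟨0, by omega, Ex.self hkJ (fun w hw => by simp at hw)⟩
          · by_cases hvk1 : v = k1
            · subst hvk1
              exact ⟨1, by omega, Ex.cons hk1J (by rw [Function.update_of_ne (Ne.symm hkne)]; simp)
                (Ex.self hkJ (fun w hw => by simp at hw))⟩
            · obtain ⟨w, hw, hwJ, h3⟩ := hv.succ_inv
              obtain ⟨m'', hm'', hE''⟩ := ihm w h3
              exact ⟨m'' + 1, by omega, Ex.cons hv.left_mem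
                (by rw [Function.update_of_ne hvk, Function.update_of_ne hvk1]; exact hw) hE''⟩
      obtain ⟨m'', hm'', hE''⟩ := claim m' v hE.1
      exact ⟨m'', by omega, hE''⟩
    · intro v m y hy hm
      have h3 := r6 v m y hy hm
      refine h3.congr ?_
      intro m' z hz
      have hzk1 : ∀ m'' z, Pth q1 J m'' v z → z ≠ k1 := by
        rintro m'' z hz rfl
        have h4 := h3.tail hz
        obtain ⟨m5, _, h5⟩ := r5 z n hEk1
        have h6 := (h4.det h5).2
        subst h6
        -- y = k1 is an exit vertex of f
        have h7 := hm.2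
        have h8 := (hEk1.det (Ex.self hk1J h7)).2
        exact hy h8.symm
      have hzk : z ≠ k := by
        rintro rfl
        have : Pth q1 J (m' + 1) v k1 := hz.snoc hq1k hk1J
        exact hzk1 _ _ this rfl
      rw [Function.update_of_ne hzk, Function.update_of_ne (hzk1 _ _ hz)]

end Pool.Agent.RF
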