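import Mathlib

set_option autoImplicit false

namespace Pool.Agent.RF

/-- Auxiliary: colouring a finite set of vertices of a digraph with out-degrees at most `m`. -/
theorem color_digraph_aux {V : Type} [Fintype V] [DecidableEq V] (m : ℕ) (N : V → Finset V)
    (hN : ∀ v, (N v).card ≤ m) (n : ℕ) :
    ∀ S : Finset V, S.card = n →
      ∃ col : V → Fin (2 * m + 1), ∀ v ∈ S, ∀ w ∈ S, w ∈ N v → w ≠ v → col v ≠ col w := by
  induction n with
  | zero =>
    intro S hS
    rw [Finset.card_eq_zero] at hS
    subst hS
    exact ⟨fun _ => 0, by simp⟩
  | succ n ih =>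
    intro S hS
    -- some vertex of `S` has in-degree at most `m` inside `S`
    have hne : S.Nonempty := by
      rw [← Finset.card_pos]; omega
    have hsum : ∑ v ∈ S, (S.filter fun u => v ∈ N u).card ≤ ∑ _v ∈ S, m := by
      have h1 : ∑ v ∈ S, (S.filter fun u => v ∈ N u).card
          = ∑ u ∈ S, (S.filter fun v => v ∈ N u).card := by
        simp only [Finset.card_filter]
        exact Finset.sum_comm
      rw [h1]
      apply Finset.sum_le_sum
      intro u _
      refine le_trans (Finset.card_le_card ?_) (hN u)
      intro v hv
      exact (Finset.mem_filter.mp hv).2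
    obtain ⟨v, hvS, hv⟩ := Finset.exists_le_of_sum_le hne hsum
    obtain ⟨col, hcol⟩ := ih (S.erase v) (by rw [Finset.card_erase_of_mem hvS]; omega)
    -- forbidden colours for `v`
    set B : Finset V := (S.filter fun u => v ∈ N u) ∪ N v with hB
    have hBcard : (B.image col).card < Fintype.card (Fin (2 * m + 1)) := by
      rw [Fintype.card_fin]
      have h1 : (B.image col).card ≤ B.card := Finset.card_image_le
      have h2 : B.card ≤ (S.filter fun u => v ∈ N u).card + (N v).card :=
        Finset.card_union_le _ _
      have h3 := hN v
      omega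
    obtain ⟨c, hc⟩ : ∃ c : Fin (2 * m + 1), c ∉ B.image col := by
      by_contra hcon
      push Not at hcon
      have : B.image col = Finset.univ := Finset.eq_univ_iff_forall.mpr hcon
      rw [this, Finset.card_univ] at hBcard
      exact lt_irrefl _ hBcard
    refine ⟨fun u => if u = v then c else col u, ?_⟩
    intro x hx y hy hyx hne'
    by_cases hxv : x = v
    · subst hxv
      have hyx' : y ≠ x := hne'
      simp only [if_true, if_neg hyx']
      intro h
      apply hc
      rw [h]
      apply Finset.mem_image_of_mem
      rw [hB]
      exact Finset.mem_union_right _ hyx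
    · by_cases hyv : y = v
      · subst hyv
        simp only [if_true, if_neg hxv]
        intro h
        apply hc
        rw [← h]
        apply Finset.mem_image_of_mem
        rw [hB]
        exact Finset.mem_union_left _ (Finset.mem_filter.mpr ⟨hx, hyx⟩)
      · simp only [if_neg hxv, if_neg hyv]
        exact hcol x (Finset.mem_erase.mpr ⟨hxv, hx⟩) y (Finset.mem_erase.mpr ⟨hyv, hy⟩) hyx hne'

/-- A digraph with out-degrees at most `m` has a proper colouring with `2 m + 1` colours. -/
theorem color_digraph {V : Type} [Fintype V] [DecidableEq V] (m : ℕ) (N : V → Finset V)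
    (hN : ∀ v, (N v).card ≤ m) :
    ∃ col : V → Fin (2 * m + 1), ∀ v w, w ∈ N v → w ≠ v → col v ≠ col w := by
  obtain ⟨col, hcol⟩ := color_digraph_aux m N hN _ Finset.univ rfl
  exact ⟨col, fun v w hw hne => hcol v (Finset.mem_univ _) w (Finset.mem_univ _) hw hne⟩

end Pool.Agent.RF
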