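import Pool.Agent.Lib.MP_5f065d_co.Statements
import Pool.Agent.Lib.MP_5f065d_co.ColorDigraph

set_option autoImplicit false

/-!
Colouring step for MP_5f065d_co (S09049).
-/

namespace Pool.Agent.RF

open Classical in
/-- exit vertex of the `p`-walk of `y` -/
noncomputable def exv {V : Type} (A : Blk V) (y : V) : V :=
  if H : ∃ x n, Ex A.p A.J n y x then H.choose else y

theorem exv_eq {V : Type} {A : Blk V} {n : ℕ} {y x : V} (h : Ex A.p A.J n y x) : exv A y = x := by
  have H : ∃ x n, Ex A.p A.J n y x := ⟨x, n, h⟩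
  obtain ⟨m, hm⟩ := H.choose_spec
  simp only [exv, dif_pos H]
  exact (hm.det h).2

section count
variable {V : Type} [Fintype V]

open Classical in
theorem anc_card {A : Blk V} {h : ℕ} (hA : A.Tree h) (x : V) :
    (Finset.univ.filter (fun y => Anc A.par A.J y x)).card ≤ h + 1 := by
  let g : ℕ → V := fun n => if H : ∃ y, Pth A.par A.J n x y then H.choose else x
  have hsub : Finset.univ.filter (fun y => Anc A.par A.J y x) ⊆
      (Finset.range (h + 1)).image g := by
    intro y hy
    rw [Finset.mem_filter] at hy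
    obtain ⟨n, hn⟩ := hy.2
    obtain ⟨n0, hn0, hE⟩ := hA.ex hn.left_mem
    have hle := (hE.le hn).1
    rw [Finset.mem_image]
    refine ⟨n, Finset.mem_range.mpr (by omega), ?_⟩
    have H : ∃ y, Pth A.par A.J n x y := ⟨y, hn⟩
    simp only [g, dif_pos H]
    exact H.choose_spec.det hn
  refine (Finset.card_le_card hsub).trans (Finset.card_image_le.trans ?_)
  simp

open Classical in
theorem des_card {A : Blk V} {h : ℕ} (hA : A.Tree h) (k : ℕ) :
    (Finset.univ.filter (fun y => Des A k y)).card ≤ (2 * h + 2) * (h + 2) ^ k := by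
  induction k with
  | zero =>
    have hsub : Finset.univ.filter (fun y => Des A 0 y) ⊆
        Finset.univ.filter (fun y => Anc A.par A.J y A.u) ∪
        Finset.univ.filter (fun y => Anc A.par A.J y (exv A A.u)) := by
      intro y hy
      rw [Finset.mem_filter] at hy
      rw [Finset.mem_union, Finset.mem_filter, Finset.mem_filter]
      rcases hy.2 with h1 | ⟨n, x, h1, h2⟩
      · exact Or.inl ⟨Finset.mem_univ _, h1⟩
      · exact Or.inr ⟨Finset.mem_univ _, by rw [exv_eq h1]; exact h2⟩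
    have h0 := (Finset.card_le_card hsub).trans (Finset.card_union_le _ _)
    have h1 := anc_card hA A.u
    have h2 := anc_card hA (exv A A.u)
    rw [pow_zero, mul_one]
    omega
  | succ k ih =>
    have hsub : Finset.univ.filter (fun y => Des A (k + 1) y) ⊆
        Finset.univ.filter (fun y => Des A k y) ∪
        (Finset.univ.filter (fun y => Des A k y)).biUnion
          (fun y' => Finset.univ.filter (fun y => Anc A.par A.J y (exv A y'))) := by
      intro y hy
      rw [Finset.mem_filter] at hy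
      rw [Finset.mem_union, Finset.mem_filter, Finset.mem_biUnion]
      rcases hy.2 with h1 | ⟨y', n, x, h1, h2, h3⟩
      · exact Or.inl ⟨Finset.mem_univ _, h1⟩
      · refine Or.inr ⟨y', ?_, ?_⟩
        · rw [Finset.mem_filter]; exact ⟨Finset.mem_univ _, h1⟩
        · rw [Finset.mem_filter, exv_eq h2]; exact ⟨Finset.mem_univ _, h3⟩
    have h0 := (Finset.card_le_card hsub).trans (Finset.card_union_le _ _)
    have h1 := Finset.card_biUnion_le_card_mul (Finset.univ.filter (fun y => Des A k y))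
      (fun y' => Finset.univ.filter (fun y => Anc A.par A.J y (exv A y'))) (h + 1)
      (fun y' _ => anc_card hA (exv A y'))
    calc _ ≤ _ := h0
      _ ≤ (Finset.univ.filter (fun y => Des A k y)).card +
          (Finset.univ.filter (fun y => Des A k y)).card * (h + 1) := by omega
      _ = (Finset.univ.filter (fun y => Des A k y)).card * (h + 2) := by ring
      _ ≤ ((2 * h + 2) * (h + 2) ^ k) * (h + 2) := Nat.mul_le_mul_right _ ih
      _ = _ := by rw [pow_succ]; ring

end count

section rel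
variable {V : Type} {κ : Type} {c : V → κ} {ρ : κ → κ → Bool} {A : Blk V}

theorem rel_none {v : V} (h : A.p v = none) :
    (A.rel c ρ).p v = none ∧ (A.rel c ρ).lp v = A.lp v := by
  simp [Blk.rel, h]

theorem rel_same {v w : V} (h : A.p v = some w) (hc : c w = c v) :
    (A.rel c ρ).p v = some w := by
  simp [Blk.rel, h, hc]

theorem rel_diff {v w : V} (h : A.p v = some w) (hc : c w ≠ c v) :
    (A.rel c ρ).p v = none ∧ (A.rel c ρ).lp v = ρ (c v) (c w) := by
  simp [Blk.rel, h, hc]

theorem rel_some {v w : V} (h : (A.rel c ρ).p v = some w) : A.p v = some w ∧ c w = c v := by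
  cases hv : A.p v with
  | none => rw [(rel_none hv).1] at h; cases h
  | some w' =>
    by_cases hc : c w' = c v
    · rw [rel_same hv hc] at h
      cases h
      exact ⟨rfl, hc⟩
    · rw [(rel_diff hv hc).1] at h; cases h

theorem rel_J : (A.rel c ρ).J = A.J := rfl
theorem rel_par : (A.rel c ρ).par = A.par := rfl
theorem rel_z : (A.rel c ρ).z = A.z := rfl
theorem rel_u : (A.rel c ρ).u = A.u := rfl
theorem rel_st : (A.rel c ρ).st = A.st := rfl

theorem rel_tree {h : ℕ} (hA : A.Tree h) : (A.rel c ρ).Tree h :=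
  ⟨hA.zJ, hA.pz, hA.tree, hA.uJ⟩

theorem rel_ex (hc : ∀ v ∈ A.J, ∀ w ∈ A.J, c v = c w) {n : ℕ} {v x : V} :
    Ex (A.rel c ρ).p A.J n v x ↔ Ex A.p A.J n v x := by
  constructor
  · rintro ⟨h1, h2⟩
    have hx := h1.right_mem
    refine ⟨?_, ?_⟩
    · clear h2 hx
      induction h1 with
      | refl hv => exact Pth.refl hv
      | step h3 h4 _ ih => exact Pth.step h3 (rel_some h4).1 ih
    · intro w hw hwJ
      exact h2 w (rel_same hw (hc w hwJ x hx)) hwJ
  · rintro ⟨h1, h2⟩
    refine ⟨?_, ?_⟩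
    · clear h2
      induction h1 with
      | refl hv => exact Pth.refl hv
      | step h3 h4 h5 ih => exact Pth.step h3 (rel_same h4 (hc _ h5.left_mem _ h3)) ih
    · intro w hw
      exact h2 w (rel_some hw).1

theorem rel_des (hc : ∀ v ∈ A.J, ∀ w ∈ A.J, c v = c w) (k : ℕ) {y : V} :
    Des (A.rel c ρ) k y → Des A k y := by
  induction k generalizing y with
  | zero =>
    rintro (h | ⟨n, x, h1, h2⟩)
    · exact Or.inl h
    · exact Or.inr ⟨n, x, (rel_ex hc).mp h1, h2⟩
  | succ k ih =>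
    rintro (h | ⟨y', n, x, h0, h1, h2⟩)
    · exact Or.inl (ih h)
    · exact Or.inr ⟨y', n, x, ih h0, (rel_ex hc).mp h1, h2⟩

theorem rel_wf {t0 : V → Option V} {e : V → ℕ} {h τ : ℕ}
    (hc : ∀ v ∈ A.J, ∀ w ∈ A.J, c v = c w) (hA : A.WF t0 e h τ) :
    (A.rel c ρ).WF t0 e h τ where
  tree := rel_tree hA.tree
  ex := by
    intro v hv
    obtain ⟨n, x, hx⟩ := hA.ex v hv
    exact ⟨n, x, (rel_ex hc).mpr hx⟩
  frc := by
    intro i hi n x hx
    obtain ⟨h1, h2⟩ := hA.frc i hi n x ((rel_ex hc).mp hx)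
    exact ⟨(rel_none h1).1, by rw [(rel_none h1).2]; exact h2⟩
  zmin := hA.zmin
  t0in := hA.t0in
  tops := hA.tops

theorem rel_meas {e : V → ℕ} : (A.rel c ρ).meas e = A.meas e := rfl

end rel

/-- a tree edge stays in the block -/
theorem Blk.Tree.par_mem {V : Type} {A : Blk V} {h : ℕ} (hA : A.Tree h) {v y : V} (hv : v ∈ A.J)
    (h1 : A.par v = some y) : y ∈ A.J := by
  obtain ⟨n, _, hn⟩ := hA.tree v hv
  cases n with
  | zero =>
    have := hn.zero
    subst this
    rw [hA.pz] at h1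
    cases h1
  | succ n =>
    obtain ⟨w, hw, hwJ, _⟩ := hn.succ_inv
    rw [h1] at hw
    cases hw
    exact hwJ

/-- rank of a colour -/
def rkc (m : ℕ) (i : Bool) (c : Fin m) : ℕ := if i then c.val else m - 1 - c.val

theorem rkc_le {m : ℕ} (i : Bool) (c : Fin m) : rkc m i c + 1 ≤ m := by
  have := c.isLt
  cases i
  · simp [rkc]; omega
  · simp [rkc]

theorem rkc_lt {m : ℕ} (a b : Fin m) (h : b ≠ a) :
    rkc m (decide (b < a)) b < rkc m (decide (b < a)) a := by
  have ha := a.isLt
  have hb := b.isLt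
  by_cases hlt : b < a
  · simp [rkc, hlt]
  · have h1 : a.val < b.val := by
      rcases lt_trichotomy a.val b.val with h2 | h2 | h2
      · exact h2
      · exact absurd (Fin.ext h2.symm) h
      · exact absurd h2 hlt
    simp [rkc, hlt]
    omega

theorem colour_step : ColourStatement := by
  classical
  intro h
  refine ⟨2 * ((2 * h + 2) * (h + 2) ^ (h + 1)) + 1, ?_⟩
  intro τ N V _ _ t0 e μ hyp 𝓑 hF hμ
  set M : ℕ := (2 * h + 2) * (h + 2) ^ (h + 1) with hM
  -- the block of a vertex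
  let rep : V → V := fun v => if H : ∃ A ∈ 𝓑, v ∈ A.J then H.choose.z else v
  have hrep : ∀ A ∈ 𝓑, ∀ v ∈ A.J, rep v = A.z := by
    intro A hA v hv
    have H : ∃ A ∈ 𝓑, v ∈ A.J := ⟨A, hA, hv⟩
    have h1 := H.choose_spec
    have h2 : H.choose = A := hF.disj _ h1.1 _ hA v h1.2 hv
    simp only [rep, dif_pos H]
    rw [h2]
  -- the digraph
  let Nb : V → Finset V := fun v =>
    if H : ∃ A ∈ 𝓑, A.z = v then
      (Finset.univ.filter (fun y => Des H.choose (h + 1) y)).image
        (fun y => rep ((H.choose.p (exv H.choose y)).getD v))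
    else ∅
  have hNb : ∀ v, (Nb v).card ≤ M := by
    intro v
    by_cases H : ∃ A ∈ 𝓑, A.z = v
    · simp only [Nb, dif_pos H]
      exact Finset.card_image_le.trans (des_card (hF.wf _ H.choose_spec.1).tree (h + 1))
    · simp only [Nb, dif_neg H]
      simp
  have hNbm : ∀ A ∈ 𝓑, ∀ y n x w, Des A (h + 1) y → Ex A.p A.J n y x → A.p x = some w →
      rep w ∈ Nb A.z := by
    intro A hA y n x w hy hx hw
    have H : ∃ A' ∈ 𝓑, A'.z = A.z := ⟨A, hA, rfl⟩
    have h1 := H.choose_spec
    have h0 : A.z ∈ H.choose.J := by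
      have h3 := (hF.wf _ h1.1).tree.zJ
      have h4 := h1.2
      generalize H.choose = C at h3 h4
      rw [← h4]; exact h3
    have h2 : H.choose = A := hF.disj _ h1.1 _ hA A.z h0 (hF.wf _ hA).tree.zJ
    simp only [Nb, dif_pos H]
    rw [h2, Finset.mem_image]
    refine ⟨y, ?_, ?_⟩
    · rw [Finset.mem_filter]; exact ⟨Finset.mem_univ _, hy⟩
    · rw [exv_eq hx, hw]
      rfl
  obtain ⟨col, hcol⟩ := color_digraph M Nb hNb
  -- colours
  let c : V → Fin (2 * M + 1) := fun v => col (rep v)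
  have hc : ∀ A ∈ 𝓑, ∀ v ∈ A.J, ∀ w ∈ A.J, c v = c w := by
    intro A hA v hv w hw
    simp only [c, hrep A hA v hv, hrep A hA w hw]
  let ρ : Fin (2 * M + 1) → Fin (2 * M + 1) → Bool := fun a b => decide (b < a)
  -- families
  let 𝓕 : Fin (2 * M + 1) → Set (Blk V) := fun k => {C | ∃ A ∈ 𝓑, c A.z = k ∧ C = A.rel c ρ}
  have hFk : ∀ k, Fam t0 e h τ (𝓕 k) := by
    intro k
    refine ⟨?_, ?_, ?_⟩
    · rintro _ ⟨A, hA, _, rfl⟩
      exact rel_wf (hc A hA) (hF.wf A hA)
    · rintro _ ⟨A, hA, _, rfl⟩ _ ⟨B, hB, _, rfl⟩ v hv hv'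
      rw [hF.disj A hA B hB v hv hv']
    · rintro _ ⟨A, hA, hk, rfl⟩ v hv w hw
      obtain ⟨h1, h2⟩ := rel_some hw
      obtain ⟨B, hB, hwB⟩ := hF.tgt A hA v hv w h1
      refine ⟨B.rel c ρ, ⟨B, hB, ?_, rfl⟩, hwB⟩
      rw [hc B hB B.z (hF.wf B hB).tree.zJ w hwB, h2,
        hc A hA v hv A.z (hF.wf A hA).tree.zJ, hk]
  have hLk : ∀ k, ∀ C ∈ 𝓕 k, C.Lab (h + 1) := by
    rintro k _ ⟨A, hA, hk, rfl⟩ y n x hy hx
    have hy' := rel_des (hc A hA) _ hy
    have hx' := (rel_ex (hc A hA)).mp hx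
    cases hpx : A.p x with
    | none => exact (rel_none hpx).1
    | some w =>
      have hwA : w ∉ A.J := hx'.2 w hpx
      have hxJ : x ∈ A.J := hx'.right_mem
      obtain ⟨B, hB, hwB⟩ := hF.tgt A hA x hxJ w hpx
      have h1 := hNbm A hA y n x w hy' hx' hpx
      rw [hrep B hB w hwB] at h1
      have hne : B.z ≠ A.z := by
        intro hz
        have := hF.disj B hB A hA A.z (by rw [← hz]; exact (hF.wf B hB).tree.zJ)
          (hF.wf A hA).tree.zJ
        subst this
        exact hwA hwB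
      have h2 := hcol A.z B.z h1 hne
      refine (rel_diff hpx ?_).1
      simp only [c, hrep B hB w hwB, hrep A hA x hxJ]
      exact fun h3 => h2 h3.symm
  have hSol : ∀ k, Sol (𝓕 k) N := by
    intro k
    refine hyp (𝓕 k) (hFk k) ?_ (hLk k)
    rintro _ ⟨A, hA, _, rfl⟩
    rw [rel_meas]
    exact hμ A hA
  choose s φ hφ hs hsat using hSol
  -- second out-edges
  let pp : V → Option V := fun v => if H : ∃ A ∈ 𝓑, v ∈ A.J then H.choose.p v else none
  have hpp : ∀ A ∈ 𝓑, ∀ v ∈ A.J, pp v = A.p v := by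
    intro A hA v hv
    have H : ∃ A ∈ 𝓑, v ∈ A.J := ⟨A, hA, hv⟩
    have h1 := H.choose_spec
    have h2 : H.choose = A := hF.disj _ h1.1 _ hA v h1.2 hv
    simp only [pp, dif_pos H]
    rw [h2]
  let S : V → Bool → Option V := fun v i =>
    if s (c v) v i ≠ none then s (c v) v i else
      if ∃ w, pp v = some w ∧ c w ≠ c v ∧ ρ (c v) (c w) = i then pp v else none
  have hS1 : ∀ v i y, s (c v) v i = some y → S v i = some y := by
    intro v i y hy
    simp only [S]
    rw [if_pos (by rw [hy]; simp), hy]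
  have hS2 : ∀ v i w, s (c v) v i = none → pp v = some w → c w ≠ c v → ρ (c v) (c w) = i →
      S v i = some w := by
    intro v i w h1 h2 h3 h4
    simp only [S]
    rw [if_neg (by rw [h1]; simp), if_pos ⟨w, h2, h3, h4⟩, h2]
  have hS3 : ∀ v i y, S v i = some y → s (c v) v i = some y ∨
      (pp v = some y ∧ c y ≠ c v ∧ ρ (c v) (c y) = i) := by
    intro v i y hy
    simp only [S] at hy
    split_ifs at hy with h1 h2
    · exact Or.inl hy
    · obtain ⟨w, h3, h4, h5⟩ := h2
      rw [h3] at hy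
      cases hy
      exact Or.inr ⟨h3, h4, h5⟩
  have hS4 : ∀ v i, s (c v) v i = none → (∀ w, pp v = some w → c w ≠ c v → ρ (c v) (c w) ≠ i) →
      S v i = none := by
    intro v i h1 h2
    cases hv : S v i with
    | none => rfl
    | some y =>
      rcases hS3 v i y hv with h3 | ⟨h3, h4, h5⟩
      · rw [h1] at h3; cases h3
      · exact absurd h5 (h2 y h3 h4)
  have hcz : ∀ A ∈ 𝓑, ∀ v ∈ A.J, A.rel c ρ ∈ 𝓕 (c v) := by
    intro A hA v hv
    exact ⟨A, hA, hc A hA _ (hF.wf A hA).tree.zJ _ hv, rfl⟩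
  refine ⟨S, fun i v => rkc (2 * M + 1) i (c v) * (N + 1) + φ (c v) i v, ?_, ?_, ?_⟩
  · intro i v
    have h1 := rkc_le i (c v)
    have h2 := hφ (c v) i v
    have h3 : (rkc (2 * M + 1) i (c v) + 1) * (N + 1) ≤ (2 * M + 1) * (N + 1) :=
      Nat.mul_le_mul_right _ h1
    simp only
    nlinarith
  · intro A hA v hv i y hy
    rcases hS3 v i y hy with h1 | ⟨h1, h2, h3⟩
    · obtain ⟨⟨C, ⟨B, hB, hBc, rfl⟩, hyB⟩, h3⟩ := hs (c v) (A.rel c ρ) (hcz A hA v hv) v hv i y h1
      have hcy : c y = c v := by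
        rw [← hBc]
        exact hc B hB y hyB _ (hF.wf B hB).tree.zJ
      refine ⟨⟨B, hB, hyB⟩, ?_⟩
      simp only
      rw [hcy]
      omega
    · rw [hpp A hA v hv] at h1
      refine ⟨hF.tgt A hA v hv y h1, ?_⟩
      have h4 := rkc_lt (c v) (c y) h2
      have h5 : (decide (c y < c v)) = i := h3
      rw [h5] at h4
      have h6 := hφ (c y) i y
      have h7 : (rkc (2 * M + 1) i (c y) + 1) * (N + 1) ≤ rkc (2 * M + 1) i (c v) * (N + 1) :=
        Nat.mul_le_mul_right _ h4
      simp only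
      nlinarith
  · intro A hA
    have hWA := hF.wf A hA
    have hAt : ∀ v ∈ A.J, Sat (s (c v)) (A.rel c ρ) := fun v hv => hsat (c v) _ (hcz A hA v hv)
    refine ⟨?_, ?_, ?_, ?_, ?_⟩
    · intro v hv y hy
      have hyJ := hWA.tree.par_mem hv hy
      obtain ⟨i, h1 | h1⟩ := (hAt v hv).par v hv y hy
      · exact ⟨i, Or.inl (hS1 v i y h1)⟩
      · refine ⟨i, Or.inr (hS1 y i v ?_)⟩
        rw [hc A hA y hyJ v hv]
        exact h1
    · intro v hv y hy
      by_cases hcy : c y = c v
      · obtain ⟨i, h1 | h1⟩ := (hAt v hv).p v hv y (rel_same hy hcy)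
        · exact ⟨i, Or.inl (hS1 v i y h1)⟩
        · refine ⟨i, Or.inr (hS1 y i v ?_)⟩
          rw [hcy]
          exact h1
      · refine ⟨ρ (c v) (c y), Or.inl (hS2 v _ y ?_ ?_ hcy rfl)⟩
        · have h1 := (hAt v hv).lp v hv (rel_diff hy hcy).1
          rw [(rel_diff hy hcy).2] at h1
          exact h1
        · rw [hpp A hA v hv]; exact hy
    · intro v hv hp
      refine hS4 v _ ?_ ?_
      · have h1 := (hAt v hv).lp v hv (rel_none hp).1
        rw [(rel_none hp).2] at h1
        exact h1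
      · intro w hw
        rw [hpp A hA v hv, hp] at hw
        cases hw
    · intro i hi
      have huJ := hWA.tree.uJ
      refine hS4 A.u i ((hAt A.u huJ).frc i hi) ?_
      intro w hw hcw
      rw [hpp A hA A.u huJ] at hw
      exfalso
      have hout : Out A.p A.J A.u := by
        intro w' hw' hw'J
        rw [hw] at hw'
        cases hw'
        exact hcw (hc A hA w hw'J A.u huJ)
      have h1 := hWA.frc i hi 0 A.u (Ex.self huJ hout)
      rw [hw] at h1
      cases h1.1
    · intro hst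
      have huJ := hWA.tree.uJ
      obtain ⟨i, h1, h2⟩ := (hAt A.u huJ).free hst
      refine ⟨i, hS4 A.u i h1 ?_, ?_⟩
      · intro w hw hcw h3
        rw [hpp A hA A.u huJ] at hw
        have h4 := rel_diff (ρ := ρ) hw hcw
        exact h2 h4.1 (by rw [h3.symm]; exact h4.2.symm)
      · intro hp
        have h4 := rel_none (c := c) (ρ := ρ) hp
        rw [← h4.2]
        exact h2 h4.1

end Pool.Agent.RF
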