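import Pool.Agent.Lib.MP_5f065d_co.Rev

set_option autoImplicit false

/-!
Blocks, families of blocks, solutions, symbols (MP_5f065d_co, S09049).
-/

namespace Pool.Agent.RF

/-! ### Symbols -/

/-- class symbols -/
inductive Sym
  | S (i : Bool)
  | P (i : Bool) (r : ℕ)
  | Fr
  | Ce (r : ℕ)
  deriving DecidableEq

/-- digit of a symbol for the `i`-th forest -/
def dig (R : ℕ) (i : Bool) : Sym → ℕ
  | Sym.S j => if j = i then 0 else 2 * R + 4
  | Sym.P j r => if j = i then 1 + r else R + 3 + (R - r)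
  | Sym.Fr => R + 2
  | Sym.Ce r => 1 + r

/-- the rank inside a symbol is at most `R` -/
def Sym.le (R : ℕ) : Sym → Prop
  | Sym.S _ => True
  | Sym.P _ r => r ≤ R
  | Sym.Fr => True
  | Sym.Ce r => r ≤ R

def Sym.isCe : Sym → Prop
  | Sym.Ce _ => True
  | _ => False

/-- label of an edge from symbol `σ` (not a centre) to a different symbol `σ'` -/
def rule : Sym → Sym → Bool
  | Sym.S j, _ => !j
  | _, Sym.S j => j
  | Sym.P j r, Sym.P j' r' => if j = j' then (if r' < r then j else !j) else !j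
  | Sym.P j _, _ => !j
  | _, Sym.P j _ => j
  | _, _ => true

theorem dig_lt {R : ℕ} {i : Bool} {σ : Sym} (h : σ.le R) : dig R i σ < 2 * R + 5 := by
  cases σ <;> simp only [dig, Sym.le] at * <;> (try split_ifs) <;> omega

theorem rule_lt {R : ℕ} {σ σ' : Sym} (h : σ.le R) (h' : σ'.le R) (hne : σ ≠ σ')
    (hc : ¬ σ.isCe) : dig R (rule σ σ') σ' < dig R (rule σ σ') σ := by
  cases σ with
  | S j =>
    cases σ' with
    | S j' =>
      have : j' = !j := by
        cases j <;> cases j' <;> simp_all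
      subst this
      cases j <;> simp [dig, rule]
    | P j' r => cases j <;> cases j' <;> simp [dig, rule, Sym.le] at * <;> omega
    | Fr => cases j <;> simp [dig, rule] <;> omega
    | Ce r => cases j <;> simp [dig, rule, Sym.le] at * <;> omega
  | P j r =>
    cases σ' with
    | S j' => cases j <;> cases j' <;> simp [dig, rule, Sym.le] at * <;> omega
    | P j' r' =>
      cases j <;> cases j' <;> simp [dig, rule, Sym.le] at * <;> (try split_ifs) <;>
        (try simp) <;> omega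
    | Fr => cases j <;> simp [dig, rule, Sym.le] at * <;> omega
    | Ce r => cases j <;> simp [dig, rule, Sym.le] at * <;> omega
  | Fr =>
    cases σ' with
    | S j' => cases j' <;> simp [dig, rule]
    | P j' r' => cases j' <;> simp [dig, rule, Sym.le] at * <;> omega
    | Fr => exact absurd rfl hne
    | Ce r => simp [dig, rule, Sym.le] at * <;> omega
  | Ce r => exact absurd trivial hc

/-- label from `S i` to anything else is `!i` -/
theorem rule_S (i : Bool) (σ : Sym) : rule (Sym.S i) σ = !i := by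
  cases σ <;> rfl

/-! ### Blocks -/

/-- A block: a tree on the vertex set `J` (parent function `par`, root `z`), second out-edges `p`
(`p v = some w`: unlabelled edge to `w`, inside or outside `J`; `p v = none`: the second out-edge of
`v` leaves the current family and has the label `lp v`), the T-exit edge at `u`, which leaves the
family; `st = none`: free block, `st = some i`: the T-exit edge has label `i`. -/
structure Blk (V : Type) where
  J : Finset V
  par : V → Option V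
  z : V
  p : V → Option V
  lp : V → Bool
  u : V
  st : Option Bool

variable {V : Type}

/-- basic well-formedness: a tree of height `≤ h` -/
structure Blk.Tree (A : Blk V) (h : ℕ) : Prop where
  zJ : A.z ∈ A.J
  pz : A.par A.z = none
  tree : ∀ v ∈ A.J, ∃ n ≤ h, Pth A.par A.J n v A.z
  uJ : A.u ∈ A.J

/-- number of vertices of `J` whose `t0`-parent is not in `J` -/
noncomputable def tops (t0 : V → Option V) (J : Finset V) : ℕ :=
  {v : V | v ∈ J ∧ Out t0 J v}.ncard

/-- Well-formed block. `e` is the co-level: `t0 v = some w → e w = e v + 1`. -/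
structure Blk.WF (t0 : V → Option V) (e : V → ℕ) (h τ : ℕ) (A : Blk V) : Prop where
  tree : A.Tree h
  ex : ∀ v ∈ A.J, ∃ n x, Ex A.p A.J n v x
  frc : ∀ i, A.st = some i → ∀ n x, Ex A.p A.J n A.u x → A.p x = none ∧ A.lp x = !i
  zmin : ∀ v ∈ A.J, e v ≤ e A.z
  t0in : ∀ v ∈ A.J, ∀ w ∈ A.J, t0 v = some w → A.par v = some w ∨ A.par w = some v
  tops : tops t0 A.J ≤ τ

/-- family of blocks -/
structure Fam (t0 : V → Option V) (e : V → ℕ) (h τ : ℕ) (𝓑 : Set (Blk V)) : Prop where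
  wf : ∀ A ∈ 𝓑, A.WF t0 e h τ
  disj : ∀ A ∈ 𝓑, ∀ B ∈ 𝓑, ∀ v, v ∈ A.J → v ∈ B.J → A = B
  tgt : ∀ A ∈ 𝓑, ∀ v ∈ A.J, ∀ w, A.p v = some w → ∃ B ∈ 𝓑, w ∈ B.J

/-- the edge `v y` is covered by the selection `s` -/
def Cov (s : V → Bool → Option V) (v y : V) : Prop := ∃ i, s v i = some y ∨ s y i = some v

/-- the selection `s` (two labelled out-edges of each vertex, `none` = leaves the family)
satisfies the requirements of the block `A` -/
structure Sat (s : V → Bool → Option V) (A : Blk V) : Prop where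
  par : ∀ v ∈ A.J, ∀ y, A.par v = some y → Cov s v y
  p : ∀ v ∈ A.J, ∀ y, A.p v = some y → Cov s v y
  lp : ∀ v ∈ A.J, A.p v = none → s v (A.lp v) = none
  frc : ∀ i, A.st = some i → s A.u i = none
  free : A.st = none → ∃ i, s A.u i = none ∧ (A.p A.u = none → i ≠ A.lp A.u)

/-- solution of a family with ranks `≤ N` -/
def Sol (𝓑 : Set (Blk V)) (N : ℕ) : Prop :=
  ∃ (s : V → Bool → Option V) (φ : Bool → V → ℕ), (∀ i v, φ i v ≤ N) ∧
    (∀ A ∈ 𝓑, ∀ v ∈ A.J, ∀ i y, s v i = some y → (∃ B ∈ 𝓑, y ∈ B.J) ∧ φ i y < φ i v) ∧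
    ∀ A ∈ 𝓑, Sat s A

/-! ### The measure -/

/-- number of vertices of maximal co-level -/
def nq (e : V → ℕ) (J : Finset V) : ℕ := (J.filter (fun v => e v = J.sup e)).card

/-- distance of `u` and `z` in the tree -/
noncomputable def Blk.dist (A : Blk V) : ℕ := sInf {n | Pth A.par A.J n A.u A.z}

/-- the measure that decreases -/
noncomputable def Blk.meas (e : V → ℕ) (A : Blk V) : ℕ ×ₗ (ℕ ×ₗ ℕ∞) :=
  toLex (A.J.sup e, toLex (nq e A.J, if A.st = none then (A.dist : ℕ∞) else ⊤))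

/-! ### Ancestors -/

/-- ancestor relation: `a` is an ancestor of `b` (or equal) -/
def Anc (par : V → Option V) (J : Finset V) (a b : V) : Prop := ∃ n, Pth par J n b a

/-- `m` is the meet of `a` and `b` -/
def IsMeet (par : V → Option V) (J : Finset V) (a b m : V) : Prop :=
  Anc par J m a ∧ Anc par J m b ∧ ∀ c, Anc par J c a → Anc par J c b → Anc par J c m

theorem Anc.refl {par : V → Option V} {J : Finset V} {a : V} (h : a ∈ J) : Anc par J a a :=
  ⟨0, Pth.refl h⟩

theorem Anc.trans {par : V → Option V} {J : Finset V} {a b c : V} (h : Anc par J a b)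
    (h' : Anc par J b c) : Anc par J a c := by
  obtain ⟨n, hn⟩ := h
  obtain ⟨m, hm⟩ := h'
  exact ⟨m + n, hm.trans hn⟩

theorem Anc.mem_left {par : V → Option V} {J : Finset V} {a b : V} (h : Anc par J a b) : a ∈ J := by
  obtain ⟨n, hn⟩ := h
  exact hn.right_mem

theorem Anc.mem_right {par : V → Option V} {J : Finset V} {a b : V} (h : Anc par J a b) :
    b ∈ J := by
  obtain ⟨n, hn⟩ := h
  exact hn.left_mem

theorem Anc.total {par : V → Option V} {J : Finset V} {a b c : V} (h : Anc par J a c)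
    (h' : Anc par J b c) : Anc par J a b ∨ Anc par J b a := by
  obtain ⟨n, hn⟩ := h
  obtain ⟨m, hm⟩ := h'
  rcases le_total n m with hle | hle
  · obtain ⟨k, rfl⟩ := Nat.exists_eq_add_of_le hle
    exact Or.inr ⟨k, hn.split hm⟩
  · obtain ⟨k, rfl⟩ := Nat.exists_eq_add_of_le hle
    exact Or.inl ⟨k, hm.split hn⟩

theorem Anc.antisymm {par : V → Option V} {J : Finset V} {a b x : V} {n : ℕ}
    (hx : Ex par J n a x) (h : Anc par J a b) (h' : Anc par J b a) : a = b := by
  obtain ⟨k, hk⟩ := h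
  obtain ⟨m, hm⟩ := h'
  have := hx.no_cycle (hm.trans hk)
  have hm0 : m = 0 := by omega
  subst hm0
  exact hm.zero

/-- parent of a vertex below `k` -/
theorem Anc.of_parent {par : V → Option V} {J : Finset V} {a b k : V} (hb : b ∈ J)
    (h : par b = some k) (hak : Anc par J a k) : Anc par J a b := by
  obtain ⟨n, hn⟩ := hak
  exact ⟨n + 1, Pth.step hb h hn⟩

/-! ### Designated exits -/

/-- vertices whose exits must be labelled before the block can be decomposed -/
def Des (A : Blk V) : ℕ → V → Prop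
  | 0, y => Anc A.par A.J y A.u ∨ ∃ n x, Ex A.p A.J n A.u x ∧ Anc A.par A.J y x
  | k + 1, y => Des A k y ∨ ∃ y' n x, Des A k y' ∧ Ex A.p A.J n y' x ∧ Anc A.par A.J y x

/-- all designated exits (of depth `k`) are labelled -/
def Blk.Lab (A : Blk V) (k : ℕ) : Prop :=
  ∀ y n x, Des A k y → Ex A.p A.J n y x → A.p x = none

/-! ### Relabelling by classes -/

/-- relabel: edges to vertices of a different class become labelled exits (label given by `ρ`) -/
noncomputable def Blk.rel {κ : Type} (c : V → κ) (ρ : κ → κ → Bool) (A : Blk V) : Blk V :=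
  open Classical in
  { A with
    p := fun v => match A.p v with
      | none => none
      | some w => if c w = c v then some w else none
    lp := fun v => match A.p v with
      | none => A.lp v
      | some w => if c w = c v then A.lp v else ρ (c v) (c w) }

/-! ### Decomposition of one block -/

/-- A decomposition of the block `A` into centres `K` (with selections `nn k i`) and blocks `𝓛`.
`q`, `lq`: new second out-edges; `te C`: target of the T-exit edge of `C` if it is a centre. -/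
structure Dec (t0 : V → Option V) (A : Blk V) (h R : ℕ) (K : Finset V) (cls : V → Sym)
    (q : V → Option V) (lq : V → Bool) (nn : V → Bool → Option V) (𝓛 : Set (Blk V))
    (te : Blk V → Option V) : Prop where
  KJ : K ⊆ A.J
  Kce : ∀ k ∈ K, (cls k).isCe ∧ (cls k).le R
  sub : ∀ C ∈ 𝓛, ∀ v ∈ C.J, v ∈ A.J ∧ v ∉ K
  disj : ∀ C ∈ 𝓛, ∀ C' ∈ 𝓛, ∀ v, v ∈ C.J → v ∈ C'.J → C = C'
  cover : ∀ v ∈ A.J, v ∉ K → ∃ C ∈ 𝓛, v ∈ C.J
  fin : 𝓛.Finite
  cnt : {C : Blk V | C ∈ 𝓛 ∧ C.st ≠ none}.ncard ≤ h + 2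
  tree : ∀ C ∈ 𝓛, C.Tree h
  pq : ∀ C ∈ 𝓛, C.p = q ∧ C.lp = lq
  clsC : ∀ C ∈ 𝓛, ∀ v ∈ C.J, cls v = cls C.u
  clsle : ∀ C ∈ 𝓛, ¬ (cls C.u).isCe ∧ (cls C.u).le R
  clsS : ∀ C ∈ 𝓛, ∀ i, C.st = some i ↔ cls C.u = Sym.S i
  ex : ∀ v ∈ A.J, ∃ n x, Ex q A.J n v x
  tgt : ∀ v ∈ A.J, ∀ w, q v = some w → w ∈ A.J ∨ A.p v = some w
  spec : ∀ C ∈ 𝓛, ∀ i, C.st = some i → ∀ n x, Ex q A.J n C.u x →
    x ∈ K ∨ (q x = none ∧ lq x = !i)
  dist : ∀ C ∈ 𝓛, ∀ C' ∈ 𝓛, C.st = C'.st → C.st ≠ none → ∀ n n' x, Ex q A.J n C.u x →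
    Ex q A.J n' C'.u x → C = C'
  te1 : ∀ C ∈ 𝓛, ∀ k, te C = some k → C.st = none ∧ k ∈ K ∧
    ∀ i, dig R i (cls k) < dig R i (cls C.u)
  lab : ∀ C ∈ 𝓛, ∀ v ∈ C.J, A.p v = none →
    (q v = none ∧ lq v = A.lp v) ∨ (v = C.u ∧ C.st = some (A.lp v))
  labK : ∀ k ∈ K, A.p k = none → nn k (A.lp k) = none
  uK : A.u ∈ K → (∀ i, A.st = some i → nn A.u i = none) ∧
    (A.st = none → ∃ i, nn A.u i = none ∧ (A.p A.u = none → i ≠ A.lp A.u))
  uC : ∀ C ∈ 𝓛, A.u ∈ C.J → A.u = C.u ∧ C.st = A.st ∧ te C = none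
  n1 : ∀ k ∈ K, ∀ i y, nn k i = some y → y ∈ A.J ∧ dig R i (cls y) < dig R i (cls k)
  cov : ∀ v ∈ A.J, ∀ y, A.par v = some y ∨ A.p v = some y →
    (∃ C ∈ 𝓛, (v ∈ C.J ∧ (C.par v = some y ∨ q v = some y)) ∨
      (y ∈ C.J ∧ (C.par y = some v ∨ q y = some v)) ∨
      (v = C.u ∧ te C = some y) ∨ (y = C.u ∧ te C = some v)) ∨
    (v ∈ K ∧ ∃ i, nn v i = some y) ∨ (y ∈ K ∧ ∃ i, nn y i = some v)
  t0in : ∀ C ∈ 𝓛, ∀ v ∈ C.J, ∀ w ∈ C.J, t0 v = some w → C.par v = some w ∨ C.par w = some v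
  t0cr : ∀ C ∈ 𝓛, ∀ v ∈ C.J, ∀ w ∈ A.J, w ∉ K → t0 v = some w → w ∈ C.J
  tops : ∀ C ∈ 𝓛, RF.tops t0 C.J ≤ RF.tops t0 A.J + 2
  zz : ∀ C ∈ 𝓛, A.z ∈ C.J → C.z = A.z ∧ C.st = none ∧ (A.st = none → C.dist < A.dist)

end Pool.Agent.RF
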