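import Mathlib

set_option autoImplicit false

namespace Pool.Agent.RF

/-- A graph all of whose edges are parent-child pairs of a ranked parent function is a forest whose
components have diameter at most twice the rank. -/
theorem forest_of_parent {V : Type} [Fintype V] (f : V → Option V) (φ : V → ℕ) (N : ℕ)
    (hφ : ∀ a b, f a = some b → φ b < φ a) (hN : ∀ a, φ a ≤ N)
    (H : SimpleGraph V) (hH : ∀ a b, H.Adj a b → f a = some b ∨ f b = some a) :
    H.IsAcyclic ∧ ∀ u v, H.Reachable u v → H.dist u v ≤ 2 * N := by
  classical
  constructor
  · intro v p hp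
    obtain ⟨x, hx, hmax⟩ := p.support.toFinset.exists_max_image φ
      ⟨v, by simp⟩
    have hx' : x ∈ p.support := by simpa using hx
    have hmax' : ∀ y ∈ p.support, φ y ≤ φ x := fun y hy => hmax y (by simpa using hy)
    have hq : (p.rotate x hx').IsCycle := hp.rotate hx'
    have hsupp0 : ∀ y ∈ (p.rotate x hx').support, φ y ≤ φ x := by
      intro y hy
      exact hmax' y ((p.mem_support_rotate_iff x hx').mp hy)
    generalize p.rotate x hx' = q at hq hsupp0
    have hsupp : ∀ y ∈ q.support, φ y ≤ φ x := hsupp0
    have hnn : ¬ q.Nil := hq.not_nil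
    have a1 : H.Adj x q.snd := q.adj_snd hnn
    have a2 : H.Adj q.penultimate x := q.adj_penultimate hnn
    have m1 : q.snd ∈ q.support := q.getVert_mem_support _
    have m2 : q.penultimate ∈ q.support := q.getVert_mem_support _
    have e1 : f x = some q.snd := by
      rcases hH _ _ a1 with h | h
      · exact h
      · exact absurd (hφ _ _ h) (not_lt.mpr (hsupp _ m1))
    have e2 : f x = some q.penultimate := by
      rcases hH _ _ a2 with h | h
      · exact absurd (hφ _ _ h) (not_lt.mpr (hsupp _ m2))
      · exact h
    have h3 : q.snd = q.penultimate := by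
      rw [e1] at e2
      exact Option.some.inj e2
    exact hq.snd_ne_penultimate h3
  · -- the parent inside `H`
    let g : V → V := fun u => if h : ∃ b, f u = some b ∧ H.Adj u b then h.choose else u
    have g1 : ∀ u b, f u = some b → H.Adj u b → g u = b := by
      intro u b h1 h2
      have h : ∃ b, f u = some b ∧ H.Adj u b := ⟨b, h1, h2⟩
      have h3 : g u = h.choose := dif_pos h
      have h4 : f u = some h.choose := h.choose_spec.1
      rw [h3]
      exact Option.some.inj (h4.symm.trans h1)
    have g2 : ∀ u, g u = u ∨ (φ (g u) < φ u ∧ H.Adj u (g u)) := by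
      intro u
      by_cases h : ∃ b, f u = some b ∧ H.Adj u b
      · obtain ⟨b, h1, h2⟩ := h
        right
        rw [g1 u b h1 h2]
        exact ⟨hφ _ _ h1, h2⟩
      · left
        exact dif_neg h
    have g3 : ∀ k u, ∃ w : H.Walk u (g^[k] u), w.length ≤ k := by
      intro k
      induction k with
      | zero => intro u; exact ⟨SimpleGraph.Walk.nil, by simp⟩
      | succ k ih =>
        intro u
        obtain ⟨w, hw⟩ := ih (g u)
        rw [Function.iterate_succ_apply]
        rcases g2 u with h | ⟨-, h⟩
        · have hw' : ∃ w : H.Walk (g u) (g^[k] (g u)), w.length ≤ k := ⟨w, hw⟩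
          have : ∃ w : H.Walk u (g^[k] (g u)), w.length ≤ k := by
            obtain ⟨w', h'⟩ := hw'
            exact ⟨w'.copy h rfl, by simpa using h'⟩
          obtain ⟨w', h'⟩ := this
          exact ⟨w', by omega⟩
        · exact ⟨SimpleGraph.Walk.cons h w, by simp; omega⟩
    have g4 : ∀ k u, g (g^[k] u) = g^[k] u ∨ φ (g^[k] u) + k ≤ φ u := by
      intro k
      induction k with
      | zero => intro u; right; simp
      | succ k ih =>
        intro u
        rw [Function.iterate_succ_apply']
        rcases ih u with h | h
        · left; rw [h, h]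
        · rcases g2 (g^[k] u) with h' | ⟨h', -⟩
          · left; rw [h', h']
          · right; omega
    have g5 : ∀ u, g (g^[N] u) = g^[N] u := by
      intro u
      rcases g4 N u with h | h
      · exact h
      · rcases g2 (g^[N] u) with h' | ⟨h', -⟩
        · exact h'
        · have := hN u
          omega
    have g6 : ∀ u v, H.Adj u v → g^[N] u = g^[N] v := by
      have key : ∀ u v, H.Adj u v → f u = some v → g^[N] u = g^[N] v := by
        intro u v h1 h2
        have h3 := g1 u v h2 h1
        rw [← h3, ← Function.iterate_succ_apply, Function.iterate_succ_apply', g5]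
      intro u v h
      rcases hH u v h with h' | h'
      · exact key u v h h'
      · exact (key v u h.symm h').symm
    have g7 : ∀ u v (w : H.Walk u v), g^[N] u = g^[N] v := by
      intro u v w
      induction w with
      | nil => rfl
      | cons h _ ih => rw [g6 _ _ h, ih]
    rintro u v ⟨w⟩
    obtain ⟨w1, h1⟩ := g3 N u
    obtain ⟨w2, h2⟩ := g3 N v
    have h3 := g7 u v w
    have h4 : H.dist u v ≤ (w1.append ((w2.copy rfl h3.symm).reverse)).length :=
      SimpleGraph.dist_le _
    refine le_trans h4 ?_
    simp only [SimpleGraph.Walk.length_append, SimpleGraph.Walk.length_reverse,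
      SimpleGraph.Walk.length_copy]
    omega

end Pool.Agent.RF
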