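import Mathlib

set_option autoImplicit false

namespace Pool.Agent.RF

/-- Every finite forest has a parent function, with depths equal to the distance to the root. -/
theorem forest_parent {V : Type} [Fintype V] (F : SimpleGraph V) (hF : F.IsAcyclic) :
    ∃ (f : V → Option V) (dep : V → ℕ),
      (∀ a b, F.Adj a b ↔ f a = some b ∨ f b = some a) ∧
      (∀ a b, f a = some b → dep a = dep b + 1) ∧
      (∀ a, f a = none → dep a = 0) ∧
      (∀ a, ∃ r, F.Reachable a r ∧ dep a = F.dist a r) := by
  classical
  -- the root of the component of `a`
  let rt : V → V := fun a => (F.connectedComponentMk a).out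
  have hrt : ∀ a, F.Reachable a (rt a) := by
    intro a
    apply SimpleGraph.ConnectedComponent.exact
    exact ((F.connectedComponentMk a).out_eq).symm
  have hrt2 : ∀ a b, F.Adj a b → rt a = rt b := by
    intro a b h
    have : F.connectedComponentMk a = F.connectedComponentMk b :=
      SimpleGraph.ConnectedComponent.sound h.reachable
    change (F.connectedComponentMk a).out = (F.connectedComponentMk b).out
    rw [this]
  -- the unique path to the root
  choose p hp using fun a => (hrt a).exists_isPath
  have huniq : ∀ (a b : V) (w w' : F.Walk a b), w.IsPath → w'.IsPath → w = w' := by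
    intro a b w w' h h'
    have := (hF.subsingleton_path a b).elim ⟨w, h⟩ ⟨w', h'⟩
    exact congrArg Subtype.val this
  let dep : V → ℕ := fun a => F.dist a (rt a)
  let f : V → Option V := fun a => if a = rt a then none else some (p a).snd
  have hlen : ∀ a (w : F.Walk a (rt a)), w.IsPath → w.length = dep a := by
    intro a w hw
    obtain ⟨w', hw'1, hw'2⟩ := (hrt a).exists_path_of_dist
    rw [huniq _ _ w w' hw hw'1]
    exact hw'2
  have hsome : ∀ a b, f a = some b ↔ a ≠ rt a ∧ (p a).snd = b := by
    intro a b
    by_cases h : a = rt a
    · constructor
      · intro h1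
        have : f a = none := if_pos h
        rw [this] at h1
        exact absurd h1 (by simp)
      · rintro ⟨h1, -⟩
        exact absurd h h1
    · have h1 : f a = some (p a).snd := if_neg h
      rw [h1]
      simp [h]
  have hdep : ∀ a b, f a = some b → F.Adj a b ∧ dep a = dep b + 1 := by
    intro a b h
    obtain ⟨h1, h2⟩ := (hsome a b).mp h
    have hnn : ¬ (p a).Nil := SimpleGraph.Walk.not_nil_of_ne h1
    have h3 : F.Adj a b := h2 ▸ (p a).adj_snd hnn
    refine ⟨h3, ?_⟩
    have h4 : ((p a).tail).IsPath := (hp a).tail
    have h5 : rt a = rt b := hrt2 a b h3
    have h6 : ((p a).tail.copy h2 h5).IsPath := by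
      rw [SimpleGraph.Walk.isPath_copy]; exact h4
    have h7 := hlen b _ h6
    rw [SimpleGraph.Walk.length_copy] at h7
    have h8 := hlen a _ (hp a)
    have h9 := SimpleGraph.Walk.length_tail_add_one hnn
    omega
  refine ⟨f, dep, ?_, fun a b h => (hdep a b h).2, ?_, fun a => ⟨rt a, hrt a, rfl⟩⟩
  · intro a b
    constructor
    · intro h
      have h5 : rt a = rt b := hrt2 a b h
      by_cases hb : b ∈ (p a).support
      · left
        rw [hsome]
        have hne : a ≠ rt a := by
          intro hra
          have h1 : (p a).length = 0 := by
            rw [hlen a _ (hp a)]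
            change F.dist a (rt a) = 0
            rw [← hra]; simp
          have h2 : (p a).Nil := by
            exact SimpleGraph.Walk.length_eq_zero_iff.mp h1
          rw [SimpleGraph.Walk.nil_iff_support_eq] at h2
          rw [h2] at hb
          simp at hb
          exact h.ne hb.symm
        refine ⟨hne, ?_⟩
        -- the initial part of the path up to `b` is the edge
        have h1 : ((p a).takeUntil b hb).IsPath := (hp a).takeUntil hb
        have h2 : (SimpleGraph.Walk.cons h SimpleGraph.Walk.nil : F.Walk a b).IsPath := by
          simp [h.ne]
        have h3 := huniq _ _ _ _ h1 h2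
        have h4 : (p a) = (SimpleGraph.Walk.cons h SimpleGraph.Walk.nil).append
            ((p a).dropUntil b hb) := by
          rw [← h3]; simp
        rw [h4]
        simp
      · right
        rw [hsome]
        have h1 : (SimpleGraph.Walk.cons h.symm (p a)).IsPath := (hp a).cons hb
        have h2 : p b = (SimpleGraph.Walk.cons h.symm (p a)).copy rfl h5 := by
          apply huniq
          · exact hp b
          · rw [SimpleGraph.Walk.isPath_copy]; exact h1
        constructor
        · intro hb'
          have h3 : (p b).length = 0 := by
            rw [hlen b _ (hp b)]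
            change F.dist b (rt b) = 0
            rw [← hb']; simp
          rw [h2] at h3
          simp at h3
        · rw [h2]
          simp
    · rintro (h | h)
      · exact (hdep a b h).1
      · exact (hdep b a h).1.symm
  · intro a h
    by_cases h1 : a = rt a
    · change F.dist a (rt a) = 0
      rw [← h1]; simp
    · have : f a = some (p a).snd := if_neg h1
      rw [this] at h
      exact absurd h (by simp)

end Pool.Agent.RF
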