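import Pool.Agent.Lib.MP_5f065d_co.Statements

set_option autoImplicit false

/-!
The decomposition step for a family (MP_5f065d_co, S09049).
-/

namespace Pool.Agent.RF

variable {V : Type}

/-! ### Relabelled blocks -/

theorem rel_J {κ : Type} (c : V → κ) (ρ : κ → κ → Bool) (A : Blk V) : (A.rel c ρ).J = A.J := rfl
theorem rel_par {κ : Type} (c : V → κ) (ρ : κ → κ → Bool) (A : Blk V) :
    (A.rel c ρ).par = A.par := rfl
theorem rel_z {κ : Type} (c : V → κ) (ρ : κ → κ → Bool) (A : Blk V) : (A.rel c ρ).z = A.z := rfl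
theorem rel_u {κ : Type} (c : V → κ) (ρ : κ → κ → Bool) (A : Blk V) : (A.rel c ρ).u = A.u := rfl
theorem rel_st {κ : Type} (c : V → κ) (ρ : κ → κ → Bool) (A : Blk V) : (A.rel c ρ).st = A.st := rfl

theorem rel_p_none {κ : Type} (c : V → κ) (ρ : κ → κ → Bool) (A : Blk V) {v : V}
    (h : A.p v = none) : (A.rel c ρ).p v = none ∧ (A.rel c ρ).lp v = A.lp v := by
  simp [Blk.rel, h]

theorem rel_p_some {κ : Type} (c : V → κ) (ρ : κ → κ → Bool) (A : Blk V) {v w : V} :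
    (A.rel c ρ).p v = some w ↔ A.p v = some w ∧ c w = c v := by
  classical
  cases hp : A.p v with
  | none => simp [Blk.rel, hp]
  | some z =>
    by_cases hc : c z = c v
    · simp only [Blk.rel, hp, hc, if_true]
      constructor
      · intro h; cases h; exact ⟨rfl, hc⟩
      · rintro ⟨h, _⟩; exact h
    · simp only [Blk.rel, hp, hc, if_false]
      constructor
      · intro h; cases h
      · rintro ⟨h, h'⟩; cases h; exact absurd h' hc

theorem rel_p_cut {κ : Type} (c : V → κ) (ρ : κ → κ → Bool) (A : Blk V) {v w : V}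
    (h : A.p v = some w) (hc : c w ≠ c v) :
    (A.rel c ρ).p v = none ∧ (A.rel c ρ).lp v = ρ (c v) (c w) := by
  simp [Blk.rel, h, hc]

/-- relabelled second out-edges -/
noncomputable def relP {κ : Type} (c : V → κ) (q : V → Option V) : V → Option V :=
  open Classical in
  fun v => match q v with
      | none => none
      | some w => if c w = c v then some w else none

/-- relabelled exit labels -/
noncomputable def relL {κ : Type} (c : V → κ) (ρ : κ → κ → Bool) (q : V → Option V)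
    (lq : V → Bool) : V → Bool :=
  open Classical in
  fun v => match q v with
      | none => lq v
      | some w => if c w = c v then lq v else ρ (c v) (c w)

theorem rel_p_eq {κ : Type} (c : V → κ) (ρ : κ → κ → Bool) (A : Blk V) :
    (A.rel c ρ).p = relP c A.p := rfl

theorem rel_lp_eq {κ : Type} (c : V → κ) (ρ : κ → κ → Bool) (A : Blk V) :
    (A.rel c ρ).lp = relL c ρ A.p A.lp := rfl

theorem relP_none {κ : Type} (c : V → κ) (ρ : κ → κ → Bool) (q : V → Option V) (lq : V → Bool)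
    {v : V} (h : q v = none) : relP c q v = none ∧ relL c ρ q lq v = lq v := by
  simp [relP, relL, h]

theorem relP_some {κ : Type} (c : V → κ) (q : V → Option V) {v w : V} :
    relP c q v = some w ↔ q v = some w ∧ c w = c v := by
  cases hp : q v with
  | none => simp [relP, hp]
  | some z =>
    by_cases hc : c z = c v
    · simp only [relP, hp, hc, if_true]
      constructor
      · intro h; cases h; exact ⟨rfl, hc⟩
      · rintro ⟨h, _⟩; exact h
    · simp only [relP, hp, hc, if_false]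
      constructor
      · intro h; cases h
      · rintro ⟨h, h'⟩; cases h; exact absurd h' hc

theorem relP_cut {κ : Type} (c : V → κ) (ρ : κ → κ → Bool) (q : V → Option V) (lq : V → Bool)
    {v w : V} (h : q v = some w) (hc : c w ≠ c v) :
    relP c q v = none ∧ relL c ρ q lq v = ρ (c v) (c w) := by
  simp [relP, relL, h, hc]

/-- walks inside a set on which the class is constant are not affected by relabelling -/
theorem Ex_relP {κ : Type} (c : V → κ) (q : V → Option V) {G : Finset V} {σ : κ}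
    (hG : ∀ v ∈ G, c v = σ) {n : ℕ} {v x : V} : Ex (relP c q) G n v x ↔ Ex q G n v x := by
  constructor
  · rintro ⟨h1, h2⟩
    refine ⟨?_, ?_⟩
    · clear h2
      induction h1 with
      | refl hv => exact Pth.refl hv
      | step h1 h2 _ ih => exact Pth.step h1 ((relP_some c q).1 h2).1 ih
    · intro w hw hwG
      refine h2 w ((relP_some c q).2 ⟨hw, ?_⟩) hwG
      rw [hG w hwG, hG x h1.right_mem]
  · rintro ⟨h1, h2⟩
    refine ⟨?_, ?_⟩
    · clear h2
      induction h1 with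
      | refl hv => exact Pth.refl hv
      | @step n v w x h1 h2 h3 ih =>
        refine Pth.step h1 ((relP_some c q).2 ⟨h2, ?_⟩) ih
        rw [hG w h3.left_mem, hG v h1]
    · intro w hw
      exact h2 w ((relP_some c q).1 hw).1

theorem Tree.mono {A : Blk V} {h h' : ℕ} (hA : A.Tree h) (hh : h ≤ h') : A.Tree h' :=
  ⟨hA.zJ, hA.pz, fun v hv => by
    obtain ⟨n, hn, hp⟩ := hA.tree v hv
    exact ⟨n, hn.trans hh, hp⟩, hA.uJ⟩

theorem WF.mono {t0 : V → Option V} {e : V → ℕ} {A : Blk V} {h h' τ τ' : ℕ}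
    (hA : A.WF t0 e h τ) (hh : h ≤ h') (hτ : τ ≤ τ') : A.WF t0 e h' τ' :=
  ⟨Tree.mono hA.tree hh, hA.ex, hA.frc, hA.zmin, hA.t0in, hA.tops.trans hτ⟩

theorem Tree.par_mem {A : Blk V} {h : ℕ} (hA : A.Tree h) {v y : V} (hv : v ∈ A.J)
    (hy : A.par v = some y) : y ∈ A.J := by
  obtain ⟨n, hn, hp⟩ := hA.tree v hv
  cases n with
  | zero =>
    have := hp.zero
    subst this
    rw [hA.pz] at hy; cases hy
  | succ n =>
    obtain ⟨w, hw, hwJ, _⟩ := hp.succ_inv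
    rw [hy] at hw; cases hw; exact hwJ

/-! ### The measure decreases -/

theorem sup_eq_of_max {e : V → ℕ} {J : Finset V} {z : V} (hz : z ∈ J)
    (hmax : ∀ v ∈ J, e v ≤ e z) : J.sup e = e z :=
  le_antisymm (Finset.sup_le hmax) (Finset.le_sup hz)

theorem meas_lt_out {e : V → ℕ} {A C : Blk V} (hC : ∀ v ∈ C.J, v ∈ A.J) (hz : A.z ∈ A.J)
    (hmax : ∀ v ∈ A.J, e v ≤ e A.z) (hzC : A.z ∉ C.J) : C.meas e < A.meas e := by
  classical
  have hA := sup_eq_of_max hz hmax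
  have hle : C.J.sup e ≤ e A.z := Finset.sup_le (fun v hv => hmax v (hC v hv))
  rw [Blk.meas, Blk.meas, Prod.Lex.toLex_lt_toLex]
  rcases hle.lt_or_eq with h1 | h1
  · left; simpa [hA] using h1
  · right
    refine ⟨by simp [hA, h1], ?_⟩
    rw [Prod.Lex.toLex_lt_toLex]
    left
    simp only [nq]
    apply Finset.card_lt_card
    rw [hA, h1]
    refine ⟨?_, ?_⟩
    · intro v hv
      rw [Finset.mem_filter] at hv ⊢
      exact ⟨hC v hv.1, hv.2⟩
    · intro hsub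
      have := hsub (Finset.mem_filter.2 ⟨hz, rfl⟩)
      exact hzC (Finset.mem_filter.1 this).1

theorem meas_lt_in {e : V → ℕ} {A C : Blk V} (hC : ∀ v ∈ C.J, v ∈ A.J) (hz : A.z ∈ A.J)
    (hmax : ∀ v ∈ A.J, e v ≤ e A.z) (hzC : A.z ∈ C.J) (hst : C.st = none)
    (hd : A.st = none → C.dist < A.dist) : C.meas e < A.meas e := by
  classical
  have hA := sup_eq_of_max hz hmax
  have hC' : C.J.sup e = e A.z := sup_eq_of_max hzC (fun v hv => hmax v (hC v hv))
  rw [Blk.meas, Blk.meas, Prod.Lex.toLex_lt_toLex]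
  right
  refine ⟨by simp [hA, hC'], ?_⟩
  rw [Prod.Lex.toLex_lt_toLex]
  have hle : nq e C.J ≤ nq e A.J := by
    simp only [nq]
    apply Finset.card_le_card
    rw [hA, hC']
    intro v hv
    rw [Finset.mem_filter] at hv ⊢
    exact ⟨hC v hv.1, hv.2⟩
  rcases hle.lt_or_eq with h1 | h1
  · left; exact h1
  · right
    refine ⟨h1, ?_⟩
    simp only [hst, if_true]
    split_ifs with h2
    · exact_mod_cast hd h2
    · exact ENat.natCast_lt_top _

/-- a family of blocks together with decompositions -/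
structure DFam (t0 : V → Option V) (e : V → ℕ) (h τ R : ℕ) {ι : Type} (Bk : ι → Blk V)
    (K : ι → Finset V) (cls : ι → V → Sym) (q : ι → V → Option V) (lq : ι → V → Bool)
    (nn : ι → V → Bool → Option V) (𝓛 : ι → Set (Blk V)) (te : ι → Blk V → Option V) : Prop where
  wf : ∀ i, (Bk i).WF t0 e h τ
  dec : ∀ i, Dec t0 (Bk i) h R (K i) (cls i) (q i) (lq i) (nn i) (𝓛 i) (te i)
  disj : ∀ i j v, v ∈ (Bk i).J → v ∈ (Bk j).J → i = j
  tgt : ∀ i, ∀ v ∈ (Bk i).J, ∀ w, (Bk i).p v = some w → ∃ j, w ∈ (Bk j).J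

section
variable {t0 : V → Option V} {e : V → ℕ} {h τ R : ℕ} {ι : Type} {Bk : ι → Blk V}
    {K : ι → Finset V} {cls : ι → V → Sym} {q : ι → V → Option V} {lq : ι → V → Bool}
    {nn : ι → V → Bool → Option V} {𝓛 : ι → Set (Blk V)} {te : ι → Blk V → Option V}
    (H : DFam t0 e h τ R Bk K cls q lq nn 𝓛 te)
include H

theorem DFam.glob {β : Type*} (f : ι → V → β) (d : β) :
    ∃ g : V → β, (∀ i, ∀ v ∈ (Bk i).J, g v = f i v) ∧ ∀ v, (∀ i, v ∉ (Bk i).J) → g v = d := by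
  classical
  refine ⟨fun v => if h : ∃ i, v ∈ (Bk i).J then f h.choose v else d, ?_, ?_⟩
  · intro i v hv
    have hex : ∃ i, v ∈ (Bk i).J := ⟨i, hv⟩
    have : hex.choose = i := H.disj _ _ v hex.choose_spec hv
    simp only [hex, dif_pos, this]
  · intro v hv
    have : ¬ ∃ i, v ∈ (Bk i).J := by
      rintro ⟨i, hi⟩; exact hv i hi
    simp only [this, dif_neg, not_false_eq_true]

/-- target of the T-exit edges -/
theorem DFam.globte : ∃ g : V → Option V, (∀ i, ∀ C ∈ 𝓛 i, g C.u = te i C) ∧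
    ∀ v, (∀ i, ∀ C ∈ 𝓛 i, v ≠ C.u) → g v = none := by
  classical
  refine ⟨fun v => if h : ∃ p : ι × Blk V, p.2 ∈ 𝓛 p.1 ∧ v = p.2.u then
    te h.choose.1 h.choose.2 else none, ?_, ?_⟩
  · intro i C hC
    have hex : ∃ p : ι × Blk V, p.2 ∈ 𝓛 p.1 ∧ C.u = p.2.u := ⟨(i, C), hC, rfl⟩
    have hs := hex.choose_spec
    have h1 : C.u ∈ C.J := ((H.dec i).tree C hC).uJ
    have h2 : C.u ∈ (Bk i).J := ((H.dec i).sub C hC _ h1).1
    have h3 : C.u ∈ hex.choose.2.J := by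
      have h3' := ((H.dec _).tree _ hs.1).uJ
      rwa [← hs.2] at h3'
    have h4 : C.u ∈ (Bk hex.choose.1).J := ((H.dec _).sub _ hs.1 _ h3).1
    have h5 : hex.choose.1 = i := H.disj _ _ _ h4 h2
    have hs1 := hs.1
    rw [h5] at hs1
    have h6 : hex.choose.2 = C := (H.dec i).disj _ hs1 C hC C.u h3 h1
    simp only [hex, dif_pos, h5, h6]
  · intro v hv
    have : ¬ ∃ p : ι × Blk V, p.2 ∈ 𝓛 p.1 ∧ v = p.2.u := by
      rintro ⟨p, hp1, hp2⟩; exact hv _ _ hp1 hp2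
    simp only [this, dif_neg, not_false_eq_true]

theorem DFam.memC {i : ι} {v : V} (hv : v ∈ (Bk i).J) (hK : v ∉ K i) :
    ∃ C ∈ 𝓛 i, v ∈ C.J := (H.dec i).cover v hv hK

/-- facts about a selection satisfying the relabelled block -/
theorem DFam.sat_facts {cls' : V → Sym} {q' : V → Option V} {lq' : V → Bool}
    (hq : ∀ i, ∀ v ∈ (Bk i).J, q' v = q i v) (hlq : ∀ i, ∀ v ∈ (Bk i).J, lq' v = lq i v)
    {s : V → Bool → Option V} {i : ι} {C : Blk V} (hC : C ∈ 𝓛 i)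
    (hs : Sat s (C.rel cls' rule)) :
    (∀ v ∈ C.J, q' v = none → s v (lq' v) = none) ∧
    (∀ v ∈ C.J, ∀ w, q' v = some w → cls' w ≠ cls' v → s v (rule (cls' v) (cls' w)) = none) ∧
    (∀ v ∈ C.J, ∀ w, q' v = some w → cls' w = cls' v → Cov s v w) ∧
    (∀ b, C.st = some b → s C.u b = none) ∧
    (C.st = none → ∃ c, s C.u c = none ∧ (q' C.u = none → c ≠ lq' C.u) ∧
      ∀ w, q' C.u = some w → cls' w ≠ cls' C.u → c ≠ rule (cls' C.u) (cls' w)) ∧
    (∀ v ∈ C.J, ∀ y, C.par v = some y → Cov s v y) := by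
  have hJ : ∀ v ∈ C.J, v ∈ (Bk i).J := fun v hv => ((H.dec i).sub C hC v hv).1
  obtain ⟨hp, hl⟩ := (H.dec i).pq C hC
  have hpn : ∀ v ∈ C.J, q' v = none → (C.rel cls' rule).p v = none ∧
      (C.rel cls' rule).lp v = lq' v := by
    intro v hv hn
    have h1 : C.p v = none := by rw [hp, ← hq i v (hJ v hv)]; exact hn
    obtain ⟨h2, h3⟩ := rel_p_none cls' rule C h1
    refine ⟨h2, ?_⟩
    rw [h3, hl, hlq i v (hJ v hv)]
  have hps : ∀ v ∈ C.J, ∀ w, q' v = some w → C.p v = some w := by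
    intro v hv w hw
    rw [hp, ← hq i v (hJ v hv)]; exact hw
  have hu : C.u ∈ C.J := ((H.dec i).tree C hC).uJ
  refine ⟨?_, ?_, ?_, ?_, ?_, ?_⟩
  · intro v hv hn
    obtain ⟨h1, h2⟩ := hpn v hv hn
    have := hs.lp v hv h1
    rwa [h2] at this
  · intro v hv w hw hne
    obtain ⟨h1, h2⟩ := rel_p_cut cls' rule C (hps v hv w hw) hne
    have := hs.lp v hv h1
    rwa [h2] at this
  · intro v hv w hw he
    exact hs.p v hv w ((rel_p_some cls' rule C).2 ⟨hps v hv w hw, he⟩)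
  · intro b hb
    exact hs.frc b hb
  · intro hn
    obtain ⟨c, hc1, hc2⟩ := hs.free hn
    refine ⟨c, hc1, ?_, ?_⟩
    · intro hn'
      obtain ⟨h1, h2⟩ := hpn _ hu hn'
      have := hc2 h1
      rwa [rel_u, h2] at this
    · intro w hw hne
      obtain ⟨h1, h2⟩ := rel_p_cut cls' rule C (hps _ hu w hw) hne
      have := hc2 h1
      rwa [rel_u, h2] at this
  · intro v hv y hy
    exact hs.par v hv y hy

theorem DFam.assemble (N : ℕ) {cls' : V → Sym} {q' : V → Option V} {lq' : V → Bool}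
    {nn' : V → Bool → Option V} {te' : V → Option V}
    (hcls : ∀ i, ∀ v ∈ (Bk i).J, cls' v = cls i v) (hcls0 : ∀ v, (cls' v).le R)
    (hq : ∀ i, ∀ v ∈ (Bk i).J, q' v = q i v) (hlq : ∀ i, ∀ v ∈ (Bk i).J, lq' v = lq i v)
    (hnn : ∀ i, ∀ v ∈ (Bk i).J, nn' v = nn i v)
    (hte : ∀ i, ∀ C ∈ 𝓛 i, te' C.u = te i C)
    (hte0 : ∀ v, (∀ i, ∀ C ∈ 𝓛 i, v ≠ C.u) → te' v = none)
    (hsol : ∀ σ : Sym, ∃ (s : V → Bool → Option V) (φ : Bool → V → ℕ), ¬ σ.isCe →
      (∀ i v, φ i v ≤ N) ∧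
      (∀ i, ∀ v ∈ (Bk i).J, cls' v = σ → ∀ b y, s v b = some y →
        (∃ j, y ∈ (Bk j).J) ∧ cls' y = σ ∧ φ b y < φ b v) ∧
      ∀ i, ∀ C ∈ 𝓛 i, cls i C.u = σ → Sat s (C.rel cls' rule)) :
    ∃ (s : V → Bool → Option V) (φ : Bool → V → ℕ), (∀ i v, φ i v ≤ (2 * R + 5) * (N + 1)) ∧
      (∀ i, ∀ v ∈ (Bk i).J, ∀ b y, s v b = some y → (∃ j, y ∈ (Bk j).J) ∧ φ b y < φ b v) ∧
      ∀ i, Sat s (Bk i) := by
  classical
  choose s φ hs using hsol
  -- the exit labels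
  have hcex : ∃ c' : V → Bool, ∀ v, (∃ c, (s (cls' v) v c = none ∧ (q' v = none → c ≠ lq' v) ∧
      ∀ w, q' v = some w → cls' w ≠ cls' v → c ≠ rule (cls' v) (cls' w))) →
      (s (cls' v) v (c' v) = none ∧ (q' v = none → c' v ≠ lq' v) ∧
      ∀ w, q' v = some w → cls' w ≠ cls' v → c' v ≠ rule (cls' v) (cls' w)) := by
    refine ⟨fun v => if h : ∃ c, (s (cls' v) v c = none ∧ (q' v = none → c ≠ lq' v) ∧
      ∀ w, q' v = some w → cls' w ≠ cls' v → c ≠ rule (cls' v) (cls' w)) then h.choose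
      else true, ?_⟩
    intro v hv
    simp only [hv, dif_pos]
    exact hv.choose_spec
  obtain ⟨c', hc'⟩ := hcex
  let sN : V → Bool → Option V := fun v b =>
    if (cls' v).isCe then nn' v b
    else if (s (cls' v) v b).isSome then s (cls' v) v b
    else if (∃ w, q' v = some w ∧ cls' w ≠ cls' v ∧ rule (cls' v) (cls' w) = b) then q' v
    else if c' v = b then te' v else none
  let φN : Bool → V → ℕ := fun b v =>
    if (cls' v).isCe then dig R b (cls' v) * (N + 1)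
    else dig R b (cls' v) * (N + 1) + φ (cls' v) b v
  -- structure facts
  have hCeK : ∀ i, ∀ v ∈ (Bk i).J, (cls' v).isCe → v ∈ K i := by
    intro i v hv hce
    by_contra hK
    obtain ⟨C, hC, hvC⟩ := (H.dec i).cover v hv hK
    have h1 := (H.dec i).clsC C hC v hvC
    have h2 := ((H.dec i).clsle C hC).1
    rw [← h1, ← hcls i v hv] at h2
    exact h2 hce
  have hKCe : ∀ i, ∀ v ∈ K i, v ∈ (Bk i).J ∧ (cls' v).isCe := by
    intro i v hv
    have hJ := (H.dec i).KJ hv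
    refine ⟨hJ, ?_⟩
    rw [hcls i v hJ]
    exact ((H.dec i).Kce v hv).1
  have hCJ : ∀ i, ∀ C ∈ 𝓛 i, ∀ v ∈ C.J, v ∈ (Bk i).J ∧ cls' v = cls i C.u ∧ ¬ (cls' v).isCe := by
    intro i C hC v hv
    have hJ := ((H.dec i).sub C hC v hv).1
    have h1 := (H.dec i).clsC C hC v hv
    have h2 := ((H.dec i).clsle C hC).1
    refine ⟨hJ, ?_, ?_⟩
    · rw [hcls i v hJ, h1]
    · rw [hcls i v hJ, h1]; exact h2
  have huJ : ∀ i, ∀ C ∈ 𝓛 i, C.u ∈ C.J := fun i C hC => ((H.dec i).tree C hC).uJ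
  -- facts from the sub-solutions
  have hfacts : ∀ i, ∀ C ∈ 𝓛 i, ∀ σ, σ = cls i C.u →
      (∀ v ∈ C.J, q' v = none → s σ v (lq' v) = none) ∧
      (∀ v ∈ C.J, ∀ w, q' v = some w → cls' w ≠ cls' v → s σ v (rule (cls' v) (cls' w)) = none) ∧
      (∀ v ∈ C.J, ∀ w, q' v = some w → cls' w = cls' v → Cov (s σ) v w) ∧
      (∀ b, C.st = some b → s σ C.u b = none) ∧
      (C.st = none → ∃ c, s σ C.u c = none ∧ (q' C.u = none → c ≠ lq' C.u) ∧
        ∀ w, q' C.u = some w → cls' w ≠ cls' C.u → c ≠ rule (cls' C.u) (cls' w)) ∧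
      (∀ v ∈ C.J, ∀ y, C.par v = some y → Cov (s σ) v y) := by
    intro i C hC σ hσ
    have hnce : ¬ σ.isCe := by rw [hσ]; exact ((H.dec i).clsle C hC).1
    exact H.sat_facts hq hlq hC ((hs σ hnce).2.2 i C hC hσ.symm)
  -- evaluation of `sN`
  have e_ce : ∀ v b, (cls' v).isCe → sN v b = nn' v b := by
    intro v b hce; simp only [sN, hce, if_true]
  have e_s : ∀ v b y, ¬ (cls' v).isCe → s (cls' v) v b = some y → sN v b = some y := by
    intro v b y hce hy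
    simp only [sN, hce, if_false, hy, Option.isSome_some, if_true]
  have e_r : ∀ v w, ¬ (cls' v).isCe → s (cls' v) v (rule (cls' v) (cls' w)) = none →
      q' v = some w → cls' w ≠ cls' v → sN v (rule (cls' v) (cls' w)) = some w := by
    intro v w hce h0 hw hne
    have hex : ∃ w', q' v = some w' ∧ cls' w' ≠ cls' v ∧
      rule (cls' v) (cls' w') = rule (cls' v) (cls' w) := ⟨w, hw, hne, rfl⟩
    simp only [sN, hce, if_false, h0, Option.isSome_none, if_true, hex]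
    simp [hw]
  have e_t : ∀ v b, ¬ (cls' v).isCe → s (cls' v) v b = none →
      (¬ ∃ w, q' v = some w ∧ cls' w ≠ cls' v ∧ rule (cls' v) (cls' w) = b) →
      sN v b = if c' v = b then te' v else none := by
    intro v b hce h0 hne
    simp only [sN, hce, if_false, h0, Option.isSome_none, hne]
    simp
  -- te' is none outside exit vertices
  have hte1 : ∀ i, ∀ C ∈ 𝓛 i, ∀ v ∈ C.J, v ≠ C.u → te' v = none := by
    intro i C hC v hv hne
    refine hte0 v ?_
    rintro j C' hC' rfl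
    have h1 := (hCJ i C hC _ hv).1
    have h2 := (hCJ j C' hC' _ (huJ j C' hC')).1
    have h3 := H.disj _ _ _ h1 h2
    subst h3
    have h4 := (H.dec i).disj C hC C' hC' _ hv (huJ i C' hC')
    subst h4
    exact hne rfl
  -- special evaluations
  have e_lq : ∀ i, ∀ C ∈ 𝓛 i, ∀ v ∈ C.J, q' v = none → sN v (lq' v) = none := by
    intro i C hC v hv hn
    obtain ⟨hJ, hc1, hce⟩ := hCJ i C hC v hv
    obtain ⟨f1, f2, f3, f4, f5, f6⟩ := hfacts i C hC (cls' v) hc1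
    rw [e_t v _ hce (f1 v hv hn) (by rintro ⟨w, hw, _⟩; rw [hn] at hw; cases hw)]
    by_cases hvu : v = C.u
    · cases hst : C.st with
      | none =>
        have hu1 : cls' C.u = cls' v := by rw [hvu]
        have f5' := f5 hst
        rw [← hvu] at f5'
        have := (hc' v f5').2.1 hn
        rw [if_neg this]
      | some b =>
        have h1 : te' v = none := by
          rw [hvu, hte i C hC]
          cases ht : te i C with
          | none => rfl
          | some k =>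
            have := ((H.dec i).te1 C hC k ht).1
            rw [hst] at this; cases this
        rw [h1]; simp
    · rw [hte1 i C hC v hv hvu]; simp
  have e_frc : ∀ i, ∀ C ∈ 𝓛 i, ∀ b, C.st = some b → sN C.u b = none := by
    intro i C hC b hb
    obtain ⟨hJ, hc1, hce⟩ := hCJ i C hC _ (huJ i C hC)
    obtain ⟨f1, f2, f3, f4, f5, f6⟩ := hfacts i C hC (cls' C.u) hc1
    have hS : cls' C.u = Sym.S b := by rw [hc1]; exact ((H.dec i).clsS C hC b).1 hb
    rw [e_t C.u b hce (f4 b hb) (by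
      rintro ⟨w, hw, hne, hr⟩
      rw [hS, rule_S] at hr
      cases b <;> simp at hr)]
    have h1 : te' C.u = none := by
      rw [hte i C hC]
      cases ht : te i C with
      | none => rfl
      | some k =>
        have := ((H.dec i).te1 C hC k ht).1
        rw [hb] at this; cases this
    rw [h1]; simp
  have e_free : ∀ i, ∀ C ∈ 𝓛 i, C.st = none → sN C.u (c' C.u) = te i C ∧
      (q' C.u = none → c' C.u ≠ lq' C.u) := by
    intro i C hC hst
    obtain ⟨hJ, hc1, hce⟩ := hCJ i C hC _ (huJ i C hC)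
    obtain ⟨f1, f2, f3, f4, f5, f6⟩ := hfacts i C hC (cls' C.u) hc1
    obtain ⟨g1, g2, g3⟩ := hc' C.u (f5 hst)
    refine ⟨?_, g2⟩
    rw [e_t C.u _ hce g1 (by
      rintro ⟨w, hw, hne, hr⟩
      exact g3 w hw hne hr.symm), if_pos rfl, hte i C hC]
  -- covering
  have hcov1 : ∀ σ v y, ¬ σ.isCe → cls' v = σ → cls' y = σ → Cov (s σ) v y → Cov sN v y := by
    rintro σ v y hce rfl hy ⟨b, hb | hb⟩
    · exact ⟨b, Or.inl (e_s v b y hce hb)⟩
    · refine ⟨b, Or.inr (e_s y b v ?_ ?_)⟩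
      · rw [hy]; exact hce
      · rw [hy]; exact hb
  have hcovsymm : ∀ v y, Cov sN v y → Cov sN y v := by
    rintro v y ⟨b, hb⟩; exact ⟨b, hb.symm⟩
  have hcovpar : ∀ i, ∀ C ∈ 𝓛 i, ∀ v ∈ C.J, ∀ y, C.par v = some y → Cov sN v y := by
    intro i C hC v hv y hy
    obtain ⟨hJ, hc1, hce⟩ := hCJ i C hC v hv
    obtain ⟨f1, f2, f3, f4, f5, f6⟩ := hfacts i C hC (cls' v) hc1
    have hyJ : y ∈ C.J := by
      obtain ⟨n, hn, hp⟩ := ((H.dec i).tree C hC).tree v hv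
      cases n with
      | zero =>
        have := hp.zero
        subst this
        rw [((H.dec i).tree C hC).pz] at hy; cases hy
      | succ n =>
        obtain ⟨w, hw, hwJ, _⟩ := hp.succ_inv
        rw [hy] at hw; cases hw; exact hwJ
    obtain ⟨_, hc2, _⟩ := hCJ i C hC y hyJ
    exact hcov1 (cls' v) v y hce rfl (by rw [hc1, hc2]) (f6 v hv y hy)
  have hcovq : ∀ i, ∀ C ∈ 𝓛 i, ∀ v ∈ C.J, ∀ y, q i v = some y → Cov sN v y := by
    intro i C hC v hv y hy
    obtain ⟨hJ, hc1, hce⟩ := hCJ i C hC v hv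
    obtain ⟨f1, f2, f3, f4, f5, f6⟩ := hfacts i C hC (cls' v) hc1
    have hy' : q' v = some y := by rw [hq i v hJ]; exact hy
    by_cases he : cls' y = cls' v
    · exact hcov1 (cls' v) v y hce rfl he (f3 v hv y hy' he)
    · exact ⟨_, Or.inl (e_r v y hce (f2 v hv y hy' he) hy' he)⟩
  have hcovte : ∀ i, ∀ C ∈ 𝓛 i, ∀ y, te i C = some y → Cov sN C.u y := by
    intro i C hC y hy
    have hst := ((H.dec i).te1 C hC y hy).1
    exact ⟨_, Or.inl (by rw [(e_free i C hC hst).1, hy])⟩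
  have hcov : ∀ i, ∀ v ∈ (Bk i).J, ∀ y, (Bk i).par v = some y ∨ (Bk i).p v = some y →
      Cov sN v y := by
    intro i v hv y hy
    rcases (H.dec i).cov v hv y hy with ⟨C, hC, h1⟩ | ⟨hK, b, hb⟩ | ⟨hK, b, hb⟩
    · rcases h1 with ⟨hvC, h1 | h1⟩ | ⟨hyC, h1 | h1⟩ | ⟨rfl, h1⟩ | ⟨rfl, h1⟩
      · exact hcovpar i C hC v hvC y h1
      · exact hcovq i C hC v hvC y h1
      · exact hcovsymm _ _ (hcovpar i C hC y hyC v h1)
      · exact hcovsymm _ _ (hcovq i C hC y hyC v h1)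
      · exact hcovte i C hC y h1
      · exact hcovsymm _ _ (hcovte i C hC v h1)
    · obtain ⟨hJ, hce⟩ := hKCe i v hK
      exact ⟨b, Or.inl (by rw [e_ce v b hce, hnn i v hJ]; exact hb)⟩
    · obtain ⟨hJ, hce⟩ := hKCe i y hK
      exact ⟨b, Or.inr (by rw [e_ce y b hce, hnn i y hJ]; exact hb)⟩
  -- ranks
  have hdlt : ∀ b v y, dig R b (cls' y) < dig R b (cls' v) → φN b y < φN b v := by
    intro b v y hlt
    have h1 : φN b y ≤ dig R b (cls' y) * (N + 1) + N := by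
      simp only [φN]
      split_ifs with hce
      · omega
      · have := (hs (cls' y) hce).1 b y
        omega
    have h2 : dig R b (cls' v) * (N + 1) ≤ φN b v := by
      simp only [φN]
      split_ifs <;> omega
    have h3 : (dig R b (cls' y) + 1) * (N + 1) ≤ dig R b (cls' v) * (N + 1) :=
      Nat.mul_le_mul_right _ hlt
    have h4 : (dig R b (cls' y) + 1) * (N + 1) = dig R b (cls' y) * (N + 1) + N + 1 := by ring
    omega
  refine ⟨sN, φN, ?_, ?_, ?_⟩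
  · intro b v
    have h1 : φN b v ≤ dig R b (cls' v) * (N + 1) + N := by
      simp only [φN]
      split_ifs with hce
      · omega
      · have := (hs (cls' v) hce).1 b v
        omega
    have h2 := dig_lt (i := b) (hcls0 v)
    have h3 : (dig R b (cls' v) + 1) * (N + 1) ≤ (2 * R + 5) * (N + 1) :=
      Nat.mul_le_mul_right _ h2
    have h4 : (dig R b (cls' v) + 1) * (N + 1) = dig R b (cls' v) * (N + 1) + N + 1 := by ring
    omega
  · intro i v hv b y hy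
    by_cases hce : (cls' v).isCe
    · rw [e_ce v b hce, hnn i v hv] at hy
      have hK := hCeK i v hv hce
      obtain ⟨h1, h2⟩ := (H.dec i).n1 v hK b y hy
      refine ⟨⟨i, h1⟩, hdlt b v y ?_⟩
      rw [hcls i v hv, hcls i y h1]; exact h2
    · simp only [sN, hce, if_false] at hy
      split_ifs at hy with h1 h2 h3
      · obtain ⟨g1, g2, g3⟩ := (hs (cls' v) hce).2.1 i v hv rfl b y hy
        refine ⟨g1, ?_⟩
        simp only [φN, hce, if_false, g2]
        omega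
      · obtain ⟨w, hw, hne, hr⟩ := h2
        have hwy : w = y := by
          rw [hw] at hy; exact Option.some.inj hy
        subst hwy
        have hex : ∃ j, w ∈ (Bk j).J := by
          have hw' : q i v = some w := by rw [← hq i v hv]; exact hw
          rcases (H.dec i).tgt v hv w hw' with h4 | h4
          · exact ⟨i, h4⟩
          · exact H.tgt i v hv w h4
        refine ⟨hex, hdlt b v w ?_⟩
        rw [← hr]
        exact rule_lt (hcls0 v) (hcls0 w) (Ne.symm hne) hce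
      · -- te'
        have hK : v ∉ K i := fun hK => hce (hKCe i v hK).2
        obtain ⟨C, hC, hvC⟩ := (H.dec i).cover v hv hK
        have hvu : v = C.u := by
          by_contra hne
          rw [hte1 i C hC v hvC hne] at hy
          cases hy
        subst hvu
        rw [hte i C hC] at hy
        obtain ⟨g1, g2, g3⟩ := (H.dec i).te1 C hC y hy
        have hyJ := (H.dec i).KJ g2
        refine ⟨⟨i, hyJ⟩, hdlt b C.u y ?_⟩
        rw [hcls i _ hv, hcls i y hyJ]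
        exact g3 b
  · intro i
    constructor
    · intro v hv y hy
      exact hcov i v hv y (Or.inl hy)
    · intro v hv y hy
      exact hcov i v hv y (Or.inr hy)
    · intro v hv hn
      by_cases hK : v ∈ K i
      · rw [e_ce v _ (hKCe i v hK).2, hnn i v hv]
        exact (H.dec i).labK v hK hn
      · obtain ⟨C, hC, hvC⟩ := (H.dec i).cover v hv hK
        rcases (H.dec i).lab C hC v hvC hn with ⟨h1, h2⟩ | ⟨rfl, h2⟩
        · rw [← h2, ← hlq i v hv]
          exact e_lq i C hC v hvC (by rw [hq i v hv]; exact h1)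
        · exact e_frc i C hC _ h2
    · intro b hb
      have hu := (H.wf i).tree.uJ
      by_cases hK : (Bk i).u ∈ K i
      · rw [e_ce _ _ (hKCe i _ hK).2, hnn i _ hu]
        exact ((H.dec i).uK hK).1 b hb
      · obtain ⟨C, hC, hvC⟩ := (H.dec i).cover _ hu hK
        obtain ⟨h1, h2, h3⟩ := (H.dec i).uC C hC hvC
        rw [h1]
        exact e_frc i C hC b (h2.trans hb)
    · intro hst
      have hu := (H.wf i).tree.uJ
      by_cases hK : (Bk i).u ∈ K i
      · obtain ⟨b, hb1, hb2⟩ := ((H.dec i).uK hK).2 hst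
        refine ⟨b, ?_, hb2⟩
        rw [e_ce _ _ (hKCe i _ hK).2, hnn i _ hu]
        exact hb1
      · obtain ⟨C, hC, hvC⟩ := (H.dec i).cover _ hu hK
        obtain ⟨h1, h2, h3⟩ := (H.dec i).uC C hC hvC
        have hstC : C.st = none := h2.trans hst
        obtain ⟨g1, g2⟩ := e_free i C hC hstC
        refine ⟨c' C.u, by rw [h1, g1, h3], ?_⟩
        intro hn
        rcases (H.dec i).lab C hC _ hvC hn with ⟨h4, h5⟩ | ⟨h4, h5⟩
        · rw [← h5, h1]
          have h6 : q' C.u = none := by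
            rw [← h1, hq i _ hu]; exact h4
          have h7 := g2 h6
          rw [hlq i _ (by rw [← h1]; exact hu)] at h7
          exact h7
        · rw [hstC] at h5; cases h5

/-- group of the forced sub-blocks with label `b` of one block -/
theorem DFam.grp [Fintype V] [DecidableEq V] {cls' : V → Sym}
    (hcls : ∀ i, ∀ v ∈ (Bk i).J, cls' v = cls i v) (i : ι) (b : Bool) :
    Grp t0 b ((Bk i).J.filter (fun v => cls i v = Sym.S b)) (relP cls' (q i))
      (relL cls' rule (q i) (lq i)) h (τ + 2)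
      ((fun C : Blk V => C.rel cls' rule) '' {C | C ∈ 𝓛 i ∧ cls i C.u = Sym.S b}) := by
  set G := (Bk i).J.filter (fun v => cls i v = Sym.S b) with hGdef
  have hG : ∀ v ∈ G, cls' v = Sym.S b := by
    intro v hv
    rw [hGdef, Finset.mem_filter] at hv
    rw [hcls i v hv.1]; exact hv.2
  have hGJ : ∀ v ∈ G, v ∈ (Bk i).J := fun v hv => (Finset.mem_filter.1 hv).1
  have hGK : ∀ v ∈ G, v ∉ K i := by
    intro v hv hK
    have h1 := ((H.dec i).Kce v hK).1
    rw [(Finset.mem_filter.1 hv).2] at h1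
    exact h1
  have hCG : ∀ C ∈ 𝓛 i, cls i C.u = Sym.S b → ∀ v ∈ C.J, v ∈ G := by
    intro C hC hcC v hv
    rw [hGdef, Finset.mem_filter]
    exact ⟨((H.dec i).sub C hC v hv).1, by rw [(H.dec i).clsC C hC v hv]; exact hcC⟩
  have hst : ∀ C ∈ 𝓛 i, cls i C.u = Sym.S b → C.st = some b := by
    intro C hC hcC; exact ((H.dec i).clsS C hC b).2 hcC
  have huJ : ∀ C ∈ 𝓛 i, C.u ∈ C.J := fun C hC => ((H.dec i).tree C hC).uJ
  have hGsub : G ⊆ (Bk i).J := fun v hv => hGJ v hv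
  constructor
  · exact ((H.dec i).fin.subset (fun C hC => hC.1)).image _
  · rintro _ ⟨C, ⟨hC, hcC⟩, rfl⟩
    exact hst C hC hcC
  · rintro _ ⟨C, ⟨hC, hcC⟩, rfl⟩
    have := (H.dec i).tree C hC
    exact ⟨this.zJ, this.pz, this.tree, this.uJ⟩
  · rintro _ ⟨C, ⟨hC, hcC⟩, rfl⟩ v hv
    exact hCG C hC hcC v hv
  · intro v hv
    obtain ⟨C, hC, hvC⟩ := (H.dec i).cover v (hGJ v hv) (hGK v hv)
    refine ⟨_, ⟨C, ⟨hC, ?_⟩, rfl⟩, hvC⟩
    rw [← (H.dec i).clsC C hC v hvC]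
    exact (Finset.mem_filter.1 hv).2
  · rintro _ ⟨C, ⟨hC, hcC⟩, rfl⟩ _ ⟨C', ⟨hC', hcC'⟩, rfl⟩ v hv hv'
    rw [(H.dec i).disj C hC C' hC' v hv hv']
  · rintro _ ⟨C, ⟨hC, hcC⟩, rfl⟩ v hv
    obtain ⟨h1, h2⟩ := (H.dec i).pq C hC
    constructor
    · change (C.rel cls' rule).p v = _
      rw [rel_p_eq, h1]
    · change (C.rel cls' rule).lp v = _
      rw [rel_lp_eq, h1, h2]
  · intro v hv
    obtain ⟨n, x, hx⟩ := (H.dec i).ex v (hGJ v hv)
    obtain ⟨m, x', _, h1, _⟩ := hx.restrict hGsub hv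
    exact ⟨m, x', (Ex_relP cls' (q i) hG).2 h1⟩
  · rintro _ ⟨C, ⟨hC, hcC⟩, rfl⟩ n x hx
    have hx' : Ex (q i) G n C.u x := (Ex_relP cls' (q i) hG).1 hx
    have huG : C.u ∈ G := hCG C hC hcC _ (huJ C hC)
    obtain ⟨n0, x0, hx0⟩ := (H.dec i).ex C.u (hGJ _ huG)
    obtain ⟨m, x', _, h1, _, h2⟩ := hx0.restrict hGsub huG
    have hxx := (h1.det hx').2
    subst hxx
    have hxG : x' ∈ G := h1.right_mem
    rcases h2 with h2 | ⟨w, hw, hwJ, hwG, _⟩
    · subst h2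
      rcases (H.dec i).spec C hC b (hst C hC hcC) n0 x' hx0 with h3 | ⟨h3, h4⟩
      · exact absurd h3 (hGK _ hxG)
      · obtain ⟨h5, h6⟩ := relP_none cls' rule (q i) (lq i) h3
        exact ⟨h5, by rw [h6]; exact h4⟩
    · have hne : cls' w ≠ cls' x' := by
        rw [hG x' hxG, hcls i w hwJ]
        intro h3
        exact hwG (Finset.mem_filter.2 ⟨hwJ, h3⟩)
      obtain ⟨h5, h6⟩ := relP_cut cls' rule (q i) (lq i) hw hne
      refine ⟨h5, ?_⟩
      rw [h6, hG x' hxG, rule_S]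
  · rintro _ ⟨C, ⟨hC, hcC⟩, rfl⟩ _ ⟨C', ⟨hC', hcC'⟩, rfl⟩ n n' x hx hx'
    have h1 : Ex (q i) G n C.u x := (Ex_relP cls' (q i) hG).1 hx
    have h1' : Ex (q i) G n' C'.u x := (Ex_relP cls' (q i) hG).1 hx'
    obtain ⟨n0, x0, hx0⟩ := (H.dec i).ex x (hGJ _ h1.right_mem)
    have hmono : ∀ {n : ℕ} {v x : V}, Pth (q i) G n v x → Pth (q i) (Bk i).J n v x := by
      intro n v x hp
      exact hp.mono_set (fun m y _ hy => hGJ y hy.right_mem)
    have h2 := hx0.head (hmono h1.1)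
    have h2' := hx0.head (hmono h1'.1)
    have h3 := (H.dec i).dist C hC C' hC' (by rw [hst C hC hcC, hst C' hC' hcC'])
      (by rw [hst C hC hcC]; simp) _ _ _ h2 h2'
    rw [h3]
  · rintro _ ⟨C, ⟨hC, hcC⟩, rfl⟩ v hv w hw ht
    exact (H.dec i).t0in C hC v hv w hw ht
  · rintro _ ⟨C, ⟨hC, hcC⟩, rfl⟩ v hv w hw ht
    exact (H.dec i).t0cr C hC v hv w (hGJ w hw) (hGK w hw) ht
  · rintro _ ⟨C, ⟨hC, hcC⟩, rfl⟩
    exact ((H.dec i).tops C hC).trans (Nat.add_le_add_right (H.wf i).tops 2)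

/-- the free sub-blocks, relabelled and re-rooted -/
theorem DFam.free_block [Fintype V] [DecidableEq V] (hr : RerootStatement) {cls' : V → Sym}
    (hcls : ∀ i, ∀ v ∈ (Bk i).J, cls' v = cls i v) (i : ι) {C : Blk V} (hC : C ∈ 𝓛 i)
    (hst : C.st = none) :
    ∃ C' : Blk V, C'.J = C.J ∧ C'.WF t0 e (2 * h) (τ + 2) ∧ C'.meas e < (Bk i).meas e ∧
      C'.p = relP cls' (q i) ∧ ∀ s, Sat s C' → Sat s (C.rel cls' rule) := by
  have hT := (H.dec i).tree C hC
  have hCJ : ∀ v ∈ C.J, v ∈ (Bk i).J := fun v hv => ((H.dec i).sub C hC v hv).1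
  have hG : ∀ v ∈ C.J, cls' v = cls i C.u := by
    intro v hv; rw [hcls i v (hCJ v hv), (H.dec i).clsC C hC v hv]
  obtain ⟨hpq, hlq⟩ := (H.dec i).pq C hC
  have hp : (C.rel cls' rule).p = relP cls' (q i) := by rw [rel_p_eq, hpq]
  have hex : ∀ v ∈ C.J, ∃ n x, Ex (relP cls' (q i)) C.J n v x := by
    intro v hv
    obtain ⟨n, x, hx⟩ := (H.dec i).ex v (hCJ v hv)
    obtain ⟨m, x', _, h1, _⟩ := hx.restrict hCJ hv
    exact ⟨m, x', (Ex_relP cls' (q i) hG).2 h1⟩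
  have htops : RF.tops t0 C.J ≤ τ + 2 :=
    ((H.dec i).tops C hC).trans (Nat.add_le_add_right (H.wf i).tops 2)
  have hTrel : (C.rel cls' rule).Tree h := ⟨hT.zJ, hT.pz, hT.tree, hT.uJ⟩
  by_cases hz : (Bk i).z ∈ C.J
  · obtain ⟨h1, h2, h3⟩ := (H.dec i).zz C hC hz
    refine ⟨C.rel cls' rule, rfl, ?_, ?_, hp, fun s hs => hs⟩
    · refine WF.mono (h := h) (τ := τ + 2) ⟨hTrel, ?_, ?_, ?_, ?_, htops⟩ (by omega) le_rfl
      · intro v hv
        rw [hp]; exact hex v hv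
      · intro b hb
        rw [rel_st, hst] at hb; cases hb
      · intro v hv
        rw [rel_z, h1]
        exact (H.wf i).zmin v (hCJ v hv)
      · exact (H.dec i).t0in C hC
    · exact meas_lt_in hCJ (H.wf i).tree.zJ (H.wf i).zmin hz hst h3
  · obtain ⟨z', hz', hmax⟩ := Finset.exists_max_image C.J e ⟨C.u, hT.uJ⟩
    obtain ⟨par', hT', hadj⟩ := hr V (C.rel cls' rule) h hTrel z' hz'
    refine ⟨{ C.rel cls' rule with par := par', z := z' }, rfl, ?_, ?_, hp, ?_⟩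
    · refine ⟨hT', ?_, ?_, ?_, ?_, htops⟩
      · intro v hv
        change ∃ n x, Ex (C.rel cls' rule).p C.J n v x
        rw [hp]; exact hex v hv
      · intro b hb
        change C.st = some b at hb
        rw [hst] at hb; cases hb
      · exact hmax
      · intro v hv w hw ht
        exact (hadj v hv w hw).1 ((H.dec i).t0in C hC v hv w hw ht)
    · exact meas_lt_out (C := { C.rel cls' rule with par := par', z := z' }) hCJ
        (H.wf i).tree.zJ (H.wf i).zmin hz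
    · intro s hs
      refine ⟨?_, hs.p, hs.lp, hs.frc, hs.free⟩
      intro v hv y hy
      have hyJ : y ∈ C.J := Tree.par_mem hT hv hy
      rcases (hadj v hv y hyJ).1 (Or.inl hy) with h1 | h1
      · exact hs.par v hv y h1
      · obtain ⟨b, hb⟩ := hs.par y hyJ v h1
        exact ⟨b, hb.symm⟩

/-- solutions for the class families -/
theorem DFam.class_sol [Fintype V] [DecidableEq V] (hr : RerootStatement) {h1 τ1 N : ℕ}
    {μ : ℕ ×ₗ (ℕ ×ₗ ℕ∞)}
    (hm : ∀ (b : Bool) (G : Finset V) (p : V → Option V) (lp : V → Bool)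
      (𝓖 : Set (Blk V)), Grp t0 b G p lp h (τ + 2) 𝓖 → 𝓖.ncard ≤ h + 2 →
      ∃ 𝓖' : Set (Blk V), (∀ C ∈ 𝓖', C.WF t0 e h1 τ1) ∧ (∀ C ∈ 𝓖', C.st = some b) ∧
        (∀ C ∈ 𝓖', ∀ v ∈ C.J, v ∈ G) ∧ (∀ v ∈ G, ∃ C ∈ 𝓖', v ∈ C.J) ∧
        (∀ C ∈ 𝓖', ∀ C' ∈ 𝓖', ∀ v, v ∈ C.J → v ∈ C'.J → C = C') ∧
        (∀ C ∈ 𝓖', ∀ v ∈ C.J, ∀ w, C.p v = some w → w ∈ G ∨ p v = some w) ∧
        (∀ s, (∀ C ∈ 𝓖', Sat s C) → ∀ C ∈ 𝓖, Sat s C))
    (hμ : ∀ i, (Bk i).meas e ≤ μ)
    (hyp : ∀ 𝓑 : Set (Blk V), Fam t0 e (max h1 (2 * h)) (max τ1 (τ + 2)) 𝓑 →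
      (∀ A ∈ 𝓑, A.meas e < μ) → Sol 𝓑 N)
    {cls' : V → Sym} (hcls : ∀ i, ∀ v ∈ (Bk i).J, cls' v = cls i v)
    (σ : Sym) : ∃ (s : V → Bool → Option V) (φ : Bool → V → ℕ), ¬ σ.isCe →
      (∀ i v, φ i v ≤ N) ∧
      (∀ i, ∀ v ∈ (Bk i).J, cls' v = σ → ∀ b y, s v b = some y →
        (∃ j, y ∈ (Bk j).J) ∧ cls' y = σ ∧ φ b y < φ b v) ∧
      ∀ i, ∀ C ∈ 𝓛 i, cls i C.u = σ → Sat s (C.rel cls' rule) := by
  classical
  by_cases hce : σ.isCe
  · exact ⟨fun _ _ => none, fun _ _ => 0, fun h => absurd hce h⟩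
  -- targets of relabelled edges
  have htgt : ∀ i, ∀ v ∈ (Bk i).J, cls' v = σ → ∀ w, relP cls' (q i) v = some w →
      ∃ j, ∃ C ∈ 𝓛 j, cls j C.u = σ ∧ w ∈ C.J ∧ cls j w = σ ∧ w ∈ (Bk j).J := by
    intro i v hv hσ w hw
    obtain ⟨h2, h3⟩ := (relP_some cls' (q i)).1 hw
    have hj : ∃ j, w ∈ (Bk j).J := by
      rcases (H.dec i).tgt v hv w h2 with h4 | h4
      · exact ⟨i, h4⟩
      · exact H.tgt i v hv w h4
    obtain ⟨j, hj⟩ := hj
    have hcw : cls j w = σ := by rw [← hcls j w hj, h3, hσ]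
    have hK : w ∉ K j := by
      intro hK
      have := ((H.dec j).Kce w hK).1
      rw [hcw] at this
      exact hce this
    obtain ⟨C, hC, hwC⟩ := (H.dec j).cover w hj hK
    exact ⟨j, C, hC, by rw [← (H.dec j).clsC C hC w hwC]; exact hcw, hwC, hcw, hj⟩
  have hvC : ∀ i, ∀ v ∈ (Bk i).J, cls' v = σ → ∃ C ∈ 𝓛 i, v ∈ C.J ∧ cls i C.u = σ := by
    intro i v hv hσ
    have hK : v ∉ K i := by
      intro hK
      have := ((H.dec i).Kce v hK).1
      rw [← hcls i v hv, hσ] at this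
      exact hce this
    obtain ⟨C, hC, hvC⟩ := (H.dec i).cover v hv hK
    refine ⟨C, hC, hvC, ?_⟩
    rw [← (H.dec i).clsC C hC v hvC, ← hcls i v hv]
    exact hσ
  by_cases hS : ∃ b, σ = Sym.S b
  · obtain ⟨b, rfl⟩ := hS
    have hg : ∀ i, ∃ 𝓖' : Set (Blk V), (∀ C ∈ 𝓖', C.WF t0 e h1 τ1) ∧ (∀ C ∈ 𝓖', C.st = some b) ∧
        (∀ C ∈ 𝓖', ∀ v ∈ C.J, v ∈ (Bk i).J.filter (fun v => cls i v = Sym.S b)) ∧
        (∀ v ∈ (Bk i).J.filter (fun v => cls i v = Sym.S b), ∃ C ∈ 𝓖', v ∈ C.J) ∧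
        (∀ C ∈ 𝓖', ∀ C' ∈ 𝓖', ∀ v, v ∈ C.J → v ∈ C'.J → C = C') ∧
        (∀ C ∈ 𝓖', ∀ v ∈ C.J, ∀ w, C.p v = some w →
          w ∈ (Bk i).J.filter (fun v => cls i v = Sym.S b) ∨ relP cls' (q i) v = some w) ∧
        (∀ s, (∀ C ∈ 𝓖', Sat s C) →
          ∀ C ∈ (fun C : Blk V => C.rel cls' rule) '' {C | C ∈ 𝓛 i ∧ cls i C.u = Sym.S b},
            Sat s C) := by
      intro i
      refine hm b _ _ _ _ (H.grp hcls i b) ?_
      refine (Set.ncard_image_le ((H.dec i).fin.subset (fun C hC => hC.1))).trans ?_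
      refine (Set.ncard_le_ncard ?_ ((H.dec i).fin.subset (fun C hC => hC.1))).trans (H.dec i).cnt
      rintro C ⟨hC, hcC⟩
      refine ⟨hC, ?_⟩
      rw [((H.dec i).clsS C hC b).2 hcC]
      simp
    choose 𝓖' g1 g2 g3 g4 g5 g6 g7 using hg
    have hFam : Fam t0 e (max h1 (2 * h)) (max τ1 (τ + 2)) {B | ∃ i, B ∈ 𝓖' i} := by
      constructor
      · rintro B ⟨i, hB⟩
        exact WF.mono (g1 i B hB) (le_max_left _ _) (le_max_left _ _)
      · rintro B ⟨i, hB⟩ B' ⟨j, hB'⟩ v hv hv'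
        have h3 := (Finset.mem_filter.1 (g3 i B hB v hv)).1
        have h4 := (Finset.mem_filter.1 (g3 j B' hB' v hv')).1
        have := H.disj i j v h3 h4
        subst this
        exact g5 i B hB B' hB' v hv hv'
      · rintro B ⟨i, hB⟩ v hv w hw
        have hvG := Finset.mem_filter.1 (g3 i B hB v hv)
        rcases g6 i B hB v hv w hw with h3 | h3
        · obtain ⟨B', hB', hwB'⟩ := g4 i w h3
          exact ⟨B', ⟨i, hB'⟩, hwB'⟩
        · obtain ⟨j, C, hC, hcC, hwC, hcw, hwJ⟩ := htgt i v hvG.1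
            (by rw [hcls i v hvG.1]; exact hvG.2) w h3
          obtain ⟨B', hB', hwB'⟩ := g4 j w (Finset.mem_filter.2 ⟨hwJ, hcw⟩)
          exact ⟨B', ⟨j, hB'⟩, hwB'⟩
    have hmeas : ∀ A ∈ {B | ∃ i, B ∈ 𝓖' i}, A.meas e < μ := by
      rintro B ⟨i, hB⟩
      refine lt_of_lt_of_le ?_ (hμ i)
      refine meas_lt_out (fun v hv => (Finset.mem_filter.1 (g3 i B hB v hv)).1)
        (H.wf i).tree.zJ (H.wf i).zmin ?_
      intro hz
      obtain ⟨hzJ, hzc⟩ := Finset.mem_filter.1 (g3 i B hB _ hz)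
      obtain ⟨C, hC, hzC, hcC⟩ := hvC i _ hzJ (by rw [hcls i _ hzJ]; exact hzc)
      have h3 := ((H.dec i).zz C hC hzC).2.1
      rw [((H.dec i).clsS C hC b).2 hcC] at h3
      cases h3
    obtain ⟨s, φ, s1, s2, s3⟩ := hyp _ hFam hmeas
    refine ⟨s, φ, fun _ => ⟨s1, ?_, ?_⟩⟩
    · intro i v hv hσ c y hy
      obtain ⟨B, hB, hvB⟩ := g4 i v (Finset.mem_filter.2 ⟨hv, by rw [← hcls i v hv]; exact hσ⟩)
      obtain ⟨⟨B', ⟨j, hB'⟩, hyB'⟩, hφ⟩ := s2 B ⟨i, hB⟩ v hvB c y hy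
      obtain ⟨hyJ, hyc⟩ := Finset.mem_filter.1 (g3 j B' hB' y hyB')
      exact ⟨⟨j, hyJ⟩, by rw [hcls j y hyJ]; exact hyc, hφ⟩
    · intro i C hC hcC
      exact g7 i s (fun B hB => s3 B ⟨i, hB⟩) _ ⟨C, ⟨hC, hcC⟩, rfl⟩
  · -- free classes
    have hstn : ∀ i, ∀ C ∈ 𝓛 i, cls i C.u = σ → C.st = none := by
      intro i C hC hcC
      cases hst : C.st with
      | none => rfl
      | some b =>
        exact absurd ⟨b, by rw [← hcC]; exact ((H.dec i).clsS C hC b).1 hst⟩ hS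
    have hg : ∀ x : {x : ι × Blk V // x.2 ∈ 𝓛 x.1 ∧ cls x.1 x.2.u = σ},
        ∃ C' : Blk V, C'.J = x.1.2.J ∧ C'.WF t0 e (2 * h) (τ + 2) ∧
          C'.meas e < (Bk x.1.1).meas e ∧
          C'.p = relP cls' (q x.1.1) ∧ ∀ s, Sat s C' → Sat s (x.1.2.rel cls' rule) := by
      rintro ⟨⟨i, C⟩, hC, hcC⟩
      exact H.free_block hr hcls i hC (hstn i C hC hcC)
    choose B b1 b2 b3 b4 b5 using hg
    have hFam : Fam t0 e (max h1 (2 * h)) (max τ1 (τ + 2)) (Set.range B) := by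
      constructor
      · rintro _ ⟨x, rfl⟩
        exact WF.mono (b2 x) (le_max_right _ _) (le_max_right _ _)
      · rintro _ ⟨x, rfl⟩ _ ⟨x', rfl⟩ v hv hv'
        rw [b1] at hv hv'
        obtain ⟨⟨i, C⟩, hC, hcC⟩ := x
        obtain ⟨⟨i', C'⟩, hC', hcC'⟩ := x'
        simp only at hv hv' hC hC' hcC hcC'
        have := H.disj i i' v ((H.dec i).sub C hC v hv).1 ((H.dec i').sub C' hC' v hv').1
        subst this
        have := (H.dec i).disj C hC C' hC' v hv hv'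
        subst this
        rfl
      · rintro _ ⟨x, rfl⟩ v hv w hw
        rw [b1] at hv
        rw [b4] at hw
        obtain ⟨⟨i, C⟩, hC, hcC⟩ := x
        simp only at hv hw hC hcC
        have hvJ := ((H.dec i).sub C hC v hv).1
        obtain ⟨j, C', hC', hcC', hwC', _, _⟩ := htgt i v hvJ
          (by rw [hcls i v hvJ, (H.dec i).clsC C hC v hv]; exact hcC) w hw
        exact ⟨_, ⟨⟨⟨j, C'⟩, hC', hcC'⟩, rfl⟩, by rw [b1]; exact hwC'⟩
    have hmeas : ∀ A ∈ Set.range B, A.meas e < μ := by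
      rintro _ ⟨x, rfl⟩
      exact (b3 x).trans_le (hμ _)
    obtain ⟨s, φ, s1, s2, s3⟩ := hyp _ hFam hmeas
    refine ⟨s, φ, fun _ => ⟨s1, ?_, ?_⟩⟩
    · intro i v hv hσ c y hy
      obtain ⟨C, hC, hvC, hcC⟩ := hvC i v hv hσ
      obtain ⟨⟨_, ⟨x', rfl⟩, hyB'⟩, hφ⟩ := s2 (B ⟨⟨i, C⟩, hC, hcC⟩) ⟨_, rfl⟩ v
        (by rw [b1]; exact hvC) c y hy
      rw [b1] at hyB'
      obtain ⟨⟨j, C'⟩, hC', hcC'⟩ := x'
      simp only at hyB' hC' hcC'
      have hyJ := ((H.dec j).sub C' hC' y hyB').1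
      refine ⟨⟨j, hyJ⟩, ?_, hφ⟩
      rw [hcls j y hyJ, (H.dec j).clsC C' hC' y hyB']
      exact hcC'
    · intro i C hC hcC
      exact b5 ⟨⟨i, C⟩, hC, hcC⟩ s (s3 _ ⟨_, rfl⟩)

end

theorem decomp_step (hr : RerootStatement) (hm : MergeStatement) (hd : NFDecStatement) :
    DecompStatement := by
  intro h τ
  obtain ⟨h1, τ1, hm'⟩ := hm (h + 2) h (τ + 2)
  refine ⟨max h1 (2 * h), max τ1 (τ + 2), fun N => ?_⟩
  refine ⟨(2 * (2 * h + 3) + 5) * (N + 1), ?_⟩
  intro V _ _ t0 e μ hyp 𝓑 hF hμ hLab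
  classical
  have hdd : ∀ A : 𝓑, ∃ A₁ : Blk V, A₁.WF t0 e h τ ∧ A₁.J = A.1.J ∧ A₁.z = A.1.z ∧
      A₁.meas e ≤ A.1.meas e ∧ (∀ s, Sat s A₁ → Sat s A.1) ∧
      (∀ v ∈ A.1.J, ∀ w, A₁.p v = some w → w ∈ A.1.J ∨ A.1.p v = some w) ∧
      ∃ K cls q lq nn 𝓛 te, Dec t0 A₁ h (2 * h + 3) K cls q lq nn 𝓛 te :=
    fun A => hd V t0 e h τ A.1 (hF.wf A.1 A.2) (hLab A.1 A.2)
  choose Bk d1 d2 d3 d4 d5 d6 K cls q lq nn 𝓛 te hD using hdd
  have H : DFam t0 e h τ (2 * h + 3) Bk K cls q lq nn 𝓛 te := by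
    refine ⟨d1, hD, ?_, ?_⟩
    · intro i j v hi hj
      rw [d2] at hi hj
      exact Subtype.ext (hF.disj i.1 i.2 j.1 j.2 v hi hj)
    · intro i v hv w hw
      rw [d2] at hv
      rcases d6 i v hv w hw with h2 | h2
      · exact ⟨i, by rw [d2]; exact h2⟩
      · obtain ⟨B, hB, hwB⟩ := hF.tgt i.1 i.2 v hv w h2
        exact ⟨⟨B, hB⟩, by rw [d2]; exact hwB⟩
  obtain ⟨cls', c1, c2⟩ := H.glob cls (Sym.Ce 0)
  obtain ⟨q', q1, _⟩ := H.glob q none
  obtain ⟨lq', l1, _⟩ := H.glob lq true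
  obtain ⟨nn', n1, _⟩ := H.glob nn (fun _ => none)
  obtain ⟨te', t1, t2⟩ := H.globte
  have hcls0 : ∀ v, (cls' v).le (2 * h + 3) := by
    intro v
    by_cases hv : ∃ i, v ∈ (Bk i).J
    · obtain ⟨i, hi⟩ := hv
      rw [c1 i v hi]
      by_cases hK : v ∈ K i
      · exact ((H.dec i).Kce v hK).2
      · obtain ⟨C, hC, hvC⟩ := (H.dec i).cover v hi hK
        rw [(H.dec i).clsC C hC v hvC]
        exact ((H.dec i).clsle C hC).2
    · rw [c2 v (fun i hi => hv ⟨i, hi⟩)]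
      exact Nat.zero_le _
  obtain ⟨s, φ, s1, s2, s3⟩ := H.assemble N c1 hcls0 q1 l1 n1 t1 t2
    (H.class_sol hr (fun b G p lp 𝓖 hG hn => hm' V t0 e b G p lp 𝓖 hG hn)
      (fun i => (d4 i).trans (hμ i.1 i.2)) hyp c1)
  refine ⟨s, φ, s1, ?_, ?_⟩
  · intro A hA v hv b y hy
    have hv' : v ∈ (Bk ⟨A, hA⟩).J := by rw [d2]; exact hv
    obtain ⟨⟨j, hj⟩, hφ⟩ := s2 ⟨A, hA⟩ v hv' b y hy
    refine ⟨⟨j.1, j.2, ?_⟩, hφ⟩
    rw [d2] at hj
    exact hj
  · intro A hA
    exact d5 ⟨A, hA⟩ s (s3 ⟨A, hA⟩)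

end Pool.Agent.RF
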