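import Pool.Agent.Lib.MP_5f065d_co.Statements
import Pool.Agent.Lib.MP_5f065d_co.ForestParent
import Pool.Agent.Lib.MP_5f065d_co.ForestOfParent

set_option autoImplicit false

/-!
T-5f-MAIN: the final theorem from the stage (MP_5f065d_co, S09049).
-/

namespace Pool.Agent.RF

/-- possible values of the measure -/
def mvals (D h τ : ℕ) : Set (ℕ ×ₗ (ℕ ×ₗ ℕ∞)) :=
  (fun x : ℕ × (ℕ × ℕ∞) => toLex (x.1, toLex x.2)) ''
    (Set.Iic D ×ˢ (Set.Iic τ ×ˢ (insert ⊤ ((fun n : ℕ => (n : ℕ∞)) '' Set.Iic h))))

theorem mvals_finite (D h τ : ℕ) : (mvals D h τ).Finite := by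
  unfold mvals
  apply Set.Finite.image
  apply Set.Finite.prod (Set.finite_Iic D)
  apply Set.Finite.prod (Set.finite_Iic τ)
  apply Set.Finite.insert
  exact (Set.finite_Iic h).image _

theorem dist_le {V : Type} {A : Blk V} {h : ℕ} (hA : A.Tree h) : A.dist ≤ h := by
  obtain ⟨n, hn, hp⟩ := hA.tree A.u hA.uJ
  exact (Nat.sInf_le hp).trans hn

theorem nq_le {V : Type} [Fintype V] [DecidableEq V] {t0 : V → Option V} {e : V → ℕ}
    (he : ∀ v w, t0 v = some w → e w = e v + 1) (J : Finset V) : nq e J ≤ tops t0 J := by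
  unfold nq tops
  have hfin : ({v : V | v ∈ J ∧ Out t0 J v} : Set V).Finite := Set.toFinite _
  rw [← Set.ncard_coe_finset]
  apply Set.ncard_le_ncard _ hfin
  intro v hv
  simp only [Finset.coe_filter, Set.mem_ofPred_eq] at hv ⊢
  refine ⟨hv.1, ?_⟩
  intro w hw hwJ
  have h1 := he v w hw
  have h2 : e w ≤ J.sup e := Finset.le_sup hwJ
  omega

theorem meas_mem {V : Type} [Fintype V] [DecidableEq V] {t0 : V → Option V} {e : V → ℕ}
    {D h τ : ℕ} (he : ∀ v w, t0 v = some w → e w = e v + 1) (hD : ∀ v, e v ≤ D)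
    {A : Blk V} (hA : A.WF t0 e h τ) : A.meas e ∈ mvals D h τ := by
  unfold Blk.meas mvals
  refine ⟨(A.J.sup e, (nq e A.J, if A.st = none then (A.dist : ℕ∞) else ⊤)), ?_, rfl⟩
  simp only [Set.mem_prod, Set.mem_Iic, Set.mem_insert_iff, Set.mem_image]
  refine ⟨Finset.sup_le (fun v _ => hD v), (nq_le he A.J).trans hA.tops, ?_⟩
  by_cases hst : A.st = none
  · right
    exact ⟨A.dist, dist_le hA.tree, by simp [hst]⟩
  · left
    simp [hst]

/-- the statement proved by well-founded induction -/
def PMain (D : ℕ) (μ : ℕ ×ₗ (ℕ ×ₗ ℕ∞)) : Prop :=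
  ∀ h τ : ℕ, ∃ N : ℕ, ∀ (V : Type) [Fintype V] [DecidableEq V] (t0 : V → Option V) (e : V → ℕ),
    (∀ v w, t0 v = some w → e w = e v + 1) → (∀ v, e v ≤ D) →
    ∀ 𝓑 : Set (Blk V), Fam t0 e h τ 𝓑 → (∀ A ∈ 𝓑, A.meas e ≤ μ) → Sol 𝓑 N

theorem sol_empty {V : Type} (N : ℕ) : Sol (∅ : Set (Blk V)) N := by
  refine ⟨fun _ _ => none, fun _ _ => 0, fun _ _ => Nat.zero_le _, ?_, ?_⟩
  · intro A hA
    exact absurd hA (Set.notMem_empty A)
  · intro A hA
    exact absurd hA (Set.notMem_empty A)

theorem pmain (hs : StageStatement) (D : ℕ) (μ : ℕ ×ₗ (ℕ ×ₗ ℕ∞)) : PMain D μ := by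
  induction μ using WellFoundedLT.induction with
  | ind μ ih =>
    intro h τ
    obtain ⟨h', τ', H⟩ := hs h τ
    -- a bound for the families of smaller measure
    have key : ∃ N : ℕ, ∀ (V : Type) [Fintype V] [DecidableEq V] (t0 : V → Option V) (e : V → ℕ),
        (∀ v w, t0 v = some w → e w = e v + 1) → (∀ v, e v ≤ D) →
        ∀ 𝓑 : Set (Blk V), Fam t0 e h' τ' 𝓑 → (∀ A ∈ 𝓑, A.meas e < μ) → Sol 𝓑 N := by
      have hfin : (mvals D h' τ' ∩ Set.Iio μ).Finite := (mvals_finite D h' τ').inter_of_left _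
      by_cases hne : (mvals D h' τ' ∩ Set.Iio μ).Nonempty
      · obtain ⟨μ', hμ', hmax⟩ := hfin.exists_maximal hne
        obtain ⟨N, hN⟩ := ih μ' hμ'.2 h' τ'
        refine ⟨N, ?_⟩
        intro V _ _ t0 e he hD 𝓑 hF hm
        refine hN V t0 e he hD 𝓑 hF (fun A hA => ?_)
        have hmem : A.meas e ∈ mvals D h' τ' ∩ Set.Iio μ := ⟨meas_mem he hD (hF.wf A hA), hm A hA⟩
        by_contra hlt
        push Not at hlt
        exact absurd (hmax hmem hlt.le) (not_le.mpr hlt)
      · refine ⟨0, ?_⟩
        intro V _ _ t0 e he hD 𝓑 hF hm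
        have hemp : 𝓑 = ∅ := by
          by_contra hne'
          obtain ⟨A, hA⟩ := Set.nonempty_iff_ne_empty.mpr hne'
          exact hne ⟨A.meas e, meas_mem he hD (hF.wf A hA), hm A hA⟩
        subst hemp
        exact sol_empty 0
    obtain ⟨N, hN⟩ := key
    obtain ⟨N', hN'⟩ := H N
    refine ⟨N', ?_⟩
    intro V _ _ t0 e he hD 𝓑 hF hm
    exact hN' V t0 e μ (fun 𝓑' hF' hm' => hN V t0 e he hD 𝓑' hF' hm') 𝓑 hF hm

/-! ### The root of a vertex -/

/-- In a parent structure with depths every vertex has a root, reached after `dep v` steps. -/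
theorem root_exists {V : Type} (t0 : V → Option V) (dep : V → ℕ)
    (h1 : ∀ a b, t0 a = some b → dep a = dep b + 1) (h0 : ∀ a, t0 a = none → dep a = 0) :
    ∃ R : V → V, (∀ v, t0 (R v) = none) ∧ (∀ v w, t0 v = some w → R v = R w) ∧
      (∀ v, t0 v = none → R v = v) ∧
      ∀ (J : Finset V) (v : V), (∀ w, w ∈ J ↔ R w = R v) → Pth t0 J (dep v) v (R v) := by
  classical
  -- construct by recursion on the depth
  have hex : ∀ (n : ℕ) (v : V), dep v = n → ∃ r, t0 r = none ∧
      Relation.ReflTransGen (fun a b => t0 a = some b) v r := by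
    intro n
    induction n with
    | zero =>
      intro v hv
      refine ⟨v, ?_, Relation.ReflTransGen.refl⟩
      cases ht : t0 v with
      | none => rfl
      | some w =>
        have := h1 v w ht
        omega
    | succ n ih =>
      intro v hv
      cases ht : t0 v with
      | none =>
        have := h0 v ht
        omega
      | some w =>
        have hw := h1 v w ht
        obtain ⟨r, hr, hr2⟩ := ih w (by omega)
        exact ⟨r, hr, Relation.ReflTransGen.head ht hr2⟩
  have hun : ∀ v r r', t0 r = none → t0 r' = none →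
      Relation.ReflTransGen (fun a b => t0 a = some b) v r →
      Relation.ReflTransGen (fun a b => t0 a = some b) v r' → r = r' := by
    intro v r r' hr hr' h
    induction h using Relation.ReflTransGen.head_induction_on with
    | refl =>
      intro h'
      rcases Relation.ReflTransGen.cases_head h' with h'' | ⟨c, hc, _⟩
      · exact h''
      · rw [hr] at hc
        cases hc
    | head hab hbr ih =>
      intro h'
      rcases Relation.ReflTransGen.cases_head h' with h'' | ⟨c, hc, hc2⟩
      · subst h''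
        rw [hr'] at hab
        cases hab
      · rw [hab] at hc
        cases hc
        exact ih hc2
  choose R hR1 hR2 using fun v => hex (dep v) v rfl
  refine ⟨R, hR1, ?_, ?_, ?_⟩
  · intro v w hvw
    exact hun v _ _ (hR1 v) (hR1 w) (hR2 v) (Relation.ReflTransGen.head hvw (hR2 w))
  · intro v hv
    exact hun v _ _ (hR1 v) hv (hR2 v) Relation.ReflTransGen.refl
  · have hRstep : ∀ v w, t0 v = some w → R v = R w := fun v w hvw =>
      hun v _ _ (hR1 v) (hR1 w) (hR2 v) (Relation.ReflTransGen.head hvw (hR2 w))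
    have hpth : ∀ (J : Finset V) (n : ℕ) (v : V), dep v = n → (∀ w, w ∈ J ↔ R w = R v) →
        Pth t0 J n v (R v) := by
      intro J n
      induction n with
      | zero =>
        intro v hv hJ
        cases ht : t0 v with
        | none =>
          have : R v = v := hun v _ _ (hR1 v) ht (hR2 v) Relation.ReflTransGen.refl
          have hvJ : v ∈ J := (hJ v).2 rfl
          rw [this]
          exact Pth.refl hvJ
        | some w =>
          have := h1 v w ht
          omega
      | succ n ih =>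
        intro v hv hJ
        cases ht : t0 v with
        | none =>
          have := h0 v ht
          omega
        | some w =>
          have hw := h1 v w ht
          have hvw := hRstep v w ht
          have := ih w (by omega) (fun x => by rw [hJ x, hvw])
          rw [hvw]
          exact Pth.step ((hJ v).2 rfl) ht this
    exact fun J v hJ => hpth J (dep v) v rfl hJ

/-- every walk of an acyclic partial function leaves `J` -/
theorem ex_of_dep {V : Type} (p : V → Option V) (dep : V → ℕ)
    (h1 : ∀ a b, p a = some b → dep a = dep b + 1) (J : Finset V) :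
    ∀ (m : ℕ) (v : V), dep v = m → v ∈ J → ∃ n x, Ex p J n v x := by
  intro m
  induction m with
  | zero =>
    intro v hv hvJ
    refine ⟨0, v, Pth.refl hvJ, ?_⟩
    intro w hw
    have := h1 v w hw
    omega
  | succ m ih =>
    intro v hv hvJ
    by_cases hO : Out p J v
    · exact ⟨0, v, Pth.refl hvJ, hO⟩
    · unfold Out at hO
      push Not at hO
      obtain ⟨w, hw, hwJ⟩ := hO
      have hd := h1 v w hw
      obtain ⟨n, x, hx⟩ := ih w (by omega) hwJ
      exact ⟨n + 1, x, Pth.step hvJ hw hx.1, hx.2⟩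

theorem main_of_stage (hs : StageStatement) : MainStatement := by
  intro d _hd
  obtain ⟨N, hN⟩ := pmain hs d (toLex (d, toLex (1, ⊤))) d 1
  refine ⟨2 * N, ?_⟩
  intro V _ G F₁ F₂ hF₁ hF₂ hdist hG
  classical
  obtain ⟨t0, dep, ht1, ht2, ht3, ht4⟩ := forest_parent F₂ hF₂
  obtain ⟨p, depp, hp1, hp2, hp3, _⟩ := forest_parent F₁ hF₁
  have hdep : ∀ v, dep v ≤ d := by
    intro v
    obtain ⟨r, hr, hr2⟩ := ht4 v
    rw [hr2]
    exact hdist v r hr
  let e : V → ℕ := fun v => d - dep v
  have he : ∀ v w, t0 v = some w → e w = e v + 1 := by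
    intro v w hvw
    have h1 := ht2 v w hvw
    have h2 := hdep v
    change d - dep w = d - dep v + 1
    omega
  have heD : ∀ v, e v ≤ d := fun v => Nat.sub_le _ _
  obtain ⟨R, hR1, hR2, hR3, hR4⟩ := root_exists t0 dep ht2 ht3
  have hRR : ∀ v, R (R v) = R v := fun v => hR3 _ (hR1 v)
  let blk : V → Blk V := fun r =>
    { J := Finset.univ.filter (fun v => R v = r), par := t0, z := r, p := p, lp := fun _ => true,
      u := r, st := none }
  let 𝓑 : Set (Blk V) := {A | ∃ r, t0 r = none ∧ A = blk r}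
  have hJ : ∀ r v, v ∈ (blk r).J ↔ R v = r := by
    intro r v
    simp [blk]
  have hWF : ∀ A ∈ 𝓑, A.WF t0 e d 1 := by
    rintro A ⟨r, hr, rfl⟩
    have hRr : R r = r := hR3 r hr
    refine ⟨⟨?_, ?_, ?_, ?_⟩, ?_, ?_, ?_, ?_, ?_⟩
    · exact (hJ r r).2 hRr
    · exact hr
    · intro v hv
      have hv' : R v = r := (hJ r v).1 hv
      refine ⟨dep v, hdep v, ?_⟩
      have := hR4 (blk r).J v (fun w => by rw [hJ r w, hv'])
      rw [hv'] at this
      exact this
    · exact (hJ r r).2 hRr
    · intro v hv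
      exact ex_of_dep p depp hp2 (blk r).J (depp v) v rfl hv
    · intro i hi
      exact absurd hi (by simp [blk])
    · intro v _
      have h0 : dep r = 0 := ht3 r hr
      change d - dep v ≤ d - dep r
      omega
    · intro v _ w _ hvw
      exact Or.inl hvw
    · unfold RF.tops
      have hsub : {v : V | v ∈ (blk r).J ∧ Out t0 (blk r).J v} ⊆ {r} := by
        intro v hv
        have hv1 : R v = r := (hJ r v).1 hv.1
        cases htv : t0 v with
        | none =>
          rw [hR3 v htv] at hv1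
          exact hv1
        | some w =>
          exfalso
          have h2 := hv.2 w htv
          apply h2
          rw [hJ r w, ← hR2 v w htv]
          exact hv1
      calc _ ≤ ({r} : Set V).ncard := Set.ncard_le_ncard hsub (Set.finite_singleton r)
        _ = 1 := Set.ncard_singleton r
  have hFam : Fam t0 e d 1 𝓑 := by
    refine ⟨hWF, ?_, ?_⟩
    · rintro A ⟨r, _, rfl⟩ B ⟨r', _, rfl⟩ v hv hv'
      have h1 := (hJ r v).1 hv
      have h2 := (hJ r' v).1 hv'
      rw [← h1, ← h2]
    · rintro A ⟨r, _, rfl⟩ v _ w _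
      exact ⟨blk (R w), ⟨R w, hR1 w, rfl⟩, (hJ _ w).2 rfl⟩
  have hmeas : ∀ A ∈ 𝓑, A.meas e ≤ toLex (d, toLex (1, ⊤)) := by
    intro A hA
    have hm := meas_mem he heD (hWF A hA)
    obtain ⟨⟨a, b, c⟩, ⟨ha, hb, _⟩, hEq⟩ := hm
    rw [← hEq]
    have ha' : a ≤ d := ha
    have hb' : b ≤ 1 := hb
    rw [Prod.Lex.toLex_le_toLex]
    rcases lt_or_eq_of_le ha' with h | h
    · left
      exact h
    · right
      refine ⟨h, ?_⟩
      change toLex (b, c) ≤ toLex (1, ⊤)
      rw [Prod.Lex.toLex_le_toLex]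
      rcases lt_or_eq_of_le hb' with h | h
      · left
        exact h
      · right
        exact ⟨h, le_top⟩
  obtain ⟨s, φ, hφ, hdec, hsat⟩ := hN V t0 e he heD 𝓑 hFam hmeas
  have hmemB : ∀ v, ∃ A ∈ 𝓑, v ∈ A.J ∧ A.par = t0 ∧ A.p = p := fun v =>
    ⟨blk (R v), ⟨R v, hR1 v, rfl⟩, (hJ _ v).2 rfl, rfl, rfl⟩
  have hdec' : ∀ v i y, s v i = some y → φ i y < φ i v := by
    intro v i y hy
    obtain ⟨A, hA, hvA, _, _⟩ := hmemB v
    exact (hdec A hA v hvA i y hy).2
  have hcov : ∀ a b, G.Adj a b → Cov s a b := by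
    intro a b hab
    have hsym : ∀ x y, Cov s x y → Cov s y x := by
      rintro x y ⟨i, h⟩
      exact ⟨i, h.symm⟩
    have hab' : F₁.Adj a b ∨ F₂.Adj a b := by
      rw [hG] at hab
      exact hab
    rcases hab' with h | h
    · rcases (hp1 a b).1 h with h | h
      · obtain ⟨A, hA, hvA, _, hAp⟩ := hmemB a
        exact (hsat A hA).p a hvA b (by rw [hAp]; exact h)
      · obtain ⟨A, hA, hvA, _, hAp⟩ := hmemB b
        exact hsym _ _ ((hsat A hA).p b hvA a (by rw [hAp]; exact h))
    · rcases (ht1 a b).1 h with h | h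
      · obtain ⟨A, hA, hvA, hAt, _⟩ := hmemB a
        exact (hsat A hA).par a hvA b (by rw [hAt]; exact h)
      · obtain ⟨A, hA, hvA, hAt, _⟩ := hmemB b
        exact hsym _ _ ((hsat A hA).par b hvA a (by rw [hAt]; exact h))
  let H₁ : SimpleGraph V :=
    { Adj := fun a b => G.Adj a b ∧ (s a true = some b ∨ s b true = some a)
      symm := ⟨fun a b h => ⟨h.1.symm, h.2.symm⟩⟩
      loopless := ⟨fun a h => G.loopless.irrefl a h.1⟩ }
  let H₂ : SimpleGraph V :=
    { Adj := fun a b => G.Adj a b ∧ ¬ (s a true = some b ∨ s b true = some a)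
      symm := ⟨fun a b h => ⟨h.1.symm, fun h' => h.2 h'.symm⟩⟩
      loopless := ⟨fun a h => G.loopless.irrefl a h.1⟩ }
  have h1 := forest_of_parent (fun v => s v true) (φ true) N (fun a b h => hdec' a true b h)
    (fun a => hφ true a) H₁ (fun a b h => h.2)
  have h2 := forest_of_parent (fun v => s v false) (φ false) N (fun a b h => hdec' a false b h)
    (fun a => hφ false a) H₂ (by
      intro a b h
      obtain ⟨i, hi⟩ := hcov a b h.1
      cases i with
      | true => exact absurd hi h.2
      | false => exact hi)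
  refine ⟨H₁, H₂, ?_, ?_, h1.1, h2.1, h1.2, h2.2⟩
  · ext a b
    constructor
    · rintro (h | h)
      · exact h.1
      · exact h.1
    · intro h
      by_cases hc : s a true = some b ∨ s b true = some a
      · exact Or.inl ⟨h, hc⟩
      · exact Or.inr ⟨h, hc⟩
  · rw [disjoint_iff]
    ext a b
    constructor
    · rintro ⟨ha, hb⟩
      exact absurd ha.2 hb.2
    · intro h
      exact absurd h (by simp)

end Pool.Agent.RF
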