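import Pool.Agent.Lib.MP_5f065d_co.Statements

set_option autoImplicit false

/-!
Re-rooting a block and merging the forced blocks of a group (MP_5f065d_co, S09049).
-/

namespace Pool.Agent.RF

variable {V : Type}

/-- inside a tree, the parent of a vertex of `J` is in `J` -/
theorem Blk.Tree.par_mem {C : Blk V} {h : ℕ} (hC : C.Tree h) {v y : V} (hv : v ∈ C.J)
    (hy : C.par v = some y) : y ∈ C.J := by
  obtain ⟨n, -, hn⟩ := hC.tree v hv
  cases n with
  | zero =>
    have := hn.zero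
    subst this
    rw [hC.pz] at hy
    cases hy
  | succ n =>
    obtain ⟨w, hw, hwJ, -⟩ := hn.succ_inv
    rw [hw] at hy
    cases hy
    exact hwJ

theorem reroot : RerootStatement := by
  intro V _ _ C h hC z' hz'
  obtain ⟨n, hn, hP⟩ := hC.tree z' hz'
  have hout : Out C.par C.J C.z := by
    intro w hw
    rw [hC.pz] at hw
    cases hw
  obtain ⟨q, -, r2, -, r4, r5, -⟩ := rev C.par C.J (k := z') (x := C.z) (n := n) ⟨hP, hout⟩
  refine ⟨q, ⟨hz', r2, ?_, hC.uJ⟩, r4⟩
  intro v hv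
  obtain ⟨m, hm, hPm⟩ := hC.tree v hv
  obtain ⟨m', hm', hE⟩ := r5 v m ⟨hPm, hout⟩
  exact ⟨m', by omega, hE.1⟩

theorem Blk.Tree.mono {C : Blk V} {h h' : ℕ} (hC : C.Tree h) (hh : h ≤ h') : C.Tree h' :=
  ⟨hC.zJ, hC.pz, fun v hv => by
    obtain ⟨n, hn, hP⟩ := hC.tree v hv
    exact ⟨n, hn.trans hh, hP⟩, hC.uJ⟩

theorem Blk.WF.mono {t0 : V → Option V} {e : V → ℕ} {h τ h' τ' : ℕ} {C : Blk V}
    (hC : C.WF t0 e h τ) (hh : h ≤ h') (hτ : τ ≤ τ') : C.WF t0 e h' τ' :=
  ⟨hC.tree.mono hh, hC.ex, hC.frc, hC.zmin, hC.t0in, hC.tops.trans hτ⟩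

theorem tops_mono_union (t0 : V → Option V) [DecidableEq V] (A B : Finset V) :
    tops t0 (A ∪ B) ≤ tops t0 A + tops t0 B := by
  unfold tops
  have hfin : ∀ J : Finset V, {v : V | v ∈ J ∧ Out t0 J v}.Finite := fun J =>
    J.finite_toSet.subset fun v hv => hv.1
  refine le_trans (Set.ncard_le_ncard (t := {v : V | v ∈ A ∧ Out t0 A v} ∪
    {v : V | v ∈ B ∧ Out t0 B v}) ?_ ((hfin A).union (hfin B))) (Set.ncard_union_le _ _)
  rintro v ⟨hv, hout⟩
  rcases Finset.mem_union.mp hv with h | h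
  · exact Or.inl ⟨h, fun w hw hwA => hout w hw (Finset.mem_union_left _ hwA)⟩
  · exact Or.inr ⟨h, fun w hw hwB => hout w hw (Finset.mem_union_right _ hwB)⟩

theorem Cov.symm {s : V → Bool → Option V} {v y : V} (h : Cov s v y) : Cov s y v := by
  obtain ⟨i, h | h⟩ := h
  · exact ⟨i, Or.inr h⟩
  · exact ⟨i, Or.inl h⟩

section group

variable {t0 : V → Option V} {i : Bool} {G : Finset V} {p : V → Option V} {lp : V → Bool}
  {h τ : ℕ} {𝓖 : Set (Blk V)}

/-- walks inside a block of the group exit -/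
theorem Grp.exC (hG : Grp t0 i G p lp h τ 𝓖) {C : Blk V} (hC : C ∈ 𝓖) {v : V} (hv : v ∈ C.J) :
    ∃ n x, Ex C.p C.J n v x := by
  obtain ⟨n, x, hE⟩ := hG.ex v (hG.sub C hC v hv)
  obtain ⟨m, x', -, hE', -, -⟩ := hE.restrict (hG.sub C hC) hv
  exact ⟨m, x', hE'.congr fun m y hy => ((hG.p_eq C hC y hy.right_mem).1).symm⟩

/-- the base case: all blocks are good -/
theorem merge_base [Fintype V] [DecidableEq V] (hG : Grp t0 i G p lp h τ 𝓖) (e : V → ℕ)
    (hgood : ∀ C ∈ 𝓖, ∀ n x, Ex C.p C.J n C.u x → C.p x = none ∧ C.lp x = !i) :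
    ∃ 𝓖' : Set (Blk V), (∀ C ∈ 𝓖', C.WF t0 e (2 * h) τ) ∧ (∀ C ∈ 𝓖', C.st = some i) ∧
      (∀ C ∈ 𝓖', ∀ v ∈ C.J, v ∈ G) ∧ (∀ v ∈ G, ∃ C ∈ 𝓖', v ∈ C.J) ∧
      (∀ C ∈ 𝓖', ∀ C' ∈ 𝓖', ∀ v, v ∈ C.J → v ∈ C'.J → C = C') ∧
      (∀ C ∈ 𝓖', ∀ v ∈ C.J, ∀ w, C.p v = some w → w ∈ G ∨ p v = some w) ∧
      (∀ s, (∀ C ∈ 𝓖', Sat s C) → ∀ C ∈ 𝓖, Sat s C) := by
  classical
  have key : ∀ C : Blk V, ∃ C' : Blk V, C ∈ 𝓖 → C'.J = C.J ∧ C'.p = C.p ∧ C'.lp = C.lp ∧
      C'.u = C.u ∧ C'.st = C.st ∧ C'.Tree (2 * h) ∧ (∀ v ∈ C.J, e v ≤ e C'.z) ∧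
      (∀ a ∈ C.J, ∀ b ∈ C.J, (C.par a = some b ∨ C.par b = some a) ↔
        (C'.par a = some b ∨ C'.par b = some a)) := by
    intro C
    by_cases hC : C ∈ 𝓖
    · obtain ⟨z', hz', hmax⟩ := Finset.exists_max_image C.J e ⟨C.z, (hG.tree C hC).zJ⟩
      obtain ⟨par', h1, h2⟩ := reroot V C h (hG.tree C hC) z' hz'
      exact ⟨{ C with par := par', z := z' }, fun _ => ⟨rfl, rfl, rfl, rfl, rfl, h1, hmax, h2⟩⟩
    · exact ⟨C, fun h => absurd h hC⟩
  choose F hF using key
  refine ⟨F '' 𝓖, ?_, ?_, ?_, ?_, ?_, ?_, ?_⟩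
  · rintro _ ⟨C, hC, rfl⟩
    obtain ⟨hJ, hp, hlp, hu, hst, htree, hz, hadj⟩ := hF C hC
    refine ⟨htree, ?_, ?_, ?_, ?_, ?_⟩
    · intro v hv
      rw [hJ] at hv
      rw [hp, hJ]
      exact hG.exC hC hv
    · intro j hj n x hE
      rw [hp, hJ, hu] at hE
      rw [hp, hlp]
      rw [hst, hG.st C hC] at hj
      cases hj
      exact hgood C hC n x hE
    · intro v hv
      rw [hJ] at hv
      exact hz v hv
    · intro v hv w hw hvw
      rw [hJ] at hv hw
      exact (hadj v hv w hw).mp (hG.t0in C hC v hv w hw hvw)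
    · rw [hJ]
      exact hG.tops C hC
  · rintro _ ⟨C, hC, rfl⟩
    obtain ⟨hJ, hp, hlp, hu, hst, htree, hz, hadj⟩ := hF C hC
    rw [hst, hG.st C hC]
  · rintro _ ⟨C, hC, rfl⟩ v hv
    rw [(hF C hC).1] at hv
    exact hG.sub C hC v hv
  · intro v hv
    obtain ⟨C, hC, hvC⟩ := hG.cover v hv
    exact ⟨F C, ⟨C, hC, rfl⟩, by rw [(hF C hC).1]; exact hvC⟩
  · rintro _ ⟨C, hC, rfl⟩ _ ⟨C', hC', rfl⟩ v hv hv'
    rw [(hF C hC).1] at hv
    rw [(hF C' hC').1] at hv'
    rw [hG.disj C hC C' hC' v hv hv']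
  · rintro _ ⟨C, hC, rfl⟩ v hv w hw
    obtain ⟨hJ, hp, hlp, hu, hst, htree, hz, hadj⟩ := hF C hC
    rw [hJ] at hv
    rw [hp, (hG.p_eq C hC v hv).1] at hw
    exact Or.inr hw
  · intro s hs C hC
    have hS := hs (F C) ⟨C, hC, rfl⟩
    obtain ⟨hJ, hp, hlp, hu, hst, htree, hz, hadj⟩ := hF C hC
    refine ⟨?_, ?_, ?_, ?_, ?_⟩
    · intro v hv y hy
      have hyJ := (hG.tree C hC).par_mem hv hy
      rcases (hadj v hv y hyJ).mp (Or.inl hy) with h1 | h1
      · exact hS.par v (by rw [hJ]; exact hv) y h1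
      · exact (hS.par y (by rw [hJ]; exact hyJ) v h1).symm
    · intro v hv y hy
      exact hS.p v (by rw [hJ]; exact hv) y (by rw [hp]; exact hy)
    · intro v hv hpv
      have := hS.lp v (by rw [hJ]; exact hv) (by rw [hp]; exact hpv)
      rwa [hlp] at this
    · intro j hj
      have := hS.frc j (by rw [hst]; exact hj)
      rwa [hu] at this
    · intro hj
      rw [hG.st C hC] at hj
      cases hj

/-- one merging step -/
theorem merge_one [Fintype V] [DecidableEq V] (hG : Grp t0 i G p lp h τ 𝓖)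
    {A : Blk V} (hA : A ∈ 𝓖) {n0 : ℕ} {x0 : V} (hE0 : Ex A.p A.J n0 A.u x0)
    (hbad : ¬ (A.p x0 = none ∧ A.lp x0 = !i)) :
    ∃ (q : V → Option V) (lq : V → Bool) (𝓖₁ : Set (Blk V)),
      Grp t0 i G q lq (3 * h + 1) (2 * τ) 𝓖₁ ∧ 𝓖₁.ncard < 𝓖.ncard ∧
      (∀ v w, q v = some w → w ∈ G ∨ p v = some w) ∧
      (∀ s, (∀ C ∈ 𝓖₁, Sat s C) → ∀ C ∈ 𝓖, Sat s C) := by
  classical
  have hAG := hG.sub A hA
  have hAp := hG.p_eq A hA
  have hx0A : x0 ∈ A.J := hE0.right_mem
  have hPA : ∀ {m : ℕ} {v y : V}, Pth A.p A.J m v y → Pth p G m v y := by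
    intro m v y hP
    induction hP with
    | refl hv => exact Pth.refl (hAG _ hv)
    | step h1 h2 _ ih => exact Pth.step (hAG _ h1) (by rw [← (hAp _ h1).1]; exact h2) ih
  -- the exit of `A.u` has a target in `G`
  obtain ⟨w, hw⟩ : ∃ w, p x0 = some w := by
    by_contra hno
    push Not at hno
    have h1 : p x0 = none := Option.eq_none_iff_forall_ne_some.mpr hno
    have h2 : Ex p G n0 A.u x0 := ⟨hPA hE0.1, fun w hw => absurd hw (hno w)⟩
    have h3 := hG.spec A hA n0 x0 h2
    exact hbad ⟨by rw [(hAp x0 hx0A).1]; exact h1, by rw [(hAp x0 hx0A).2]; exact h3.2⟩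
  have hwG : w ∈ G := by
    by_contra hno
    have h2 : Ex p G n0 A.u x0 := ⟨hPA hE0.1, fun w' hw' => by
      rw [hw] at hw'
      cases hw'
      exact hno⟩
    have h3 := hG.spec A hA n0 x0 h2
    rw [hw] at h3
    cases h3.1
  have hwA : w ∉ A.J := hE0.2 w (by rw [(hAp x0 hx0A).1]; exact hw)
  obtain ⟨B, hB, hwB⟩ := hG.cover w hwG
  have hAB : A ≠ B := by
    rintro rfl
    exact hwA hwB
  have hdisjAB : ∀ v, v ∈ A.J → v ∉ B.J := fun v h1 h2 => hAB (hG.disj A hA B hB v h1 h2)
  -- the function `f'`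
  set f' : V → Option V := Function.update p x0 none with hf'
  have hf'x0 : f' x0 = none := by simp [hf']
  have hf'ne : ∀ v, v ≠ x0 → f' v = p v := fun v hv => by simp [hf', Function.update_of_ne hv]
  have hemb : ∀ {m : ℕ} {v y : V}, Pth A.p A.J m v y → Pth f' G m v y := by
    intro m v y hP
    induction hP with
    | refl hv => exact Pth.refl (hAG _ hv)
    | @step m v w' y h1 h2 h3 ih =>
      have hne : v ≠ x0 := by
        rintro rfl
        exact hE0.2 _ h2 h3.left_mem
      exact Pth.step (hAG _ h1) (by rw [hf'ne _ hne, ← (hAp _ h1).1]; exact h2) ih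
  have hE0f : Ex f' G n0 A.u x0 := ⟨hemb hE0.1, fun w' hw' => by rw [hf'x0] at hw'; cases hw'⟩
  have hpath : ∀ m v, Pth f' G m A.u v → v ∈ A.J ∧ Pth p G m A.u v := by
    intro m v hP
    have hle := (hE0f.le hP).1
    obtain ⟨k, hk⟩ := Nat.exists_eq_add_of_le hle
    have h1 := hE0.1
    rw [hk] at h1
    obtain ⟨y, hy1, -⟩ := h1.take
    have h2 := (hemb hy1).det hP
    subst h2
    exact ⟨hy1.right_mem, hPA hy1⟩
  obtain ⟨q, r1, r2, r3, r4, r5, r6⟩ := rev f' G hE0f
  set lq : V → Bool := Function.update lp A.u i with hlq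
  have hlqu : lq A.u = i := by simp [hlq]
  have hlqne : ∀ v, v ≠ A.u → lq v = lp v := fun v hv => by simp [hlq, Function.update_of_ne hv]
  have huA : A.u ∈ A.J := (hG.tree A hA).uJ
  -- off the reversed path nothing changes
  have hqoff' : ∀ v, (∀ m, ¬ Pth f' G m A.u v) → q v = p v ∧ lq v = lp v ∧ v ≠ x0 ∧ v ≠ A.u := by
    intro v hv
    have h1 : v ≠ x0 := by
      rintro rfl
      exact hv n0 hE0f.1
    have h2 : v ≠ A.u := by
      rintro rfl
      exact hv 0 (Pth.refl (hAG _ huA))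
    exact ⟨by rw [r1 v hv, hf'ne v h1], hlqne v h2, h1, h2⟩
  have hqoff : ∀ v, v ∉ A.J → q v = p v ∧ lq v = lp v := by
    intro v hv
    have := hqoff' v fun m hm => hv (hpath m v hm).1
    exact ⟨this.1, this.2.1⟩
  -- walks of the other `C.u`
  have hwalk : ∀ C ∈ 𝓖, C ≠ A → ∀ n x, Ex p G n C.u x → Ex q G n C.u x ∧ q x = p x ∧
      lq x = lp x := by
    intro C hC hCA n x hE
    have havoid : ∀ m y, Pth p G m C.u y → ∀ m', ¬ Pth f' G m' A.u y := by
      intro m y hy m' hy'
      obtain ⟨nA, xA, hEA⟩ := hG.ex A.u (hAG _ huA)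
      have h1 := hEA.tail (hpath m' y hy').2
      have h2 := hE.tail hy
      have h3 := (h2.det h1).2
      subst h3
      exact hCA (hG.dist C hC A hA n nA x hE hEA)
    refine ⟨hE.congr fun m y hy => ((hqoff' y (havoid m y hy)).1).symm, ?_, ?_⟩
    · exact (hqoff' x (havoid n x hE.1)).1
    · exact (hqoff' x (havoid n x hE.1)).2.1
  have hwalk' : ∀ C ∈ 𝓖, C ≠ A → ∀ n x, Ex q G n C.u x → Ex p G n C.u x ∧ q x = p x ∧
      lq x = lp x := by
    intro C hC hCA n x hE
    obtain ⟨n', x', hE'⟩ := hG.ex C.u (hG.sub C hC _ (hG.tree C hC).uJ)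
    obtain ⟨h1, h2, h3⟩ := hwalk C hC hCA n' x' hE'
    obtain ⟨rfl, rfl⟩ := hE.det h1
    exact ⟨hE', h2, h3⟩
  -- re-root `A` at `x0`
  have houtz : Out A.par A.J A.z := by
    intro w' hw'
    rw [(hG.tree A hA).pz] at hw'
    cases hw'
  obtain ⟨nz, hnz, hPz⟩ := (hG.tree A hA).tree x0 hx0A
  obtain ⟨a, -, a2, -, a4, a5, -⟩ := rev A.par A.J (k := x0) (x := A.z) (n := nz) ⟨hPz, houtz⟩
  set par : V → Option V := fun v => if v = x0 then some w else if v ∈ A.J then a v else B.par v
    with hpar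
  have hparx0 : par x0 = some w := by simp [hpar]
  have hparA : ∀ v ∈ A.J, v ≠ x0 → par v = a v := fun v hv hne => by simp [hpar, hv, hne]
  have hparB : ∀ v ∈ B.J, par v = B.par v := by
    intro v hv
    have h1 : v ∉ A.J := fun h => hdisjAB v h hv
    have h2 : v ≠ x0 := by
      rintro rfl
      exact h1 hx0A
    simp [hpar, h1, h2]
  set M : Blk V := ⟨A.J ∪ B.J, par, B.z, q, lq, B.u, some i⟩ with hM
  have hBt := hG.tree B hB
  have hAt := hG.tree A hA
  have hembB : ∀ {m : ℕ} {v y : V}, Pth B.par B.J m v y → Pth par (A.J ∪ B.J) m v y := by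
    intro m v y hP
    induction hP with
    | refl hv => exact Pth.refl (Finset.mem_union_right _ hv)
    | step h1 h2 _ ih =>
      exact Pth.step (Finset.mem_union_right _ h1) (by rw [hparB _ h1]; exact h2) ih
  have hembA : ∀ {m : ℕ} {v y : V}, Pth a A.J m v y → Pth par (A.J ∪ B.J) m v y := by
    intro m v y hP
    induction hP with
    | refl hv => exact Pth.refl (Finset.mem_union_left _ hv)
    | @step m v w' y h1 h2 _ ih =>
      have hne : v ≠ x0 := by
        rintro rfl
        rw [a2] at h2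
        cases h2
      exact Pth.step (Finset.mem_union_left _ h1) (by rw [hparA _ h1 hne]; exact h2) ih
  have hMtree : M.Tree (3 * h + 1) := by
    refine ⟨Finset.mem_union_right _ hBt.zJ, ?_, ?_, Finset.mem_union_right _ hBt.uJ⟩
    · show par B.z = none
      rw [hparB _ hBt.zJ]
      exact hBt.pz
    · intro v hv
      rcases Finset.mem_union.mp hv with hv | hv
      · obtain ⟨m, hm, hP⟩ := hAt.tree v hv
        obtain ⟨m', hm', hE⟩ := a5 v m ⟨hP, houtz⟩
        obtain ⟨k, hk, hPk⟩ := hBt.tree w hwB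
        refine ⟨m' + (k + 1), by omega, ?_⟩
        exact (hembA hE.1).trans (Pth.step (Finset.mem_union_left _ hx0A) hparx0 (hembB hPk))
      · obtain ⟨m, hm, hP⟩ := hBt.tree v hv
        exact ⟨m, by omega, hembB hP⟩
  have hMJ : ∀ v, v ∈ M.J ↔ v ∈ A.J ∨ v ∈ B.J := fun v => Finset.mem_union
  have hmem : ∀ C, C ∈ insert M (𝓖 \ {A, B}) ↔ C = M ∨ (C ∈ 𝓖 ∧ C ≠ A ∧ C ≠ B) := by
    intro C
    simp [Set.mem_insert_iff]
  refine ⟨q, lq, insert M (𝓖 \ {A, B}), ⟨?_, ?_, ?_, ?_, ?_, ?_, ?_, ?_, ?_, ?_, ?_, ?_, ?_⟩, ?_, ?_,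
    ?_⟩
  · exact (hG.fin.subset Set.sdiff_subset).insert _
  · intro C hC
    rcases (hmem C).mp hC with rfl | ⟨hC, -, -⟩
    · rfl
    · exact hG.st C hC
  · intro C hC
    rcases (hmem C).mp hC with rfl | ⟨hC, -, -⟩
    · exact hMtree
    · exact (hG.tree C hC).mono (by omega)
  · intro C hC v hv
    rcases (hmem C).mp hC with rfl | ⟨hC, -, -⟩
    · rcases (hMJ v).mp hv with hv | hv
      · exact hAG v hv
      · exact hG.sub B hB v hv
    · exact hG.sub C hC v hv
  · intro v hv
    obtain ⟨C, hC, hvC⟩ := hG.cover v hv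
    by_cases h1 : C = A
    · exact ⟨M, (hmem M).mpr (Or.inl rfl), (hMJ v).mpr (Or.inl (h1 ▸ hvC))⟩
    by_cases h2 : C = B
    · exact ⟨M, (hmem M).mpr (Or.inl rfl), (hMJ v).mpr (Or.inr (h2 ▸ hvC))⟩
    exact ⟨C, (hmem C).mpr (Or.inr ⟨hC, h1, h2⟩), hvC⟩
  · have hMC : ∀ C' ∈ 𝓖, C' ≠ A → C' ≠ B → ∀ v, v ∈ M.J → v ∉ C'.J := by
      intro C' hC' h1 h2 v hv hv'
      rcases (hMJ v).mp hv with hv | hv
      · exact h1 (hG.disj C' hC' A hA v hv' hv)
      · exact h2 (hG.disj C' hC' B hB v hv' hv)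
    intro C hC C' hC' v hv hv'
    rcases (hmem C).mp hC with rfl | ⟨hC, h1, h2⟩
    · rcases (hmem C').mp hC' with rfl | ⟨hC', h3, h4⟩
      · rfl
      · exact absurd hv' (hMC C' hC' h3 h4 v hv)
    · rcases (hmem C').mp hC' with rfl | ⟨hC', h3, h4⟩
      · exact absurd hv (hMC C hC h1 h2 v hv')
      · exact hG.disj C hC C' hC' v hv hv'
  · intro C hC v hv
    rcases (hmem C).mp hC with rfl | ⟨hC, h1, h2⟩
    · exact ⟨rfl, rfl⟩
    · have h3 : v ∉ A.J := fun h => h1 (hG.disj C hC A hA v hv h)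
      obtain ⟨h4, h5⟩ := hqoff v h3
      rw [h4, h5]
      exact hG.p_eq C hC v hv
  · have hexf : ∀ n v x, Ex p G n v x → ∃ m y, Ex f' G m v y := by
      intro n
      induction n with
      | zero =>
        intro v x hE
        have h1 := hE.1.zero
        subst h1
        by_cases hv : v = x0
        · subst hv
          exact ⟨0, v, Ex.self hE.1.left_mem fun w' hw' => by rw [hf'x0] at hw'; cases hw'⟩
        · exact ⟨0, v, Ex.self hE.1.left_mem fun w' hw' => hE.2 w' (by
            rw [← hf'ne v hv]; exact hw')⟩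
      | succ n ih =>
        intro v x hE
        by_cases hv : v = x0
        · subst hv
          exact ⟨0, v, Ex.self hE.1.left_mem fun w' hw' => by rw [hf'x0] at hw'; cases hw'⟩
        · obtain ⟨w', hw', -, hP⟩ := hE.1.succ_inv
          obtain ⟨m, y, hE'⟩ := ih w' x ⟨hP, hE.2⟩
          exact ⟨m + 1, y, Ex.cons hE.1.left_mem (by rw [hf'ne v hv]; exact hw') hE'⟩
    intro v hv
    obtain ⟨n, x, hE⟩ := hG.ex v hv
    obtain ⟨m, y, hE'⟩ := hexf n v x hE
    by_cases hy : y = x0
    · subst hy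
      obtain ⟨m', -, hE''⟩ := r5 v m hE'
      exact ⟨m', _, hE''⟩
    · exact ⟨m, y, r6 v m y hy hE'⟩
  · intro C hC n x hE
    rcases (hmem C).mp hC with rfl | ⟨hC, h1, h2⟩
    · obtain ⟨h3, h4, h5⟩ := hwalk' B hB (Ne.symm hAB) n x hE
      rw [h4, h5]
      exact hG.spec B hB n x h3
    · obtain ⟨h3, h4, h5⟩ := hwalk' C hC h1 n x hE
      rw [h4, h5]
      exact hG.spec C hC n x h3
  · intro C hC C' hC' n n' x hE hE'
    rcases (hmem C).mp hC with rfl | ⟨hC, h1, h2⟩
    · rcases (hmem C').mp hC' with rfl | ⟨hC', h3, h4⟩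
      · rfl
      · exact absurd (hG.dist B hB C' hC' n n' x (hwalk' B hB (Ne.symm hAB) n x hE).1
          (hwalk' C' hC' h3 n' x hE').1).symm h4
    · rcases (hmem C').mp hC' with rfl | ⟨hC', h3, h4⟩
      · exact absurd (hG.dist C hC B hB n n' x (hwalk' C hC h1 n x hE).1
          (hwalk' B hB (Ne.symm hAB) n' x hE').1) h2
      · exact hG.dist C hC C' hC' n n' x (hwalk' C hC h1 n x hE).1
          (hwalk' C' hC' h3 n' x hE').1
  · intro C hC v hv v' hv' hvv'
    rcases (hmem C).mp hC with rfl | ⟨hC, h1, h2⟩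
    · show par v = some v' ∨ par v' = some v
      rcases (hMJ v).mp hv with hv | hv
      · have hv'A : v' ∈ A.J := by
          refine hG.t0cr A hA v hv v' ?_ hvv'
          rcases (hMJ v').mp hv' with hv' | hv'
          · exact hAG v' hv'
          · exact hG.sub B hB v' hv'
        rcases (a4 v hv v' hv'A).mp (hG.t0in A hA v hv v' hv'A hvv') with h3 | h3
        · left
          rw [hparA v hv]
          · exact h3
          · rintro rfl
            rw [a2] at h3
            cases h3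
        · right
          rw [hparA v' hv'A]
          · exact h3
          · rintro rfl
            rw [a2] at h3
            cases h3
      · have hv'B : v' ∈ B.J := by
          refine hG.t0cr B hB v hv v' ?_ hvv'
          rcases (hMJ v').mp hv' with hv' | hv'
          · exact hAG v' hv'
          · exact hG.sub B hB v' hv'
        rw [hparB v hv, hparB v' hv'B]
        exact hG.t0in B hB v hv v' hv'B hvv'
    · exact hG.t0in C hC v hv v' hv' hvv'
  · intro C hC v hv v' hv' hvv'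
    rcases (hmem C).mp hC with rfl | ⟨hC, h1, h2⟩
    · rcases (hMJ v).mp hv with hv | hv
      · exact (hMJ v').mpr (Or.inl (hG.t0cr A hA v hv v' hv' hvv'))
      · exact (hMJ v').mpr (Or.inr (hG.t0cr B hB v hv v' hv' hvv'))
    · exact hG.t0cr C hC v hv v' hv' hvv'
  · intro C hC
    rcases (hmem C).mp hC with rfl | ⟨hC, h1, h2⟩
    · have h3 := tops_mono_union t0 A.J B.J
      have h4 := hG.tops A hA
      have h5 := hG.tops B hB
      show tops t0 (A.J ∪ B.J) ≤ 2 * τ
      omega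
    · have := hG.tops C hC
      omega
  · have h1 : ({A, B} : Set (Blk V)) ⊆ 𝓖 := by
      rintro C (rfl | rfl)
      · exact hA
      · exact hB
    have h2 := Set.ncard_sdiff_add_ncard_of_subset h1 hG.fin
    rw [Set.ncard_pair hAB] at h2
    have h3 := Set.ncard_insert_le M (𝓖 \ {A, B})
    omega
  · intro v w' hw'
    by_cases hv : ∃ m, Pth f' G m A.u v
    · obtain ⟨m, hm⟩ := hv
      by_cases hvu : v = A.u
      · subst hvu
        rw [r2] at hw'
        cases hw'
      · obtain ⟨w'', hw''G, h1, -⟩ := r3 v m hm hvu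
        rw [h1] at hw'
        cases hw'
        exact Or.inl hw''G
    · push Not at hv
      right
      rw [← (hqoff' v hv).1]
      exact hw'
  · intro s hs C hC
    have hSM := hs M ((hmem M).mpr (Or.inl rfl))
    by_cases hCA : C = A
    · subst hCA
      refine ⟨?_, ?_, ?_, ?_, ?_⟩
      · intro v hv y hy
        have hyJ := hAt.par_mem hv hy
        rcases (a4 v hv y hyJ).mp (Or.inl hy) with h1 | h1
        · refine hSM.par v ((hMJ v).mpr (Or.inl hv)) y ?_
          show par v = some y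
          rw [hparA v hv]
          · exact h1
          · rintro rfl
            rw [a2] at h1
            cases h1
        · refine (hSM.par y ((hMJ y).mpr (Or.inl hyJ)) v ?_).symm
          show par y = some v
          rw [hparA y hyJ]
          · exact h1
          · rintro rfl
            rw [a2] at h1
            cases h1
      · intro v hv y hy
        by_cases hvx : v = x0
        · subst hvx
          rw [(hAp v hv).1, hw] at hy
          cases hy
          exact hSM.par v ((hMJ v).mpr (Or.inl hv)) w hparx0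
        · have hfv : f' v = some y := by rw [hf'ne v hvx, ← (hAp v hv).1]; exact hy
          by_cases hpv : ∃ m, Pth f' G m C.u v
          · obtain ⟨m, hm⟩ := hpv
            have hyG : y ∈ G := by
              have h1 := (hE0f.tail hm).1
              cases hk : n0 - m with
              | zero =>
                rw [hk] at h1
                exact absurd h1.zero hvx
              | succ k =>
                rw [hk] at h1
                obtain ⟨w', hw', hw'G, -⟩ := h1.succ_inv
                rw [hfv] at hw'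
                cases hw'
                exact hw'G
            have hyP := hm.snoc hfv hyG
            have hyA := (hpath _ y hyP).1
            rcases (r4 v (hAG v hv) y hyG).mp (Or.inl hfv) with h1 | h1
            · exact hSM.p v ((hMJ v).mpr (Or.inl hv)) y h1
            · exact (hSM.p y ((hMJ y).mpr (Or.inl hyA)) v h1).symm
          · push Not at hpv
            refine hSM.p v ((hMJ v).mpr (Or.inl hv)) y ?_
            show q v = some y
            rw [r1 v hpv]
            exact hfv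
      · intro v hv hpv
        have hpv' : p v = none := by rw [← (hAp v hv).1]; exact hpv
        have hvx : v ≠ x0 := by
          rintro rfl
          rw [hw] at hpv'
          cases hpv'
        have hoff : ∀ m, ¬ Pth f' G m C.u v := by
          intro m hm
          have h1 := (hE0f.tail hm).1
          cases hk : n0 - m with
          | zero =>
            rw [hk] at h1
            exact hvx h1.zero
          | succ k =>
            rw [hk] at h1
            obtain ⟨w', hw', -, -⟩ := h1.succ_inv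
            rw [hf'ne v hvx, hpv'] at hw'
            cases hw'
        obtain ⟨h1, h2, -, -⟩ := hqoff' v hoff
        have h3 := hSM.lp v ((hMJ v).mpr (Or.inl hv)) (by show q v = none; rw [h1]; exact hpv')
        have h4 : M.lp v = C.lp v := by
          show lq v = C.lp v
          rw [h2, (hAp v hv).2]
        rwa [h4] at h3
      · intro j hj
        rw [hG.st C hC] at hj
        cases hj
        have h3 := hSM.lp C.u ((hMJ C.u).mpr (Or.inl huA)) r2
        have h4 : M.lp C.u = i := hlqu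
        rwa [h4] at h3
      · intro hj
        rw [hG.st C hC] at hj
        cases hj
    by_cases hCB : C = B
    · subst hCB
      have hoffB : ∀ v ∈ C.J, v ∉ A.J := fun v hv h => hdisjAB v h hv
      refine ⟨?_, ?_, ?_, ?_, ?_⟩
      · intro v hv y hy
        refine hSM.par v ((hMJ v).mpr (Or.inr hv)) y ?_
        show par v = some y
        rw [hparB v hv]
        exact hy
      · intro v hv y hy
        refine hSM.p v ((hMJ v).mpr (Or.inr hv)) y ?_
        show q v = some y
        rw [(hqoff v (hoffB v hv)).1, ← (hG.p_eq C hC v hv).1]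
        exact hy
      · intro v hv hpv
        have h3 := hSM.lp v ((hMJ v).mpr (Or.inr hv)) (by
          show q v = none
          rw [(hqoff v (hoffB v hv)).1, ← (hG.p_eq C hC v hv).1]
          exact hpv)
        have h4 : M.lp v = C.lp v := by
          show lq v = C.lp v
          rw [(hqoff v (hoffB v hv)).2, (hG.p_eq C hC v hv).2]
        rwa [h4] at h3
      · intro j hj
        rw [hG.st C hC] at hj
        cases hj
        exact hSM.frc i rfl
      · intro hj
        rw [hG.st C hC] at hj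
        cases hj
    · exact hs C ((hmem C).mpr (Or.inr ⟨hC, hCA, hCB⟩))

end group

theorem merge_step : MergeStatement := by
  intro n
  induction n with
  | zero =>
    intro h τ
    refine ⟨0, 0, ?_⟩
    intro V _ _ t0 e i G p lp 𝓖 hG hn
    have h0 : 𝓖 = ∅ := by
      rw [← Set.ncard_eq_zero hG.fin]
      omega
    subst h0
    refine ⟨∅, by simp, by simp, by simp, ?_, by simp, by simp, by simp⟩
    intro v hv
    obtain ⟨C, hC, -⟩ := hG.cover v hv
    exact absurd hC (Set.notMem_empty C)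
  | succ n ih =>
    intro h τ
    obtain ⟨h1, τ1, H⟩ := ih (3 * h + 1) (2 * τ)
    refine ⟨max (2 * h) h1, max τ τ1, ?_⟩
    intro V _ _ t0 e i G p lp 𝓖 hG hn
    by_cases hgood : ∀ C ∈ 𝓖, ∀ n x, Ex C.p C.J n C.u x → C.p x = none ∧ C.lp x = !i
    · obtain ⟨𝓖', g1, g2⟩ := merge_base hG e hgood
      exact ⟨𝓖', fun C hC => (g1 C hC).mono (le_max_left _ _) (le_max_left _ _), g2⟩
    · push Not at hgood
      obtain ⟨A, hA, n0, x0, hE0, hbad⟩ := hgood
      obtain ⟨q, lq, 𝓖₁, hG₁, hlt, hq, hsat⟩ := merge_one hG hA hE0 (fun h => hbad h.1 h.2)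
      obtain ⟨𝓖', g1, g2, g3, g4, g5, g6, g7⟩ := H V t0 e i G q lq 𝓖₁ hG₁ (by omega)
      refine ⟨𝓖', fun C hC => (g1 C hC).mono (le_max_right _ _) (le_max_right _ _), g2, g3, g4, g5,
        ?_, fun s hs => hsat s (g7 s hs)⟩
      intro C hC v hv w hw
      rcases g6 C hC v hv w hw with h2 | h2
      · exact Or.inl h2
      · exact hq v w h2

end Pool.Agent.RF
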