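import Pool.Agent.Lib.MP_5f065d_co.Defs

set_option autoImplicit false

/-!
Chain configurations of a block and the derived decomposition (MP_5f065d_co, S09049).
-/

namespace Pool.Agent.RF

variable {V : Type}

/-- location of a leaf: `none` is the T-exit, `some y` is the exit vertex of the component of `y` -/
def Blk.loc (A : Blk V) (X : V → V) : Option V → V
  | none => A.u
  | some y => X y

/-- label of the exit edge of a leaf -/
def Blk.lb (A : Blk V) (X : V → V) : Option V → Option Bool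
  | none => A.st
  | some y => some (A.lp (X y))

/-- the leaf `d` is assigned to the centre `k` -/
def Lf (K : Finset V) (bot : V) (a : V → Option V) (a2 : Option V) (d : Option V) (k : V) : Prop :=
  (k ∈ K ∧ d = a k) ∨ (k = bot ∧ d = a2)

/-- a chain configuration -/
structure NF (A : Blk V) (X : V → V) (K : Finset V) (bot : V) (a : V → Option V)
    (a2 : Option V) : Prop where
  KJ : K ⊆ A.J
  botK : bot ∈ K
  chain : ∀ k ∈ K, Anc A.par A.J k bot
  side : ∀ k ∈ K, k ≠ bot → IsMeet A.par A.J (A.loc X (a k)) bot k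
  botm : IsMeet A.par A.J (A.loc X (a bot)) (A.loc X a2) bot
  inj : ∀ k ∈ K, ∀ k' ∈ K, a k = a k' → k = k'
  ne2 : ∀ k ∈ K, a k ≠ a2
  rng : ∀ y k, Lf K bot a a2 (some y) k → y ∈ K
  surj : ∀ y ∈ K, ∃ k, Lf K bot a a2 (some y) k
  surjn : ∃ k, Lf K bot a a2 none k
  Xinj : ∀ y ∈ K, ∀ y' ∈ K, X y = X y' → y = y'
  lab : ∀ y ∈ K, A.p (X y) = none
  free : A.st = none → a2 = none
  botlab : ∀ i, A.lb X (a bot) = some i → A.lb X a2 = some i → False

theorem Pth.mono_set {f : V → Option V} {J J' : Finset V} {n : ℕ} {v x : V} (h : Pth f J n v x)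
    (hJ : ∀ m y, m ≤ n → Pth f J m v y → y ∈ J') : Pth f J' n v x := by
  induction h with
  | refl hv => exact Pth.refl (hJ 0 _ le_rfl (Pth.refl hv))
  | @step n v w x h1 h2 h3 ih =>
    refine Pth.step (hJ 0 _ (by omega) (Pth.refl h1)) h2 (ih ?_)
    intro m y hm hy
    exact hJ (m + 1) y (by omega) (Pth.step h1 h2 hy)

section
variable {A : Blk V} {h : ℕ} (hA : A.Tree h)
include hA

theorem Blk.Tree.ex {v : V} (hv : v ∈ A.J) : ∃ n ≤ h, Ex A.par A.J n v A.z := by
  obtain ⟨n, hn, hp⟩ := hA.tree v hv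
  exact ⟨n, hn, hp, fun w hw => by rw [hA.pz] at hw; cases hw⟩

theorem Blk.Tree.antisymm {a b : V} (h1 : Anc A.par A.J a b) (h2 : Anc A.par A.J b a) : a = b := by
  obtain ⟨n, _, hn⟩ := hA.ex h1.mem_left
  exact Anc.antisymm hn h1 h2

/-- a proper ancestor is not a descendant of a child -/
theorem Blk.Tree.not_child {c k : V} (hc : c ∈ A.J) (hck : A.par c = some k) (hk : k ∈ A.J) :
    ¬ Anc A.par A.J c k := by
  intro h1
  have h2 : Anc A.par A.J k c := ⟨1, Pth.step hc hck (Pth.refl hk)⟩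
  have := hA.antisymm h1 h2
  subst this
  obtain ⟨n, _, hn⟩ := hA.ex hc
  have := hn.no_cycle (Pth.step hc hck (Pth.refl hk))
  omega

/-- child of `k` towards `w` -/
theorem Blk.Tree.child {k w : V} (h1 : Anc A.par A.J k w) (hne : k ≠ w) :
    ∃ c m, A.par c = some k ∧ Pth A.par A.J m w c := by
  obtain ⟨n, hn⟩ := h1
  cases n with
  | zero => exact absurd hn.zero.symm hne
  | succ n =>
    obtain ⟨c, h2, h3⟩ := hn.take (n := n) (m := 1)
    obtain ⟨w', hw', _, h4⟩ := h3.succ_inv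
    have := h4.zero
    subst this
    exact ⟨c, n, hw', h2⟩

end

section
variable [DecidableEq V] {A : Blk V} {h : ℕ} {X : V → V} {K : Finset V} {bot : V}
  {a : V → Option V} {a2 : Option V}

theorem Lf.cases_eq {d d' : Option V} {k : V} (hN : NF A X K bot a a2)
    (h1 : Lf K bot a a2 d k) (h2 : Lf K bot a a2 d' k) : d = d' ∨
      (k = bot ∧ ((d = a bot ∧ d' = a2) ∨ (d = a2 ∧ d' = a bot))) := by
  rcases h1 with ⟨_, rfl⟩ | ⟨rfl, rfl⟩ <;> rcases h2 with ⟨_, rfl⟩ | ⟨h3, rfl⟩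
  · exact Or.inl rfl
  · subst h3; exact Or.inr ⟨rfl, Or.inl ⟨rfl, rfl⟩⟩
  · exact Or.inr ⟨rfl, Or.inr ⟨rfl, rfl⟩⟩
  · exact Or.inl rfl

theorem Lf.memK {d : Option V} {k : V} (hN : NF A X K bot a a2) (h1 : Lf K bot a a2 d k) :
    k ∈ K := by
  rcases h1 with ⟨h, _⟩ | ⟨rfl, _⟩
  · exact h
  · exact hN.botK

/-- each leaf has only one centre -/
theorem Lf.unique {d : Option V} {k k' : V} (hN : NF A X K bot a a2)
    (h1 : Lf K bot a a2 d k) (h2 : Lf K bot a a2 d k') : k = k' := by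
  rcases h1 with ⟨h3, h4⟩ | ⟨rfl, h4⟩ <;> rcases h2 with ⟨h5, h6⟩ | ⟨rfl, h6⟩
  · exact hN.inj k h3 k' h5 (h4.symm.trans h6)
  · exact absurd (h4.symm.trans h6) (hN.ne2 k h3)
  · exact absurd (h6.symm.trans h4) (hN.ne2 k' h5)
  · rfl

theorem Lf.anc {d : Option V} {k : V} (hN : NF A X K bot a a2) (h1 : Lf K bot a a2 d k) :
    Anc A.par A.J k (A.loc X d) := by
  rcases h1 with ⟨h, rfl⟩ | ⟨rfl, rfl⟩
  · by_cases hk : k = bot
    · subst hk; exact hN.botm.1
    · exact (hN.side k h hk).1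
  · exact hN.botm.2.1

theorem Lf.anc_bot {d : Option V} {k c : V} (hN : NF A X K bot a a2) (h1 : Lf K bot a a2 d k)
    (hc : Anc A.par A.J c (A.loc X d)) (hcb : Anc A.par A.J c bot) : Anc A.par A.J c k := by
  rcases h1 with ⟨h, rfl⟩ | ⟨rfl, rfl⟩
  · by_cases hk : k = bot
    · subst hk; exact hcb
    · exact (hN.side k h hk).2.2 c hc hcb
  · exact hcb

theorem Lf.two {d d' : Option V} {k c : V} (hN : NF A X K bot a a2) (h1 : Lf K bot a a2 d k)
    (h2 : Lf K bot a a2 d' k) (hne : d ≠ d') (hc : Anc A.par A.J c (A.loc X d))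
    (hc' : Anc A.par A.J c (A.loc X d')) : k = bot ∧ Anc A.par A.J c bot := by
  rcases Lf.cases_eq hN h1 h2 with h3 | ⟨rfl, ⟨rfl, rfl⟩ | ⟨rfl, rfl⟩⟩
  · exact absurd h3 hne
  · exact ⟨rfl, hN.botm.2.2 c hc hc'⟩
  · exact ⟨rfl, hN.botm.2.2 c hc' hc⟩

variable (hA : A.Tree h)
include hA

theorem Lf.at_centre {d : Option V} {k : V} (hN : NF A X K bot a a2)
    (h1 : Lf K bot a a2 d k) (hd : A.loc X d ∈ K) : A.loc X d = k := by
  have h2 := hN.chain _ hd
  have h3 := Lf.anc_bot hN h1 (Anc.refl (hN.KJ hd)) h2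
  exact hA.antisymm h3 (Lf.anc hN h1)

/-- the top of the component of a leaf which is not a centre -/
theorem Lf.top {d : Option V} {k : V} (hN : NF A X K bot a a2)
    (h1 : Lf K bot a a2 d k) (hd : A.loc X d ∉ K) :
    ∃ m c, A.par c = some k ∧ Ex A.par (A.J \ K) m (A.loc X d) c := by
  have hk := Lf.memK hN h1
  have h2 := Lf.anc hN h1
  obtain ⟨c, m, hc, hp⟩ := hA.child h2 (by rintro rfl; exact hd hk)
  have hcJ := hp.right_mem
  have hkJ := hN.KJ hk
  refine ⟨m, c, hc, hp.mono_set ?_, ?_⟩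
  · intro m' y hm' hy
    rw [Finset.mem_sdiff]
    refine ⟨hy.right_mem, fun hyK => ?_⟩
    obtain ⟨j, rfl⟩ := Nat.exists_eq_add_of_le hm'
    have h3 : Pth A.par A.J j y c := hy.split hp
    have h4 : Anc A.par A.J y k := Lf.anc_bot hN h1 ⟨m', hy⟩ (hN.chain y hyK)
    exact hA.not_child hcJ hc hkJ (Anc.trans ⟨j, h3⟩ h4)
  · intro w hw
    rw [hc] at hw
    cases hw
    simp [hk]

/-- spine child -/
theorem NF.spine (hN : NF A X K bot a a2) {k : V} (hk : k ∈ K) (hkb : k ≠ bot) :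
    ∃ c, A.par c = some k ∧ Anc A.par A.J c bot := by
  obtain ⟨c, m, hc, hp⟩ := hA.child (hN.chain k hk) hkb
  exact ⟨c, hc, ⟨m, hp⟩⟩

omit hA in
/-- from a vertex `v` down to a non-centre ancestor `c`: either the walk avoids `K`, or there is a
last centre on it -/
theorem last_centre {f : V → Option V} {J : Finset V} {n : ℕ} {v c : V} (hp : Pth f J n v c)
    (hc : c ∉ K) : Pth f (J \ K) n v c ∨
      ∃ k ∈ K, ∃ w ∈ J \ K, ∃ m m', f k = some w ∧ Pth f J m' v k ∧ Pth f (J \ K) m w c := by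
  induction hp with
  | refl hv => exact Or.inl (Pth.refl (by rw [Finset.mem_sdiff]; exact ⟨hv, hc⟩))
  | @step n v w x h1 h2 h3 ih =>
    rcases ih hc with h4 | ⟨k, hk, w', hw', m, m', h5, h6, h7⟩
    · by_cases hv : v ∈ K
      · exact Or.inr ⟨v, hv, w, h4.left_mem, n, 0, h2, Pth.refl h1, h4⟩
      · exact Or.inl (Pth.step (by rw [Finset.mem_sdiff]; exact ⟨h1, hv⟩) h2 h4)
    · exact Or.inr ⟨k, hk, w', hw', m, m' + 1, h5, Pth.step h1 h2 h6, h7⟩

omit hA in
theorem Pth.of_sdiff {f : V → Option V} {J : Finset V} {n : ℕ} {v c : V}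
    (hp : Pth f (J \ K) n v c) : Pth f J n v c :=
  hp.mono_set (fun m y _ hy => (Finset.mem_sdiff.mp hy.right_mem).1)

/-- case B is unique -/
theorem NF.B_unique (hN : NF A X K bot a a2) {k k' w w' c : V} {m m' : ℕ} (hk : k ∈ K)
    (hk' : k' ∈ K) (h1 : A.par k = some w) (h1' : A.par k' = some w')
    (h2 : Ex A.par (A.J \ K) m w c) (h2' : Ex A.par (A.J \ K) m' w' c) : k = k' := by
  -- wlog by symmetry
  have key : ∀ {k k' w w' : V} {m m' : ℕ}, k ∈ K → k' ∈ K → A.par k = some w →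
      A.par k' = some w' → Ex A.par (A.J \ K) m w c → Ex A.par (A.J \ K) m' w' c →
      Anc A.par A.J k k' → k = k' := by
    intro k k' w w' m m' hk hk' h1 h1' h2 h2' hkk
    by_contra hne
    obtain ⟨n, hn⟩ := hkk
    cases n with
    | zero => exact hne hn.zero.symm
    | succ n =>
      obtain ⟨w'', hw'', _, h3⟩ := hn.succ_inv
      rw [h1'] at hw''
      cases hw''
      -- walk from w' passes k
      have h4 : Pth A.par A.J m' w' c := h2'.1.of_sdiff
      have h5 : Pth A.par A.J (1 + m) k c :=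
        (Pth.step (hN.KJ hk) h1 (Pth.refl h2.1.of_sdiff.left_mem)).trans h2.1.of_sdiff
      have hle : n ≤ m' := by
        by_contra hlt
        push Not at hlt
        obtain ⟨j, rfl⟩ := Nat.exists_eq_add_of_lt hlt
        have e : m' + j + 1 = m' + (j + 1) := by omega
        rw [e] at h3
        have h6 : Pth A.par A.J (j + 1) c k := h4.split h3
        obtain ⟨n0, _, hn0⟩ := hA.ex h4.right_mem
        have := hn0.no_cycle (h6.trans h5)
        omega
      obtain ⟨j, rfl⟩ := Nat.exists_eq_add_of_le hle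
      obtain ⟨y, h7, h8⟩ := h2'.1.take (n := n) (m := j)
      have := h7.of_sdiff.det h3
      subst this
      have := h7.right_mem
      rw [Finset.mem_sdiff] at this
      exact this.2 hk
  rcases (hN.chain k hk).total (hN.chain k' hk') with h3 | h3
  · exact key hk hk' h1 h1' h2 h2' h3
  · exact (key hk' hk h1' h1 h2' h2 h3).symm

/-- a component cannot contain both a leaf and the parent of a centre -/
theorem NF.not_AB (hN : NF A X K bot a a2) {d : Option V} {k k' w c : V} {m m' : ℕ}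
    (h1 : Lf K bot a a2 d k) (h2 : Ex A.par (A.J \ K) m (A.loc X d) c) (hk' : k' ∈ K)
    (h3 : A.par k' = some w) (h4 : Ex A.par (A.J \ K) m' w c) : False := by
  have hd : A.loc X d ∉ K := (Finset.mem_sdiff.mp h2.1.left_mem).2
  obtain ⟨m1, c1, hc1, h5⟩ := Lf.top hA hN h1 hd
  have := (h2.det h5).2
  subst this
  have hkJ := hN.KJ (Lf.memK hN h1)
  have hcJ := h2.1.of_sdiff.right_mem
  have h6 : Anc A.par A.J c k' :=
    ⟨1 + m', (Pth.step (hN.KJ hk') h3 (Pth.refl h4.1.of_sdiff.left_mem)).trans h4.1.of_sdiff⟩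
  have h7 : Anc A.par A.J c bot := h6.trans (hN.chain k' hk')
  have h8 := Lf.anc_bot hN h1 ⟨m, h2.1.of_sdiff⟩ h7
  exact hA.not_child hcJ hc1 hkJ h8

/-- case A is unique -/
theorem NF.A_unique (hN : NF A X K bot a a2) {d d' : Option V} {k k' c : V} {m m' : ℕ}
    (h1 : Lf K bot a a2 d k) (h2 : Ex A.par (A.J \ K) m (A.loc X d) c)
    (h1' : Lf K bot a a2 d' k') (h2' : Ex A.par (A.J \ K) m' (A.loc X d') c) : d = d' := by
  have hd : A.loc X d ∉ K := (Finset.mem_sdiff.mp h2.1.left_mem).2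
  have hd' : A.loc X d' ∉ K := (Finset.mem_sdiff.mp h2'.1.left_mem).2
  obtain ⟨m1, c1, hc1, h5⟩ := Lf.top hA hN h1 hd
  have := (h2.det h5).2
  subst this
  obtain ⟨m2, c2, hc2, h6⟩ := Lf.top hA hN h1' hd'
  have := (h2'.det h6).2
  subst this
  rw [hc1] at hc2
  cases hc2
  by_contra hne
  obtain ⟨rfl, h7⟩ := Lf.two hN h1 h1' hne ⟨m, h2.1.of_sdiff⟩ ⟨m', h2'.1.of_sdiff⟩
  exact hA.not_child h2.1.of_sdiff.right_mem hc1 (hN.KJ hN.botK) h7

end

end Pool.Agent.RF
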