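import Pool.Agent.Lib.MP_5f065d_co.NF

set_option autoImplicit false

/-!
Statements of the pieces of the proof of S09049 (MP_5f065d_co).
-/

namespace Pool.Agent.RF

/-- T-5f-RER: a block can be re-rooted. -/
def RerootStatement : Prop :=
  ∀ (V : Type) [Fintype V] [DecidableEq V] (C : Blk V) (h : ℕ), C.Tree h → ∀ z' ∈ C.J,
    ∃ par' : V → Option V, Blk.Tree { C with par := par', z := z' } (2 * h) ∧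
      (∀ a ∈ C.J, ∀ b ∈ C.J, (C.par a = some b ∨ C.par b = some a) ↔
        (par' a = some b ∨ par' b = some a))

/-- T-5f-COL: colouring step. -/
def ColourStatement : Prop :=
  ∀ h : ℕ, ∃ m : ℕ, ∀ (τ N : ℕ) (V : Type) [Fintype V] [DecidableEq V]
    (t0 : V → Option V) (e : V → ℕ) (μ : ℕ ×ₗ (ℕ ×ₗ ℕ∞)),
    (∀ 𝓑 : Set (Blk V), Fam t0 e h τ 𝓑 → (∀ A ∈ 𝓑, A.meas e ≤ μ) →
      (∀ A ∈ 𝓑, A.Lab (h + 1)) → Sol 𝓑 N) →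
    ∀ 𝓑 : Set (Blk V), Fam t0 e h τ 𝓑 → (∀ A ∈ 𝓑, A.meas e ≤ μ) → Sol 𝓑 (m * (N + 1))

/-- A group of forced blocks with the same label `i`, coming from the same block; `G` = union of the
vertex sets, `p`, `lp` second out-edges (`p v = none`: labelled exit). -/
structure Grp {V : Type} (t0 : V → Option V) (i : Bool) (G : Finset V) (p : V → Option V)
    (lp : V → Bool) (h τ : ℕ) (𝓖 : Set (Blk V)) : Prop where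
  fin : 𝓖.Finite
  st : ∀ C ∈ 𝓖, C.st = some i
  tree : ∀ C ∈ 𝓖, C.Tree h
  sub : ∀ C ∈ 𝓖, ∀ v ∈ C.J, v ∈ G
  cover : ∀ v ∈ G, ∃ C ∈ 𝓖, v ∈ C.J
  disj : ∀ C ∈ 𝓖, ∀ C' ∈ 𝓖, ∀ v, v ∈ C.J → v ∈ C'.J → C = C'
  p_eq : ∀ C ∈ 𝓖, ∀ v ∈ C.J, C.p v = p v ∧ C.lp v = lp v
  ex : ∀ v ∈ G, ∃ n x, Ex p G n v x
  spec : ∀ C ∈ 𝓖, ∀ n x, Ex p G n C.u x → p x = none ∧ lp x = !i
  dist : ∀ C ∈ 𝓖, ∀ C' ∈ 𝓖, ∀ n n' x, Ex p G n C.u x → Ex p G n' C'.u x → C = C'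
  t0in : ∀ C ∈ 𝓖, ∀ v ∈ C.J, ∀ w ∈ C.J, t0 v = some w → C.par v = some w ∨ C.par w = some v
  t0cr : ∀ C ∈ 𝓖, ∀ v ∈ C.J, ∀ w ∈ G, t0 v = some w → w ∈ C.J
  tops : ∀ C ∈ 𝓖, RF.tops t0 C.J ≤ τ

/-- T-5f-MRG: merging the blocks of a group until all of them are well-formed forced blocks. -/
def MergeStatement : Prop :=
  ∀ n h τ : ℕ, ∃ h' τ' : ℕ, ∀ (V : Type) [Fintype V] [DecidableEq V]
    (t0 : V → Option V) (e : V → ℕ) (i : Bool) (G : Finset V) (p : V → Option V) (lp : V → Bool)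
    (𝓖 : Set (Blk V)), Grp t0 i G p lp h τ 𝓖 → 𝓖.ncard ≤ n →
    ∃ 𝓖' : Set (Blk V), (∀ C ∈ 𝓖', C.WF t0 e h' τ') ∧ (∀ C ∈ 𝓖', C.st = some i) ∧
      (∀ C ∈ 𝓖', ∀ v ∈ C.J, v ∈ G) ∧ (∀ v ∈ G, ∃ C ∈ 𝓖', v ∈ C.J) ∧
      (∀ C ∈ 𝓖', ∀ C' ∈ 𝓖', ∀ v, v ∈ C.J → v ∈ C'.J → C = C') ∧
      (∀ C ∈ 𝓖', ∀ v ∈ C.J, ∀ w, C.p v = some w → w ∈ G ∨ p v = some w) ∧
      (∀ s, (∀ C ∈ 𝓖', Sat s C) → ∀ C ∈ 𝓖, Sat s C)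

/-- T-5f-NF: chain configurations exist (for forced blocks possibly after a swap). -/
def NFStatement : Prop :=
  ∀ (V : Type) [Fintype V] [DecidableEq V] (A : Blk V) (h : ℕ), A.Tree h →
    (∀ v ∈ A.J, ∃ n x, Ex A.p A.J n v x) →
    (∀ i, A.st = some i → ∀ n x, Ex A.p A.J n A.u x → A.p x = none ∧ A.lp x = !i) →
    A.Lab (h + 1) →
    ∃ (A₁ : Blk V) (X : V → V) (K : Finset V) (bot : V) (a : V → Option V) (a2 : Option V),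
      A₁.J = A.J ∧ A₁.z = A.z ∧ A₁.par = A.par ∧ (A.st = none → A₁ = A) ∧
      (A₁.st = none → A.st = none) ∧ A₁.u ∈ A.J ∧
      (∀ v ∈ A.J, ∃ n, Ex A₁.p A.J n v (X v)) ∧
      (∀ i, A₁.st = some i → A₁.p (X A₁.u) = none ∧ A₁.lp (X A₁.u) = !i) ∧
      (∀ v ∈ A.J, ∀ w, A₁.p v = some w → w ∈ A.J ∨ A.p v = some w) ∧
      (∀ s, Sat s A₁ → Sat s A) ∧
      NF A₁ X K bot a a2

/-- NF + AC: every well-formed block whose designated exits are labelled can be decomposed (after a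
swap). -/
def NFDecStatement : Prop :=
  ∀ (V : Type) [Fintype V] [DecidableEq V] (t0 : V → Option V) (e : V → ℕ) (h τ : ℕ) (A : Blk V),
    A.WF t0 e h τ → A.Lab (h + 1) →
    ∃ A₁ : Blk V, A₁.WF t0 e h τ ∧ A₁.J = A.J ∧ A₁.z = A.z ∧ A₁.meas e ≤ A.meas e ∧
      (∀ s, Sat s A₁ → Sat s A) ∧
      (∀ v ∈ A.J, ∀ w, A₁.p v = some w → w ∈ A.J ∨ A.p v = some w) ∧
      ∃ K cls q lq nn 𝓛 te, Dec t0 A₁ h (2 * h + 3) K cls q lq nn 𝓛 te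

/-- T-5f-GLUE: decomposition step for a family. -/
def DecompStatement : Prop :=
  ∀ h τ : ℕ, ∃ h' τ' : ℕ, ∀ N : ℕ, ∃ N' : ℕ, ∀ (V : Type) [Fintype V] [DecidableEq V]
    (t0 : V → Option V) (e : V → ℕ) (μ : ℕ ×ₗ (ℕ ×ₗ ℕ∞)),
    (∀ 𝓑 : Set (Blk V), Fam t0 e h' τ' 𝓑 → (∀ A ∈ 𝓑, A.meas e < μ) → Sol 𝓑 N) →
    ∀ 𝓑 : Set (Blk V), Fam t0 e h τ 𝓑 → (∀ A ∈ 𝓑, A.meas e ≤ μ) →
      (∀ A ∈ 𝓑, A.Lab (h + 1)) → Sol 𝓑 N'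

/-- one stage = colouring + decomposition -/
def StageStatement : Prop :=
  ∀ h τ : ℕ, ∃ h' τ' : ℕ, ∀ N : ℕ, ∃ N' : ℕ, ∀ (V : Type) [Fintype V] [DecidableEq V]
    (t0 : V → Option V) (e : V → ℕ) (μ : ℕ ×ₗ (ℕ ×ₗ ℕ∞)),
    (∀ 𝓑 : Set (Blk V), Fam t0 e h' τ' 𝓑 → (∀ A ∈ 𝓑, A.meas e < μ) → Sol 𝓑 N) →
    ∀ 𝓑 : Set (Blk V), Fam t0 e h τ 𝓑 → (∀ A ∈ 𝓑, A.meas e ≤ μ) → Sol 𝓑 N'

theorem stage_of (hc : ColourStatement) (hd : DecompStatement) : StageStatement := by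
  intro h τ
  obtain ⟨h', τ', H⟩ := hd h τ
  obtain ⟨m, hm⟩ := hc h
  refine ⟨h', τ', fun N => ?_⟩
  obtain ⟨N'', hN⟩ := H N
  refine ⟨m * (N'' + 1), ?_⟩
  intro V _ _ t0 e μ hyp 𝓑 hF hμ
  exact hm τ N'' V t0 e μ (fun 𝓑' hF' hμ' hL => hN V t0 e μ hyp 𝓑' hF' hμ' hL) 𝓑 hF hμ

/-- T-5f-MAIN: the final theorem from the stage. -/
def MainStatement : Prop :=
  ∀ d : ℕ, 1 ≤ d → ∃ f : ℕ, ∀ (V : Type) [Fintype V] (G F₁ F₂ : SimpleGraph V),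
      F₁.IsAcyclic → F₂.IsAcyclic →
      (∀ u v : V, F₂.Reachable u v → F₂.dist u v ≤ d) →
      G = F₁ ⊔ F₂ →
      ∃ H₁ H₂ : SimpleGraph V, H₁ ⊔ H₂ = G ∧ Disjoint H₁ H₂ ∧
        H₁.IsAcyclic ∧ H₂.IsAcyclic ∧
        (∀ u v : V, H₁.Reachable u v → H₁.dist u v ≤ f) ∧
        (∀ u v : V, H₂.Reachable u v → H₂.dist u v ≤ f)

end Pool.Agent.RF
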