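import Pool.Agent.Lib.MP_5f065d_co.AC
import Pool.Agent.Lib.MP_5f065d_co.Statements

set_option autoImplicit false

/-!
NF + AC (MP_5f065d_co, S09049).
-/

namespace Pool.Agent.RF

theorem nfdec (hnf : NFStatement) : NFDecStatement := by
  intro V _ _ t0 e h τ A hW hL
  obtain ⟨A₁, X, K, bot, a, a2, e1, e2, e3, e4, e5, e6, e7, e8, e9, e10, hN⟩ :=
    hnf V A h hW.tree hW.ex hW.frc hL
  have hTree : A₁.Tree h :=
    { zJ := by rw [e1, e2]; exact hW.tree.zJ
      pz := by rw [e2, e3]; exact hW.tree.pz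
      tree := by rw [e1, e2, e3]; exact hW.tree.tree
      uJ := by rw [e1]; exact e6 }
  have ht : ∀ v ∈ A₁.J, ∀ w ∈ A₁.J, t0 v = some w → A₁.par v = some w ∨ A₁.par w = some v := by
    rw [e1, e3]; exact hW.t0in
  have hX : ∀ v ∈ A₁.J, ∃ n, Ex A₁.p A₁.J n v (X v) := by
    rw [e1]; exact e7
  obtain ⟨cls, q, lq, nn, 𝓛, te, hD⟩ := ac t0 h A₁ hTree X K bot a a2 hX e8 hN ht
  refine ⟨A₁, ?_, e1, e2, ?_, e10, e9, K, cls, q, lq, nn, 𝓛, te, hD⟩
  · exact
      { tree := hTree
        ex := fun v hv => by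
          obtain ⟨n, hn⟩ := hX v hv
          exact ⟨n, _, hn⟩
        frc := by
          intro i hi n x hx
          obtain ⟨m, hm⟩ := hX A₁.u (by rw [e1]; exact e6)
          have := (hx.det hm).2
          rw [this]
          exact e8 i hi
        zmin := by rw [e1, e2]; exact hW.zmin
        t0in := ht
        tops := by rw [e1]; exact hW.tops }
  · by_cases hst : A.st = none
    · rw [e4 hst]
    · have h1 : A₁.st ≠ none := fun h => hst (e5 h)
      have h2 : A₁.meas e = A.meas e := by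
        unfold Blk.meas
        rw [if_neg hst, if_neg h1, e1]
      rw [h2]

end Pool.Agent.RF
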