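import Mathlib

set_option autoImplicit false

/-!
Abstract chain lemma for MP_5f065d_co (S09049).  `α` is a finite tree order (meet semilattice in which
the elements below a given one form a chain).  Leaves are described by descriptors `α ⊕ Bool`:
`inl y` is the token of `y` (located at `loc y`, label `lab (loc y)`), `inr i` is the special leaf `e i`
(label `i`).
-/

namespace Pool.Agent.RF

section
variable {α : Type*} [SemilatticeInf α]

/-- location of a descriptor -/
def dl (e : Bool → α) (loc : α → α) : α ⊕ Bool → α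
  | Sum.inl y => loc y
  | Sum.inr i => e i

/-- label of a descriptor -/
def dlab (loc : α → α) (lab : α → Bool) : α ⊕ Bool → Bool
  | Sum.inl y => lab (loc y)
  | Sum.inr i => i

/-- the descriptor `d` is used by the configuration -/
def Used (K : Finset α) (a : α → α ⊕ Bool) (a2 : α ⊕ Bool) (d : α ⊕ Bool) : Prop :=
  (∃ k ∈ K, a k = d) ∨ a2 = d

/-- A good configuration: a chain `K` with largest element `bot`; each `k ∈ K` gets the leaf `a k`,
`bot` gets in addition the leaf `a2`. -/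
structure Good (e : Bool → α) (S : Set α) (loc : α → α) (lab : α → Bool)
    (K : Finset α) (bot : α) (a : α → α ⊕ Bool) (a2 : α ⊕ Bool) : Prop where
  botK : bot ∈ K
  chain : ∀ k ∈ K, k ≤ bot
  side : ∀ k ∈ K, k ≠ bot → dl e loc (a k) ⊓ bot = k
  botm : dl e loc (a bot) ⊓ dl e loc a2 = bot
  botlab : dlab loc lab (a bot) ≠ dlab loc lab a2
  inj : ∀ k ∈ K, ∀ k' ∈ K, a k = a k' → k = k'
  ne2 : ∀ k ∈ K, a k ≠ a2
  rng : ∀ y, Used K a a2 (Sum.inl y) → y ∈ K ∧ y ∉ S
  surj : ∀ y ∈ K, y ∉ S → Used K a a2 (Sum.inl y)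
  specS : (∃ y ∈ K, y ∈ S) → ∀ i, Used K a a2 (Sum.inr i)
  specN : (∀ y ∈ K, y ∉ S) → ∃ i, Used K a a2 (Sum.inr i) ∧ ¬ Used K a a2 (Sum.inr (!i))
  oneS : ∀ y ∈ K, ∀ y' ∈ K, y ∈ S → y' ∈ S → y = y'
  locinj : ∀ y ∈ K, ∀ y' ∈ K, y ∉ S → y' ∉ S → loc y = loc y' → y = y'
  comp : bot ≤ e true ⊓ e false ∨ e true ⊓ e false ≤ bot

/-- closure step for the set of vertices that may be queried -/
def clo (loc : α → α) (A : Set α) : Set α := A ∪ {y | ∃ x ∈ A, y ≤ loc x}

/-- The chain lemma (target of this file):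
`ht` is a strictly monotone height function bounded by `h`. -/
def SLStatement : Prop :=
  ∀ (α : Type) [SemilatticeInf α] [Fintype α],
    (∀ a b c : α, a ≤ c → b ≤ c → a ≤ b ∨ b ≤ a) →
    ∀ (ht : α → ℕ) (h : ℕ), (∀ a b, a < b → ht a < ht b) → (∀ a, ht a ≤ h) →
    ∀ (loc : α → α) (lab : α → Bool) (n : ℕ) (e : Bool → α) (S : Set α),
      h + 1 ≤ n + ht (e true ⊓ e false) →
      ∃ K bot a a2, Good e S loc lab K bot a a2 ∧
        ∀ k ∈ K, k ∈ (clo loc)^[n] ({y | y ≤ e true} ∪ {y | y ≤ e false})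
end

end Pool.Agent.RF
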