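import Pool.Agent.Lib.MP_5f065d_co.Statements
import Pool.Agent.Lib.MP_5f065d_co.SLDefs

set_option autoImplicit false

/-!
Existence of chain configurations (MP_5f065d_co, S09049), from the chain lemma.
-/

namespace Pool.Agent.RF

open Classical in
/-- depth of a vertex in the tree of the block -/
noncomputable def Blk.dep {V : Type} (A : Blk V) (v : V) : ℕ :=
  if h : ∃ n, Ex A.par A.J n v A.z then h.choose else 0

section
variable {V : Type} {A : Blk V} {h : ℕ} (hA : A.Tree h)
include hA

theorem Blk.Tree.dep_spec {v : V} (hv : v ∈ A.J) : Ex A.par A.J (A.dep v) v A.z := by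
  have h1 : ∃ n, Ex A.par A.J n v A.z := by
    obtain ⟨n, _, hn⟩ := hA.ex hv
    exact ⟨n, hn⟩
  unfold Blk.dep
  rw [dif_pos h1]
  exact h1.choose_spec

theorem Blk.Tree.dep_le {v : V} (hv : v ∈ A.J) : A.dep v ≤ h := by
  obtain ⟨n, hn, h2⟩ := hA.ex hv
  have := (hA.dep_spec hv).det h2
  omega

theorem Blk.Tree.dep_lt {a b : V} (hab : Anc A.par A.J a b) (hne : a ≠ b) :
    A.dep a < A.dep b := by
  obtain ⟨n, hn⟩ := hab
  have hb := hA.dep_spec hn.left_mem
  have ha := hA.dep_spec hn.right_mem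
  have h1 := (hb.tail hn).det ha
  have h2 := (hb.le hn).1
  have h3 : n ≠ 0 := by
    rintro rfl
    exact hne hn.zero.symm
  omega

theorem Blk.Tree.root_anc {v : V} (hv : v ∈ A.J) : Anc A.par A.J A.z v :=
  ⟨_, (hA.dep_spec hv).1⟩

theorem Blk.Tree.exists_meet {a b : V} (ha : a ∈ A.J) (hb : b ∈ A.J) :
    ∃ m, IsMeet A.par A.J a b m := by
  classical
  let C := A.J.filter (fun c => Anc A.par A.J c a ∧ Anc A.par A.J c b)
  have hne : C.Nonempty := ⟨A.z, by
    simp only [C, Finset.mem_filter]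
    exact ⟨hA.zJ, hA.root_anc ha, hA.root_anc hb⟩⟩
  obtain ⟨m, hm, hmax⟩ := C.exists_max_image A.dep hne
  simp only [C, Finset.mem_filter] at hm hmax
  refine ⟨m, hm.2.1, hm.2.2, fun c hca hcb => ?_⟩
  rcases hca.total hm.2.1 with h1 | h1
  · exact h1
  · by_cases hmc : m = c
    · subst hmc
      exact h1
    · exfalso
      have h2 := hA.dep_lt h1 hmc
      have h3 := hmax c ⟨hca.mem_left, hca, hcb⟩
      omega

end

/-- the meet of two vertices, as a function -/
noncomputable def mt {V : Type} (par : V → Option V) (J : Finset V) (a b : V) : V :=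
  open Classical in if h : ∃ m, IsMeet par J a b m then h.choose else b

theorem Blk.Tree.mt_spec {V : Type} {A : Blk V} {h : ℕ} (hA : A.Tree h) {a b : V}
    (ha : a ∈ A.J) (hb : b ∈ A.J) : IsMeet A.par A.J a b (mt A.par A.J a b) := by
  have h1 := hA.exists_meet ha hb
  unfold mt
  rw [dif_pos h1]
  exact h1.choose_spec

/-- the exit vertex, as a function -/
theorem exit_fun {V : Type} {f : V → Option V} {J : Finset V}
    (hex : ∀ v ∈ J, ∃ n x, Ex f J n v x) :
    ∃ X : V → V, (∀ v ∈ J, ∃ n, Ex f J n v (X v)) := by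
  classical
  refine ⟨fun v => if h : ∃ x n, Ex f J n v x then h.choose else v, fun v hv => ?_⟩
  obtain ⟨n, x, h1⟩ := hex v hv
  have h2 : ∃ x n, Ex f J n v x := ⟨x, n, h1⟩
  simp only [dif_pos h2]
  exact h2.choose_spec

theorem Des.mono {V : Type} {A : Blk V} {k : ℕ} {y : V} (h : Des A 0 y) : Des A k y := by
  induction k with
  | zero => exact h
  | succ k ih => exact Or.inl ih

/-! ### The free case -/

theorem nf_free {V : Type} [Fintype V] [DecidableEq V] (A : Blk V) (h : ℕ) (hA : A.Tree h)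
    (X : V → V) (hX : ∀ v ∈ A.J, ∃ n, Ex A.p A.J n v (X v))
    (hst : A.st = none) (hLab : A.Lab (h + 1)) :
    ∃ (K : Finset V) (bot : V) (a : V → Option V) (a2 : Option V), NF A X K bot a a2 := by
  classical
  have hXJ : ∀ v ∈ A.J, X v ∈ A.J := by
    intro v hv
    obtain ⟨n, hn⟩ := hX v hv
    exact hn.right_mem
  let f : V → V := fun y => if y ∈ A.J then mt A.par A.J (X y) A.u else A.u
  have hfm : ∀ y ∈ A.J, IsMeet A.par A.J (X y) A.u (f y) := by
    intro y hy
    simp only [f, if_pos hy]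
    exact hA.mt_spec (hXJ y hy) hA.uJ
  have hfZ : ∀ y, Anc A.par A.J (f y) A.u := by
    intro y
    by_cases hy : y ∈ A.J
    · exact (hfm y hy).2.1
    · simp only [f, if_neg hy]
      exact Anc.refl hA.uJ
  -- periodic points
  let P : Set V := Function.periodicPts f
  have hPZ : ∀ y ∈ P, Anc A.par A.J y A.u := by
    intro y hy
    obtain ⟨x, _, hx⟩ := (Function.bijOn_periodicPts f).surjOn hy
    rw [← hx]
    exact hfZ x
  have hPne : P.Nonempty := by
    have h1 : ¬ Function.Injective (fun n : ℕ => f^[n] A.u) := not_injective_infinite_finite _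
    have h2 : ∃ m n : ℕ, m < n ∧ f^[m] A.u = f^[n] A.u := by
      unfold Function.Injective at h1
      push Not at h1
      obtain ⟨m, n, h3, h4⟩ := h1
      rcases lt_or_gt_of_ne h4 with h5 | h5
      · exact ⟨m, n, h5, h3⟩
      · exact ⟨n, m, h5, h3.symm⟩
    obtain ⟨m, n, hmn, he⟩ := h2
    refine ⟨f^[m] A.u, ?_⟩
    refine Function.mk_mem_periodicPts (n := n - m) (by omega) ?_
    show f^[n - m] (f^[m] A.u) = f^[m] A.u
    rw [← Function.iterate_add_apply]
    have e : n - m + m = n := by omega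
    rw [e]
    exact he.symm
  let K : Finset V := Finset.univ.filter (fun y => y ∈ P)
  have hK : ∀ y, y ∈ K ↔ y ∈ P := by intro y; simp [K]
  have hKJ : ∀ y ∈ K, y ∈ A.J := fun y hy => (hPZ y ((hK y).1 hy)).mem_left
  obtain ⟨bot, hbK, hbmax⟩ := K.exists_max_image A.dep (by
    obtain ⟨y, hy⟩ := hPne
    exact ⟨y, (hK y).2 hy⟩)
  have hchain : ∀ k ∈ K, Anc A.par A.J k bot := by
    intro k hk
    rcases (hPZ k ((hK k).1 hk)).total (hPZ bot ((hK bot).1 hbK)) with h1 | h1
    · exact h1
    · by_cases hbk : bot = k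
      · subst hbk
        exact h1
      · exfalso
        have h2 := hA.dep_lt h1 hbk
        have h3 := hbmax k hk
        omega
  have hsurj : ∀ k ∈ K, ∃ y ∈ K, f y = k := by
    intro k hk
    obtain ⟨y, hy, hy2⟩ := (Function.bijOn_periodicPts f).surjOn ((hK k).1 hk)
    exact ⟨y, (hK y).2 hy, hy2⟩
  have hinj : ∀ y ∈ K, ∀ y' ∈ K, f y = f y' → y = y' := by
    intro y hy y' hy' he
    exact (Function.bijOn_periodicPts f).injOn ((hK y).1 hy) ((hK y').1 hy') he
  have hmaps : ∀ y ∈ K, f y ∈ K := by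
    intro y hy
    exact (hK _).2 ((Function.bijOn_periodicPts f).mapsTo ((hK y).1 hy))
  let g : V → V := fun k => if hk : ∃ y ∈ K, f y = k then hk.choose else k
  have hg : ∀ k ∈ K, g k ∈ K ∧ f (g k) = k := by
    intro k hk
    simp only [g, dif_pos (hsurj k hk)]
    exact (hsurj k hk).choose_spec
  refine ⟨K, bot, fun k => some (g k), none, ?_⟩
  have hmeet : ∀ k ∈ K, IsMeet A.par A.J (X (g k)) A.u k := by
    intro k hk
    have h1 := hfm (g k) (hKJ _ (hg k hk).1)
    rw [(hg k hk).2] at h1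
    exact h1
  refine ⟨hKJ, hbK, hchain, ?_, ?_, ?_, ?_, ?_, ?_, ?_, ?_, ?_, ?_, ?_⟩
  · intro k hk _
    refine ⟨(hmeet k hk).1, hchain k hk, fun c hc hcb => ?_⟩
    exact (hmeet k hk).2.2 c hc (hcb.trans (hPZ bot ((hK bot).1 hbK)))
  · exact hmeet bot hbK
  · intro k hk k' hk' he
    simp only [Option.some.injEq] at he
    rw [← (hg k hk).2, ← (hg k' hk').2, he]
  · intro k hk he
    cases he
  · intro y k hL
    rcases hL with ⟨hk, he⟩ | ⟨_, he⟩
    · simp only [Option.some.injEq] at he
      rw [he]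
      exact (hg k hk).1
    · cases he
  · intro y hy
    refine ⟨f y, Or.inl ⟨hmaps y hy, ?_⟩⟩
    congr 1
    exact hinj y hy _ (hg _ (hmaps y hy)).1 (hg _ (hmaps y hy)).2.symm
  · exact ⟨bot, Or.inr ⟨rfl, rfl⟩⟩
  · intro y hy y' hy' he
    have hy1 := hKJ y hy
    have hy2 := hKJ y' hy'
    refine hinj y hy y' hy' ?_
    simp only [f, if_pos hy1, if_pos hy2, he]
  · intro y hy
    obtain ⟨n, hn⟩ := hX y (hKJ y hy)
    exact hLab y n (X y) (Des.mono (Or.inl (hPZ y ((hK y).1 hy)))) hn
  · intro _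
    rfl
  · intro i _ h2
    simp only [Blk.lb, hst] at h2
    cases h2

/-! ### The forced case -/

theorem bool_eq_not {a b : Bool} (h : ¬ a = b) : a = !b := by
  cases a <;> cases b <;> simp_all

/-- the tree order as a semilattice -/
@[reducible] noncomputable def treeSL {V : Type} (par : V → Option V) (J : Finset V)
    (hanti : ∀ a b, Anc par J a b → Anc par J b a → a = b)
    (hm : ∀ a ∈ J, ∀ b ∈ J, IsMeet par J a b (mt par J a b)) : SemilatticeInf {v // v ∈ J} where
  le a b := Anc par J a.1 b.1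
  le_refl a := Anc.refl a.2
  le_trans _ _ _ h1 h2 := h1.trans h2
  le_antisymm _ _ h1 h2 := Subtype.ext (hanti _ _ h1 h2)
  inf a b := ⟨mt par J a.1 b.1, (hm a.1 a.2 b.1 b.2).1.mem_left⟩
  inf_le_left a b := (hm a.1 a.2 b.1 b.2).1
  inf_le_right a b := (hm a.1 a.2 b.1 b.2).2.1
  le_inf _ b c h1 h2 := (hm b.1 b.2 c.1 c.2).2.2 _ h1 h2

theorem nf_conv {V : Type} [DecidableEq V] {A : Blk V}
    (hanti : ∀ a b, Anc A.par A.J a b → Anc A.par A.J b a → a = b)
    (hm : ∀ a ∈ A.J, ∀ b ∈ A.J, IsMeet A.par A.J a b (mt A.par A.J a b))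
    {e : Bool → {v // v ∈ A.J}} {S : Set {v // v ∈ A.J}} {loc : {v // v ∈ A.J} → {v // v ∈ A.J}}
    {lab : {v // v ∈ A.J} → Bool} {K : Finset {v // v ∈ A.J}} {bot : {v // v ∈ A.J}}
    {a : {v // v ∈ A.J} → {v // v ∈ A.J} ⊕ Bool} {a2 : {v // v ∈ A.J} ⊕ Bool}
    (hG : @Good _ (treeSL A.par A.J hanti hm) e S loc lab K bot a a2)
    (X : V → V) (tr : {v // v ∈ A.J} ⊕ Bool → Option V)
    (t1 : ∀ d, Used K a a2 d → A.loc X (tr d) = (dl e loc d).1)
    (t2 : ∀ d, Used K a a2 d → A.lb X (tr d) = some (dlab loc lab d))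
    (t3 : ∀ d d', Used K a a2 d → Used K a a2 d' → tr d = tr d' → d = d')
    (t4 : ∀ d y, Used K a a2 d → tr d = some y → ∃ k ∈ K, k.1 = y)
    (t5 : ∀ y ∈ K, ∃ d, Used K a a2 d ∧ tr d = some y.1)
    (t6 : ∃ d, Used K a a2 d ∧ tr d = none)
    (t7 : ∀ y ∈ K, ∀ y' ∈ K, X y.1 = X y'.1 → y = y')
    (t8 : ∀ y ∈ K, A.p (X y.1) = none)
    (t9 : A.st ≠ none) (aa : V → Option V) (ha : ∀ k : {v // v ∈ A.J}, aa k.1 = tr (a k)) :
    NF A X (K.image Subtype.val) bot.1 aa (tr a2) := by
  let _ := treeSL A.par A.J hanti hm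
  have hU1 : ∀ k ∈ K, Used K a a2 (a k) := fun k hk => Or.inl ⟨k, hk, rfl⟩
  have hU2 : Used K a a2 a2 := Or.inr rfl
  have hLf : ∀ d k, Lf (K.image Subtype.val) bot.1
      aa (tr a2) d k →
      ∃ d0, Used K a a2 d0 ∧ tr d0 = d := by
    intro d k hL
    rcases hL with ⟨hk, he⟩ | ⟨_, he⟩
    · obtain ⟨k0, hk0, rfl⟩ := Finset.mem_image.mp hk
      rw [ha] at he
      exact ⟨_, hU1 k0 hk0, he.symm⟩
    · exact ⟨_, hU2, he.symm⟩
  have hLf' : ∀ d0, Used K a a2 d0 → ∃ k, Lf (K.image Subtype.val) bot.1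
      aa (tr a2) (tr d0) k := by
    intro d0 hd
    rcases hd with ⟨k, hk, rfl⟩ | rfl
    · exact ⟨k.1, Or.inl ⟨Finset.mem_image_of_mem _ hk, (ha k).symm⟩⟩
    · exact ⟨bot.1, Or.inr ⟨rfl, rfl⟩⟩
  refine ⟨?_, ?_, ?_, ?_, ?_, ?_, ?_, ?_, ?_, ?_, ?_, ?_, ?_, ?_⟩
  · intro v hv
    obtain ⟨k0, _, rfl⟩ := Finset.mem_image.mp hv
    exact k0.2
  · exact Finset.mem_image_of_mem _ hG.botK
  · intro k hk
    obtain ⟨k0, hk0, rfl⟩ := Finset.mem_image.mp hk
    exact hG.chain k0 hk0
  · intro k hk hne
    obtain ⟨k0, hk0, rfl⟩ := Finset.mem_image.mp hk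
    rw [ha, t1 _ (hU1 k0 hk0)]
    have h1 := hG.side k0 hk0 (fun he => hne (by rw [he]))
    have h2 := hm (dl e loc (a k0)).1 (dl e loc (a k0)).2 bot.1 bot.2
    have h3 : mt A.par A.J (dl e loc (a k0)).1 bot.1 = k0.1 := congrArg Subtype.val h1
    rw [h3] at h2
    exact h2
  · rw [ha, t1 _ (hU1 bot hG.botK), t1 _ hU2]
    have h1 := hG.botm
    have h2 := hm (dl e loc (a bot)).1 (dl e loc (a bot)).2 (dl e loc a2).1 (dl e loc a2).2
    have h3 : mt A.par A.J (dl e loc (a bot)).1 (dl e loc a2).1 = bot.1 := congrArg Subtype.val h1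
    rw [h3] at h2
    exact h2
  · intro k hk k' hk' he
    obtain ⟨k0, hk0, rfl⟩ := Finset.mem_image.mp hk
    obtain ⟨k1, hk1, rfl⟩ := Finset.mem_image.mp hk'
    rw [ha, ha] at he
    rw [hG.inj k0 hk0 k1 hk1 (t3 _ _ (hU1 k0 hk0) (hU1 k1 hk1) he)]
  · intro k hk he
    obtain ⟨k0, hk0, rfl⟩ := Finset.mem_image.mp hk
    rw [ha] at he
    exact hG.ne2 k0 hk0 (t3 _ _ (hU1 k0 hk0) hU2 he)
  · intro y k hL
    obtain ⟨d0, hd0, hd1⟩ := hLf _ _ hL
    obtain ⟨k0, hk0, rfl⟩ := t4 d0 y hd0 hd1
    exact Finset.mem_image_of_mem _ hk0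
  · intro y hy
    obtain ⟨y0, hy0, rfl⟩ := Finset.mem_image.mp hy
    obtain ⟨d, hd, hd1⟩ := t5 y0 hy0
    obtain ⟨k, hk⟩ := hLf' d hd
    rw [hd1] at hk
    exact ⟨k, hk⟩
  · obtain ⟨d, hd, hd1⟩ := t6
    obtain ⟨k, hk⟩ := hLf' d hd
    rw [hd1] at hk
    exact ⟨k, hk⟩
  · intro y hy y' hy' he
    obtain ⟨y0, hy0, rfl⟩ := Finset.mem_image.mp hy
    obtain ⟨y1, hy1, rfl⟩ := Finset.mem_image.mp hy'
    rw [t7 y0 hy0 y1 hy1 he]
  · intro y hy
    obtain ⟨y0, hy0, rfl⟩ := Finset.mem_image.mp hy
    exact t8 y0 hy0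
  · intro h1
    exact absurd h1 t9
  · intro i h1 h2
    rw [ha, t2 _ (hU1 bot hG.botK)] at h1
    rw [t2 _ hU2] at h2
    refine hG.botlab ?_
    have h3 := h1.trans h2.symm
    exact Option.some.inj h3

theorem des_of_clo {V : Type} {A : Blk V}
    (hanti : ∀ a b, Anc A.par A.J a b → Anc A.par A.J b a → a = b)
    (hm : ∀ a ∈ A.J, ∀ b ∈ A.J, IsMeet A.par A.J a b (mt A.par A.J a b))
    (X : V → V) (hX : ∀ v ∈ A.J, ∃ n, Ex A.p A.J n v (X v))
    (loc : {v // v ∈ A.J} → {v // v ∈ A.J}) (hloc : ∀ v, (loc v).1 = X v.1)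
    (T : Set {v // v ∈ A.J}) (hT : ∀ v ∈ T, Des A 0 v.1) (n : ℕ) :
    ∀ k ∈ (@clo _ (treeSL A.par A.J hanti hm) loc)^[n] T, Des A n k.1 := by
  let _ := treeSL A.par A.J hanti hm
  induction n with
  | zero => intro k hk; exact hT k hk
  | succ n ih =>
    intro k hk
    rw [Function.iterate_succ_apply'] at hk
    rcases hk with hk | ⟨x, hx, hkx⟩
    · exact Or.inl (ih k hk)
    · obtain ⟨m, hm'⟩ := hX x.1 x.2
      refine Or.inr ⟨x.1, m, X x.1, ih x hx, hm', ?_⟩
      rw [← hloc]
      exact hkx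

theorem nf_forced (hsl : SLStatement) {V : Type} [Fintype V] [DecidableEq V] (A : Blk V) (h : ℕ)
    (hA : A.Tree h) (X : V → V) (hX : ∀ v ∈ A.J, ∃ n, Ex A.p A.J n v (X v)) (l : Bool)
    (hst : A.st = some l) (hx1 : A.p (X A.u) = none) (hx2 : A.lp (X A.u) = !l)
    (hLab : A.Lab (h + 1)) :
    ∃ (A₁ : Blk V) (X : V → V) (K : Finset V) (bot : V) (a : V → Option V) (a2 : Option V),
      A₁.J = A.J ∧ A₁.z = A.z ∧ A₁.par = A.par ∧ (A.st = none → A₁ = A) ∧
      (A₁.st = none → A.st = none) ∧ A₁.u ∈ A.J ∧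
      (∀ v ∈ A.J, ∃ n, Ex A₁.p A.J n v (X v)) ∧
      (∀ i, A₁.st = some i → A₁.p (X A₁.u) = none ∧ A₁.lp (X A₁.u) = !i) ∧
      (∀ v ∈ A.J, ∀ w, A₁.p v = some w → w ∈ A.J ∨ A.p v = some w) ∧
      (∀ s, Sat s A₁ → Sat s A) ∧
      NF A₁ X K bot a a2 := by
  have hXJ : ∀ v ∈ A.J, X v ∈ A.J := by
    intro v hv
    obtain ⟨n, hn⟩ := hX v hv
    exact hn.right_mem
  have hanti : ∀ a b, Anc A.par A.J a b → Anc A.par A.J b a → a = b :=
    fun a b h1 h2 => hA.antisymm h1 h2
  have hm : ∀ a ∈ A.J, ∀ b ∈ A.J, IsMeet A.par A.J a b (mt A.par A.J a b) :=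
    fun a ha b hb => hA.mt_spec ha hb
  let _ := treeSL A.par A.J hanti hm
  have hx0J := hXJ _ hA.uJ
  let loc : {v // v ∈ A.J} → {v // v ∈ A.J} := fun v => ⟨X v.1, hXJ v.1 v.2⟩
  let lab : {v // v ∈ A.J} → Bool := fun v => A.lp v.1
  let e : Bool → {v // v ∈ A.J} := fun i => if i = l then ⟨A.u, hA.uJ⟩ else ⟨X A.u, hx0J⟩
  let S : Set {v // v ∈ A.J} := {y | X y.1 = X A.u}
  have key := @hsl {v // v ∈ A.J} (treeSL A.par A.J hanti hm) inferInstance
    (fun a b c h1 h2 => Anc.total (show Anc A.par A.J a.1 c.1 from h1) h2) (fun v => A.dep v.1) h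
    (by
      intro a b hab
      have h1 : Anc A.par A.J a.1 b.1 := hab.1
      refine hA.dep_lt h1 ?_
      intro he
      apply hab.2
      show Anc A.par A.J b.1 a.1
      rw [← he]
      exact Anc.refl a.2)
    (fun v => hA.dep_le v.2) loc lab (h + 1) e S (by omega)
  obtain ⟨K, bot, a, a2, hG, hq⟩ := key
  have hDes : ∀ k ∈ K, Des A (h + 1) k.1 := by
    intro k hk
    refine des_of_clo hanti hm X hX loc (fun _ => rfl) _ ?_ (h + 1) k (hq k hk)
    have h1 : ∀ i, ∀ v : {v // v ∈ A.J}, Anc A.par A.J v.1 (e i).1 → Des A 0 v.1 := by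
      intro i v hv
      by_cases hi : i = l
      · simp only [e, if_pos hi] at hv
        exact Or.inl hv
      · simp only [e, if_neg hi] at hv
        obtain ⟨n, hn⟩ := hX A.u hA.uJ
        exact Or.inr ⟨n, X A.u, hn, hv⟩
    intro v hv
    rcases hv with hv | hv
    · exact h1 true v hv
    · exact h1 false v hv
  have hlabK : ∀ y ∈ K, A.p (X y.1) = none := by
    intro y hy
    obtain ⟨n, hn⟩ := hX y.1 y.2
    exact hLab y.1 n (X y.1) (hDes y hy) hn
  have hXinj : ∀ y ∈ K, ∀ y' ∈ K, X y.1 = X y'.1 → y = y' := by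
    intro y hy y' hy' he
    by_cases h1 : y ∈ S
    · have h2 : y' ∈ S := by
        show X y'.1 = X A.u
        rw [← he]; exact h1
      exact hG.oneS y hy y' hy' h1 h2
    · have h2 : y' ∉ S := by
        intro h3
        apply h1
        show X y.1 = X A.u
        rw [he]; exact h3
      exact hG.locinj y hy y' hy' h1 h2 (Subtype.ext he)
  have hstn : A.st ≠ none := by rw [hst]; simp
  have hfrc : ∀ i, A.st = some i → A.p (X A.u) = none ∧ A.lp (X A.u) = !i := by
    intro i hi
    rw [hst] at hi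
    cases hi
    exact ⟨hx1, hx2⟩
  by_cases hS : ∃ y ∈ K, y ∈ S
  · -- case 1: both special leaves are used
    obtain ⟨y0, hy0, hy0S⟩ := hS
    have hU := hG.specS ⟨y0, hy0, hy0S⟩
    let tr : {v // v ∈ A.J} ⊕ Bool → Option V := fun d => match d with
      | Sum.inl y => some y.1
      | Sum.inr i => if i = l then none else some y0.1
    have htr1 : ∀ y, tr (Sum.inl y) = some y.1 := fun _ => rfl
    have htr2 : tr (Sum.inr l) = none := by simp [tr]
    have htr3 : tr (Sum.inr (!l)) = some y0.1 := by simp [tr]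
    have hb : ∀ i : Bool, i = l ∨ i = !l := by intro i; cases i <;> cases l <;> simp
    have he1 : e l = ⟨A.u, hA.uJ⟩ := by simp [e]
    have he2 : e (!l) = ⟨X A.u, hx0J⟩ := by simp [e]
    refine ⟨A, X, K.image Subtype.val, bot.1,
      fun v => if hv : v ∈ A.J then tr (a ⟨v, hv⟩) else none, tr a2, rfl, rfl, rfl,
      fun _ => rfl, fun h => h, hA.uJ, hX, hfrc, fun v _ w hw => Or.inr hw, fun s hs => hs, ?_⟩
    refine nf_conv hanti hm hG X tr ?_ ?_ ?_ ?_ ?_ ?_ hXinj hlabK hstn _ ?_
    · rintro (y | i) hd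
      · rfl
      · rcases hb i with rfl | rfl
        · rw [htr2]; simp only [Blk.loc, dl, he1]
        · rw [htr3]; simp only [Blk.loc, dl, he2]; exact hy0S
    · rintro (y | i) hd
      · rfl
      · rcases hb i with rfl | rfl
        · rw [htr2]; simp only [Blk.lb, dlab, hst]
        · rw [htr3]; simp only [Blk.lb, dlab]
          rw [show X y0.1 = X A.u from hy0S, hx2]
    · rintro (y | i) (y' | i') hd hd' he
      · rw [htr1, htr1] at he
        rw [Subtype.ext (Option.some.inj he)]
      · exfalso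
        rcases hb i' with rfl | rfl
        · rw [htr1, htr2] at he; cases he
        · rw [htr1, htr3] at he
          have h1 : y = y0 := Subtype.ext (Option.some.inj he)
          subst h1
          exact (hG.rng y hd).2 hy0S
      · exfalso
        rcases hb i with rfl | rfl
        · rw [htr1, htr2] at he; cases he
        · rw [htr1, htr3] at he
          have h1 : y' = y0 := Subtype.ext (Option.some.inj he).symm
          subst h1
          exact (hG.rng y' hd').2 hy0S
      · rcases hb i with rfl | rfl <;> rcases hb i' with h1 | rfl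
        · rw [h1]
        · rw [htr2, htr3] at he; cases he
        · rw [h1, htr2, htr3] at he; cases he
        · rfl
    · rintro (y | i) y' hd he
      · rw [htr1] at he
        exact ⟨y, (hG.rng y hd).1, Option.some.inj he⟩
      · rcases hb i with rfl | rfl
        · rw [htr2] at he; cases he
        · rw [htr3] at he
          exact ⟨y0, hy0, Option.some.inj he⟩
    · intro y hy
      by_cases hyS : y ∈ S
      · have h1 := hG.oneS y hy y0 hy0 hyS hy0S
        subst h1
        exact ⟨_, hU (!l), htr3⟩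
      · exact ⟨_, hG.surj y hy hyS, htr1 y⟩
    · exact ⟨_, hU l, htr2⟩
    · intro k
      simp only [k.2, dif_pos, Subtype.coe_eta]
  · push Not at hS
    obtain ⟨i0, hi1, hi2⟩ := hG.specN hS
    let tr : {v // v ∈ A.J} ⊕ Bool → Option V := fun d => match d with
      | Sum.inl y => some y.1
      | Sum.inr _ => none
    have htr1 : ∀ y, tr (Sum.inl y) = some y.1 := fun _ => rfl
    have htr2 : ∀ i, tr (Sum.inr i) = none := fun _ => rfl
    have hi3 : ∀ i, Used K a a2 (Sum.inr i) → i = i0 := by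
      intro i hi
      by_contra hne
      apply hi2
      have : (!i0) = i := by cases i <;> cases i0 <;> simp_all
      rw [this]
      exact hi
    have g3 : ∀ d d', Used K a a2 d → Used K a a2 d' → tr d = tr d' → d = d' := by
      rintro (y | i) (y' | i') hd hd' he
      · rw [htr1, htr1] at he
        rw [Subtype.ext (Option.some.inj he)]
      · exact absurd he (by simp [tr])
      · exact absurd he (by simp [tr])
      · rw [hi3 i hd, hi3 i' hd']
    have g4 : ∀ d y, Used K a a2 d → tr d = some y → ∃ k ∈ K, k.1 = y := by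
      rintro (y | i) y' hd he
      · rw [htr1] at he
        exact ⟨y, (hG.rng y hd).1, Option.some.inj he⟩
      · exact absurd he (by simp [tr])
    have g5 : ∀ y ∈ K, ∃ d, Used K a a2 d ∧ tr d = some y.1 :=
      fun y hy => ⟨_, hG.surj y hy (hS y hy), htr1 y⟩
    have g6 : ∃ d, Used K a a2 d ∧ tr d = none := ⟨_, hi1, htr2 i0⟩
    by_cases hil : i0 = l
    · -- case 2a
      subst hil
      have he1 : e i0 = ⟨A.u, hA.uJ⟩ := by simp [e]
      refine ⟨A, X, K.image Subtype.val, bot.1,
        fun v => if hv : v ∈ A.J then tr (a ⟨v, hv⟩) else none, tr a2, rfl, rfl, rfl,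
        fun _ => rfl, fun h => h, hA.uJ, hX, hfrc, fun v _ w hw => Or.inr hw, fun s hs => hs, ?_⟩
      refine nf_conv hanti hm hG X tr ?_ ?_ g3 g4 g5 g6 hXinj hlabK hstn _ ?_
      · rintro (y | i) hd
        · rfl
        · rw [hi3 i hd, htr2 i0]; simp only [Blk.loc, dl, he1]
      · rintro (y | i) hd
        · rfl
        · rw [hi3 i hd, htr2 i0]; simp only [Blk.lb, dlab, hst]
      · intro k
        simp only [k.2, dif_pos, Subtype.coe_eta]
    · -- case 2b: swap
      have hi0 : i0 = !l := bool_eq_not hil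
      subst hi0
      obtain ⟨n0, hn0⟩ := hX A.u hA.uJ
      obtain ⟨q, r1, r2, r3, r4, r5, r6⟩ := rev A.p A.J hn0
      have he2 : e (!l) = ⟨X A.u, hx0J⟩ := by simp [e]
      let X' : V → V := fun v => if X v = X A.u then A.u else X v
      have hXX : X (X A.u) = X A.u := by
        obtain ⟨n, hn⟩ := hX _ hx0J
        exact (hn.det (Ex.self hx0J hn0.2)).2
      -- vertices on the walk
      have hon : ∀ v m, Pth A.p A.J m A.u v → v ≠ X A.u → ∃ w, A.p v = some w ∧ w ∈ A.J := by
        intro v m hv hne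
        have h1 := hn0.tail hv
        have h2 : n0 - m ≠ 0 := by
          intro h0
          rw [h0] at h1
          exact hne h1.1.zero
        obtain ⟨k, hk⟩ := Nat.exists_eq_succ_of_ne_zero h2
        rw [hk] at h1
        obtain ⟨w, hw, hwJ, _⟩ := h1.1.succ_inv
        exact ⟨w, hw, hwJ⟩
      -- exits other than `X u` are not on the walk
      have hoff : ∀ v ∈ A.J, Out A.p A.J v → v ≠ X A.u → ∀ m, ¬ Pth A.p A.J m A.u v := by
        intro v _ hv hne m hm'
        obtain ⟨w, hw, hwJ⟩ := hon v m hm' hne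
        exact hv w hw hwJ
      have hu_ne : ∀ v ∈ A.J, Out A.p A.J v → v ≠ X A.u → v ≠ A.u := by
        intro v hvJ hv hne he
        exact hoff v hvJ hv hne 0 (by rw [he]; exact Pth.refl hA.uJ)
      let A₁ : Blk V := { A with
        p := q
        lp := Function.update A.lp A.u l
        u := X A.u
        st := some (!l) }
      refine ⟨A₁, X', K.image Subtype.val, bot.1,
        fun v => if hv : v ∈ A.J then tr (a ⟨v, hv⟩) else none, tr a2, rfl, rfl, rfl,
        fun h => absurd h hstn, fun h => (by cases h), hx0J, ?_, ?_, ?_, ?_, ?_⟩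
      · intro v hv
        obtain ⟨n, hn⟩ := hX v hv
        by_cases hc : X v = X A.u
        · simp only [X', if_pos hc]
          rw [hc] at hn
          obtain ⟨m', _, hm'⟩ := r5 v n hn
          exact ⟨m', hm'⟩
        · simp only [X', if_neg hc]
          exact ⟨n, r6 v n (X v) hc hn⟩
      · intro i hi
        have hi' : i = !l := by
          have : some (!l) = some i := hi
          exact (Option.some.inj this).symm
        subst hi'
        have h1 : X' (X A.u) = A.u := by simp only [X', if_pos hXX]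
        show q (X' (X A.u)) = none ∧ Function.update A.lp A.u l (X' (X A.u)) = !!l
        rw [h1]
        exact ⟨r2, by simp⟩
      · intro v hv w hw
        by_cases hc : ∀ m, ¬ Pth A.p A.J m A.u v
        · right
          rw [← r1 v hc]
          exact hw
        · push Not at hc
          obtain ⟨m, hm'⟩ := hc
          by_cases hvu : v = A.u
          · subst hvu
            exfalso
            have : q A.u = some w := hw
            rw [r2] at this
            cases this
          · left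
            obtain ⟨w', hw', h1, _⟩ := r3 v m hm' hvu
            have : q v = some w := hw
            rw [h1] at this
            cases this
            exact hw'
      · intro s hs
        have hCs : ∀ a b, Cov s a b → Cov s b a := by
          rintro a b ⟨i, hi⟩
          exact ⟨i, hi.symm⟩
        refine ⟨hs.par, ?_, ?_, ?_, ?_⟩
        · intro v hv y hy
          by_cases hyJ : y ∈ A.J
          · rcases (r4 v hv y hyJ).1 (Or.inl hy) with h1 | h1
            · exact hs.p v hv y h1
            · exact hCs _ _ (hs.p y hyJ v h1)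
          · by_cases hvx : v = X A.u
            · rw [hvx, hx1] at hy
              cases hy
            · have h1 : Out A.p A.J v := by
                intro w hw
                rw [hy] at hw
                cases hw
                exact hyJ
              refine hs.p v hv y ?_
              show q v = some y
              rw [r1 v (hoff v hv h1 hvx)]
              exact hy
        · intro v hv hpv
          have h1 : Out A.p A.J v := by
            intro w hw
            rw [hpv] at hw
            cases hw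
          by_cases hvx : v = X A.u
          · rw [hvx, hx2]
            exact hs.frc (!l) rfl
          · have h2 := hs.lp v hv (by show q v = none; rw [r1 v (hoff v hv h1 hvx)]; exact hpv)
            have h3 : A₁.lp v = A.lp v := by
              show Function.update A.lp A.u l v = A.lp v
              rw [Function.update_of_ne (hu_ne v hv h1 hvx)]
            rw [h3] at h2
            exact h2
        · intro i hi
          rw [hst] at hi
          cases hi
          have h2 := hs.lp A.u hA.uJ r2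
          have h3 : A₁.lp A.u = l := by
            show Function.update A.lp A.u l A.u = l
            simp
          rw [h3] at h2
          exact h2
        · intro h1
          exact absurd h1 hstn
      · have hKX : ∀ y ∈ K, X' y.1 = X y.1 := by
          intro y hy
          have h1 : X y.1 ≠ X A.u := hS y hy
          simp only [X', if_neg h1]
        have hKout : ∀ y : {v // v ∈ A.J}, Out A.p A.J (X y.1) := by
          intro y
          obtain ⟨n, hn⟩ := hX y.1 y.2
          exact hn.2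
        refine nf_conv (A := A₁) hanti hm hG X' tr ?_ ?_ g3 g4 g5 g6 ?_ ?_ ?_ _ ?_
        · rintro (y | i) hd
          · exact hKX y (hG.rng y hd).1
          · rw [hi3 i hd, htr2 (!l)]; simp only [Blk.loc, dl, he2]; rfl
        · rintro (y | i) hd
          · have hy := (hG.rng y hd).1
            show some (Function.update A.lp A.u l (X' y.1)) = some (A.lp (X y.1))
            rw [hKX y hy, Function.update_of_ne
              (hu_ne _ (hXJ _ y.2) (hKout y) (hS y hy))]
          · rw [hi3 i hd, htr2 (!l)]; simp only [Blk.lb, dlab]; rfl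
        · intro y hy y' hy' he
          rw [hKX y hy, hKX y' hy'] at he
          exact hXinj y hy y' hy' he
        · intro y hy
          show q (X' y.1) = none
          rw [hKX y hy, r1 _ (hoff _ (hXJ _ y.2) (hKout y) (hS y hy))]
          exact hlabK y hy
        · intro h1
          cases h1
        · intro k
          exact dif_pos k.2

theorem nf_exists (hsl : SLStatement) : NFStatement := by
  intro V _ _ A h hA hex hfrc hLab
  obtain ⟨X, hX⟩ := exit_fun hex
  cases hst : A.st with
  | none =>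
    obtain ⟨K, bot, a, a2, hN⟩ := nf_free A h hA X hX hst hLab
    refine ⟨A, X, K, bot, a, a2, rfl, rfl, rfl, fun _ => rfl, fun _ => rfl, hA.uJ, hX, ?_,
      fun v _ w hw => Or.inr hw, fun s hs => hs, hN⟩
    intro i hi
    rw [hst] at hi
    cases hi
  | some l =>
    obtain ⟨n, hn⟩ := hX A.u hA.uJ
    obtain ⟨h1, h2⟩ := hfrc l hst n _ hn
    have := nf_forced hsl A h hA X hX l hst h1 h2 hLab
    rw [hst] at this
    exact this

end Pool.Agent.RF
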