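import Pool.Agent.Lib.MP_5f065d_co.Statements
import Pool.Agent.Lib.MP_5f065d_co.Colour

set_option autoImplicit false

/-!
Chain configurations of free blocks (MP_5f065d_co, S09049).
-/

namespace Pool.Agent.RF

theorem exists_meet {V : Type} {A : Blk V} {h : ℕ} (hA : A.Tree h) {a b : V} (ha : a ∈ A.J)
    (hb : b ∈ A.J) : ∃ m, IsMeet A.par A.J a b m := by
  classical
  have H : ∃ n, ∃ m, Pth A.par A.J n a m ∧ Anc A.par A.J m b := by
    obtain ⟨n, _, hn⟩ := hA.tree a ha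
    obtain ⟨n', _, hn'⟩ := hA.tree b hb
    exact ⟨n, A.z, hn, ⟨n', hn'⟩⟩
  obtain ⟨m, h1, h2⟩ := Nat.find_spec H
  refine ⟨m, ⟨_, h1⟩, h2, ?_⟩
  rintro c ⟨n', hn'⟩ hc
  have hle := Nat.find_min' H ⟨c, hn', hc⟩
  obtain ⟨k, hk⟩ := Nat.exists_eq_add_of_le hle
  rw [hk] at hn'
  exact ⟨k, h1.split hn'⟩

/-- a nonempty set invariant under `f` contains a nonempty set on which `f` is a bijection -/
theorem exists_perm_sub {V : Type} [Fintype V] [DecidableEq V] (f : V → V) (S : Finset V)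
    (hS : S.Nonempty) (hf : ∀ v ∈ S, f v ∈ S) :
    ∃ K : Finset V, K.Nonempty ∧ K ⊆ S ∧ (∀ v ∈ K, f v ∈ K) ∧
      (∀ v ∈ K, ∀ w ∈ K, f v = f w → v = w) ∧ ∀ k ∈ K, ∃ y ∈ K, f y = k := by
  classical
  obtain ⟨K, hK, hmin⟩ := Finset.exists_min_image
    (Finset.univ.powerset.filter (fun T : Finset V => T.Nonempty ∧ T ⊆ S ∧ T.image f ⊆ T))
    Finset.card ⟨S, by
      rw [Finset.mem_filter]
      refine ⟨by simp, hS, subset_rfl, ?_⟩
      intro x hx
      rw [Finset.mem_image] at hx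
      obtain ⟨v, hv, rfl⟩ := hx
      exact hf v hv⟩
  rw [Finset.mem_filter] at hK
  obtain ⟨-, hne, hKS, hKf⟩ := hK
  have h1 := hmin (K.image f) (by
    rw [Finset.mem_filter]
    exact ⟨by simp, hne.image f, hKf.trans hKS, Finset.image_subset_image hKf⟩)
  have h2 : K.image f = K := Finset.eq_of_subset_of_card_le hKf h1
  have h3 : (K.image f).card = K.card := by rw [h2]
  have h4 := Finset.card_image_iff.mp h3
  refine ⟨K, hne, hKS, ?_, ?_, ?_⟩
  · intro v hv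
    exact hKf (Finset.mem_image_of_mem f hv)
  · intro v hv w hw hvw
    exact h4 hv hw hvw
  · intro k hk
    rw [← h2, Finset.mem_image] at hk
    exact hk

/-- a nonempty chain of ancestors of `u` has a lowest element -/
theorem exists_bot {V : Type} {par : V → Option V} {J : Finset V} {u : V} (K : Finset V)
    (hne : K.Nonempty) (hK : ∀ k ∈ K, Anc par J k u) :
    ∃ bot ∈ K, ∀ k ∈ K, Anc par J k bot := by
  classical
  have H : ∀ k : V, ∃ n, k ∈ K → Pth par J n u k := by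
    intro k
    by_cases hk : k ∈ K
    · obtain ⟨n, hn⟩ := hK k hk
      exact ⟨n, fun _ => hn⟩
    · exact ⟨0, fun h => absurd h hk⟩
  choose d hd using H
  obtain ⟨bot, hb, hmin⟩ := Finset.exists_min_image K d hne
  refine ⟨bot, hb, ?_⟩
  intro k hk
  have hle := hmin k hk
  obtain ⟨j, hj⟩ := Nat.exists_eq_add_of_le hle
  have h1 := hd k hk
  rw [hj] at h1
  exact ⟨j, (hd bot hb).split h1⟩

theorem Des.mono {V : Type} {A : Blk V} {y : V} (h : Des A 0 y) (k : ℕ) : Des A k y := by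
  induction k with
  | zero => exact h
  | succ k ih => exact Or.inl ih

theorem nf_free {V : Type} [Fintype V] [DecidableEq V] (A : Blk V) (h : ℕ) (hA : A.Tree h)
    (hex : ∀ v ∈ A.J, ∃ n x, Ex A.p A.J n v x) (hst : A.st = none) (hL : A.Lab (h + 1)) :
    ∃ (X : V → V) (K : Finset V) (bot : V) (a : V → Option V) (a2 : Option V),
      (∀ v ∈ A.J, ∃ n, Ex A.p A.J n v (X v)) ∧ NF A X K bot a a2 := by
  classical
  have hX : ∀ v ∈ A.J, ∃ n, Ex A.p A.J n v (exv A v) := by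
    intro v hv
    obtain ⟨n, x, hx⟩ := hex v hv
    rw [exv_eq hx]
    exact ⟨n, hx⟩
  have hXJ : ∀ v ∈ A.J, exv A v ∈ A.J := by
    intro v hv
    obtain ⟨n, hn⟩ := hX v hv
    exact hn.right_mem
  -- the map `f`
  have hm : ∀ y : V, ∃ m, y ∈ A.J → IsMeet A.par A.J (exv A y) A.u m := by
    intro y
    by_cases hy : y ∈ A.J
    · obtain ⟨m, hm⟩ := exists_meet hA (hXJ y hy) hA.uJ
      exact ⟨m, fun _ => hm⟩
    · exact ⟨y, fun h => absurd h hy⟩
  choose f hf using hm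
  obtain ⟨K, hne, hKS, hKf, hinj, hsurj⟩ := exists_perm_sub f
    (Finset.univ.filter (fun y => Anc A.par A.J y A.u))
    ⟨A.u, by rw [Finset.mem_filter]; exact ⟨Finset.mem_univ _, Anc.refl hA.uJ⟩⟩ (by
      intro v hv
      rw [Finset.mem_filter] at hv ⊢
      exact ⟨Finset.mem_univ _, (hf v hv.2.mem_left).2.1⟩)
  have hKu : ∀ k ∈ K, Anc A.par A.J k A.u := by
    intro k hk
    have := hKS hk
    rw [Finset.mem_filter] at this
    exact this.2
  have hKJ : ∀ k ∈ K, k ∈ A.J := fun k hk => (hKu k hk).mem_left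
  obtain ⟨bot, hbot, hchain⟩ := exists_bot K hne hKu
  have H : ∀ k : V, ∃ y, k ∈ K → y ∈ K ∧ f y = k := by
    intro k
    by_cases hk : k ∈ K
    · obtain ⟨y, hy, hyk⟩ := hsurj k hk
      exact ⟨y, fun _ => ⟨hy, hyk⟩⟩
    · exact ⟨k, fun h => absurd h hk⟩
  choose g hg using H
  have hgm : ∀ k ∈ K, IsMeet A.par A.J (exv A (g k)) A.u k := by
    intro k hk
    have h1 := hf (g k) (hKJ _ (hg k hk).1)
    rw [(hg k hk).2] at h1
    exact h1
  refine ⟨exv A, K, bot, fun k => some (g k), none, hX, ?_⟩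
  refine ⟨fun k hk => hKJ k hk, hbot, hchain, ?_, ?_, ?_, ?_, ?_, ?_, ?_, ?_, ?_, ?_, ?_⟩
  · intro k hk _
    obtain ⟨h1, h2, h3⟩ := hgm k hk
    exact ⟨h1, hchain k hk, fun c hc hc' => h3 c hc (hc'.trans (hKu bot hbot))⟩
  · exact hgm bot hbot
  · intro k hk k' hk' he
    have h1 : g k = g k' := Option.some.inj he
    rw [← (hg k hk).2, ← (hg k' hk').2, h1]
  · intro k _ he
    cases he
  · rintro y k (⟨hk, he⟩ | ⟨_, he⟩)
    · cases he
      exact (hg k hk).1
    · cases he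
  · intro y hy
    have hfy := hKf y hy
    refine ⟨f y, Or.inl ⟨hfy, ?_⟩⟩
    have h1 := hg (f y) hfy
    have h2 : y = g (f y) := hinj y hy _ h1.1 h1.2.symm
    exact congrArg some h2
  · exact ⟨bot, Or.inr ⟨rfl, rfl⟩⟩
  · intro y hy y' hy' he
    apply hinj y hy y' hy'
    have h1 := hf y (hKJ y hy)
    have h2 := hf y' (hKJ y' hy')
    rw [he] at h1
    exact hA.antisymm (h2.2.2 _ h1.1 h1.2.1) (h1.2.2 _ h2.1 h2.2.1)
  · intro y hy
    obtain ⟨n, hn⟩ := hX y (hKJ y hy)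
    exact hL y n _ (Des.mono (Or.inl (hKu y hy)) _) hn
  · intro _; rfl
  · intro i _ h2
    simp only [Blk.lb, hst] at h2
    cases h2

end Pool.Agent.RF
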