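import Pool.Agent.Lib.MP_5f065d_co.Basic

set_option autoImplicit false

/-!
Simultaneous re-rooting of several components (MP_5f065d_co, S09049).
-/

namespace Pool.Agent.RF

variable {V : Type*}

theorem mrev [DecidableEq V] (f : V → Option V) (J : Finset V) (X : V → V) (K : Finset V)
    (hX : ∀ k ∈ K, ∃ n, Ex f J n k (X k))
    (inj : ∀ k ∈ K, ∀ k' ∈ K, X k = X k' → k = k') :
    ∃ q : V → Option V,
      (∀ v, v ∉ J → q v = f v) ∧
      (∀ k ∈ K, q k = none) ∧
      (∀ a ∈ J, ∀ b ∈ J, (f a = some b ∨ f b = some a) ↔ (q a = some b ∨ q b = some a)) ∧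
      (∀ k ∈ K, ∀ v m, Ex f J m v (X k) → ∃ m', Ex q J m' v k) ∧
      (∀ v m y, (∀ k ∈ K, y ≠ X k) → Ex f J m v y → Ex q J m v y ∧ q v = f v) ∧
      (∀ v w, q v = some w → w ∈ J ∨ f v = some w) := by
  induction K using Finset.induction_on with
  | empty =>
    refine ⟨f, fun _ _ => rfl, by simp, fun _ _ _ _ => Iff.rfl, by simp, ?_, fun _ _ h => Or.inr h⟩
    intro v m y _ h
    exact ⟨h, rfl⟩
  | insert k0 K hk0 ih =>
    obtain ⟨q', s1, s2, s3, s4, s5, s6⟩ := ih (fun k hk => hX k (Finset.mem_insert_of_mem hk))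
      (fun k hk k' hk' => inj k (Finset.mem_insert_of_mem hk) k' (Finset.mem_insert_of_mem hk'))
    obtain ⟨n0, hn0⟩ := hX k0 (Finset.mem_insert_self _ _)
    have hne : ∀ k ∈ K, X k0 ≠ X k := by
      intro k hk h
      have := inj k0 (Finset.mem_insert_self _ _) k (Finset.mem_insert_of_mem hk) h
      subst this
      exact hk0 hk
    have hE0 : Ex q' J n0 k0 (X k0) := (s5 k0 n0 (X k0) hne hn0).1
    have hkX : ∀ k ∈ K, k ≠ X k0 := by
      intro k hk h
      obtain ⟨n, hn⟩ := hX k (Finset.mem_insert_of_mem hk)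
      have h1 : Ex f J 0 (X k0) (X k0) := Ex.self hn0.right_mem hn0.2
      rw [← h] at h1
      have h2 := (hn.det h1).2
      exact hne k hk (by rw [h2]; exact h.symm)
    have hKout : ∀ k ∈ K, Out q' J k := by
      intro k hk w hw
      rw [s2 k hk] at hw
      cases hw
    obtain ⟨q, r1, r2, r3, r4, r5, r6⟩ := rev q' J hE0
    refine ⟨q, ?_, ?_, ?_, ?_, ?_, ?_⟩
    · intro v hv
      rw [r1 v (fun m hm => hv hm.right_mem), s1 v hv]
    · intro k hk
      rcases Finset.mem_insert.mp hk with rfl | hk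
      · exact r2
      · rw [r1 k, s2 k hk]
        intro m hm
        exact hkX k hk (Ex.det (⟨hm, hKout k hk⟩ : Ex q' J m k0 k) hE0).2
    · intro a ha b hb
      rw [s3 a ha b hb, r4 a ha b hb]
    · intro k hk v m hm
      rcases Finset.mem_insert.mp hk with rfl | hk
      · obtain ⟨m', _, h⟩ := r5 v m (s5 v m (X k) hne hm).1
        exact ⟨m', h⟩
      · obtain ⟨m', h⟩ := s4 k hk v m hm
        exact ⟨m', r6 v m' k (hkX k hk) h⟩
    · intro v m y hy hm
      have hy0 := hy k0 (Finset.mem_insert_self _ _)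
      obtain ⟨h1, h2⟩ := s5 v m y (fun k hk => hy k (Finset.mem_insert_of_mem hk)) hm
      refine ⟨r6 v m y hy0 h1, ?_⟩
      rw [r1 v, h2]
      intro m' hm'
      have h3 := hE0.tail hm'
      exact hy0 (h1.det h3).2
    · intro v w hw
      by_cases hv : ∃ m, Pth q' J m k0 v
      · obtain ⟨m, hm⟩ := hv
        by_cases hvk : v = k0
        · subst hvk
          rw [r2] at hw
          cases hw
        · obtain ⟨w', hw', h3, _⟩ := r3 v m hm hvk
          rw [h3] at hw
          cases hw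
          exact Or.inl hw'
      · push Not at hv
        rw [r1 v hv] at hw
        exact s6 v w hw

end Pool.Agent.RF
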