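import Pool.Agent.Lib.MP_5f065d_co.SLDefs

set_option autoImplicit false
set_option linter.unusedSectionVars false

/-!
Proof of the abstract chain lemma `SLStatement`.
-/

namespace Pool.Agent.RF

section
variable {α : Type*} [SemilatticeInf α]

open Classical in
/-- replace the descriptor `inr l` by `out` -/
noncomputable def repl (l : Bool) (out : α ⊕ Bool) (d : α ⊕ Bool) : α ⊕ Bool :=
  if d = Sum.inr l then out else d

theorem repl_same (l : Bool) (out : α ⊕ Bool) : repl l out (Sum.inr l) = out := by
  simp [repl]

theorem repl_ne (l : Bool) (out d : α ⊕ Bool) (h : d ≠ Sum.inr l) : repl l out d = d := by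
  simp [repl, h]

/-- the tree order lemma -/
theorem inf_eq_of_not_le (ht : ∀ a b c : α, a ≤ c → b ≤ c → a ≤ b ∨ b ≤ a)
    {z u v : α} (hvu : v ≤ u) (h : ¬ v ≤ z) : z ⊓ u = z ⊓ v := by
  apply le_antisymm
  · rcases ht (z ⊓ u) v u inf_le_right hvu with h1 | h1
    · exact le_inf inf_le_left h1
    · exact absurd (h1.trans inf_le_left) h
  · exact inf_le_inf_left z hvu

theorem bnot_ne_self' (l : Bool) : (!l) ≠ l := by cases l <;> decide

/-- The lift lemma: all recursive cases. -/
theorem lift [DecidableEq α] {e e' : Bool → α} {S S' : Set α} {loc : α → α} {lab : α → Bool}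
    {K' : Finset α} {bot : α} {a' : α → α ⊕ Bool} {a2' : α ⊕ Bool}
    (hG : Good e' S' loc lab K' bot a' a2') (l : Bool) (he : e' (!l) = e (!l))
    (N : Finset α) (an : α → α ⊕ Bool) (out δ : α ⊕ Bool)
    (h1 : ∀ k ∈ N, k ≤ bot)
    (h2 : ∀ k ∈ N, dl e loc (an k) ⊓ bot = k)
    (h3 : dl e loc out = e' l) (h4 : dlab loc lab out = l)
    (h5 : ∀ k ∈ N, ∀ k' ∈ N, an k = an k' → k = k') (h6 : ∀ k ∈ N, an k ≠ out)
    (h7 : ∀ d, ((∃ k ∈ N, an k = d) ∨ out = d) ↔ ((∃ v ∈ N, d = Sum.inl v) ∨ d = δ))
    (hNS' : ∀ v ∈ N, v ∈ S') (hNS : ∀ v ∈ N, v ∉ S) (hSS' : S ⊆ S')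
    (hNK : ∀ v ∈ N, v ∉ K')
    (hl : Used K' a' a2' (Sum.inr l))
    (hδ : δ = Sum.inr l ∨ ∃ y ∈ K', y ∈ S' ∧ y ∉ S ∧ δ = Sum.inl y)
    (hδ1 : ∀ z ∈ K', z ∈ S' → z ∉ S → δ = Sum.inl z)
    (hδ2 : (∀ z ∈ K', z ∉ S') → δ = Sum.inr l)
    (hδ3 : (∃ z ∈ K', z ∈ S) → δ = Sum.inr l)
    (hloc : ∀ z y, y ∈ S' → y ∉ S → loc z = loc y → z ∈ S')
    (hNinj : ∀ v ∈ N, ∀ v' ∈ N, loc v = loc v' → v = v')
    (hyN : ∀ y ∈ K', y ∈ S' → y ∉ S → ∀ v ∈ N, loc y ≠ loc v)
    (hcomp : bot ≤ e true ⊓ e false ∨ e true ⊓ e false ≤ bot) :
    ∃ a, Good e S loc lab (K' ∪ N) bot a (repl l out a2') := by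
  -- values on the new part are not used in the old solution
  have hF : ∀ d, ((∃ v ∈ N, d = Sum.inl v) ∨ d = δ) → Used K' a' a2' d → d = Sum.inr l := by
    rintro d (⟨v, hv, rfl⟩ | rfl) hu
    · exact absurd (hNS' v hv) (hG.rng v hu).2
    · rcases hδ with h | ⟨y, hy, hyS', hyS, rfl⟩
      · exact h
      · exact absurd hyS' (hG.rng y hu).2
  have hout : ∀ d, Used K' a' a2' d → d ≠ Sum.inr l → d ≠ out := by
    intro d hu hd hdo
    exact hd (hF d ((h7 d).1 (Or.inr hdo.symm)) hu)
  have han : ∀ k ∈ N, ∀ d, Used K' a' a2' d → d ≠ Sum.inr l → an k ≠ d := by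
    intro k hk d hu hd hkd
    exact hd (hF d ((h7 d).1 (Or.inl ⟨k, hk, hkd⟩)) hu)
  have hUa : ∀ k ∈ K', Used K' a' a2' (a' k) := fun k hk => Or.inl ⟨k, hk, rfl⟩
  have hU2 : Used K' a' a2' a2' := Or.inr rfl
  have hrinj : ∀ d d', Used K' a' a2' d → Used K' a' a2' d' →
      repl l out d = repl l out d' → d = d' := by
    intro d d' hd hd' h
    by_cases c : d = Sum.inr l
    · by_cases c' : d' = Sum.inr l
      · rw [c, c']
      · rw [c, repl_same, repl_ne _ _ _ c'] at h
        exact absurd h.symm (hout d' hd' c')
    · by_cases c' : d' = Sum.inr l
      · rw [c', repl_same, repl_ne _ _ _ c] at h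
        exact absurd h (hout d hd c)
      · rwa [repl_ne _ _ _ c, repl_ne _ _ _ c'] at h
  have hranN : ∀ k ∈ N, ∀ d, Used K' a' a2' d → an k ≠ repl l out d := by
    intro k hk d hd
    by_cases c : d = Sum.inr l
    · rw [c, repl_same]; exact h6 k hk
    · rw [repl_ne _ _ _ c]; exact han k hk d hd c
  have hdl : ∀ d, dl e loc (repl l out d) = dl e' loc d := by
    intro d
    by_cases c : d = Sum.inr l
    · rw [c, repl_same, h3]; rfl
    · rw [repl_ne _ _ _ c]
      rcases d with y | i
      · rfl
      · have : i = !l := by
          cases i <;> cases l <;> simp at c ⊢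
        subst this
        exact he.symm
  have hdlab : ∀ d, dlab loc lab (repl l out d) = dlab loc lab d := by
    intro d
    by_cases c : d = Sum.inr l
    · rw [c, repl_same, h4]; rfl
    · rw [repl_ne _ _ _ c]
  set a : α → α ⊕ Bool := fun k => if k ∈ K' then repl l out (a' k) else an k with ha
  have haK : ∀ k ∈ K', a k = repl l out (a' k) := fun k hk => by simp [ha, hk]
  have haN : ∀ k ∈ N, a k = an k := fun k hk => by simp [ha, hNK k hk]
  have hused : ∀ d, Used (K' ∪ N) a (repl l out a2') d ↔
      ((d ≠ Sum.inr l ∧ Used K' a' a2' d) ∨ ((∃ v ∈ N, d = Sum.inl v) ∨ d = δ)) := by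
    intro d
    rw [← h7 d]
    constructor
    · rintro (⟨k, hk, rfl⟩ | rfl)
      · rcases Finset.mem_union.1 hk with hk | hk
        · rw [haK k hk]
          by_cases c : a' k = Sum.inr l
          · rw [c, repl_same]; exact Or.inr (Or.inr rfl)
          · rw [repl_ne _ _ _ c]; exact Or.inl ⟨c, hUa k hk⟩
        · rw [haN k hk]; exact Or.inr (Or.inl ⟨k, hk, rfl⟩)
      · by_cases c : a2' = Sum.inr l
        · rw [c, repl_same]; exact Or.inr (Or.inr rfl)
        · rw [repl_ne _ _ _ c]; exact Or.inl ⟨c, hU2⟩
    · rintro (⟨hd, ⟨k, hk, rfl⟩ | rfl⟩ | ⟨k, hk, rfl⟩ | rfl)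
      · exact Or.inl ⟨k, Finset.mem_union_left _ hk, by rw [haK k hk, repl_ne _ _ _ hd]⟩
      · exact Or.inr (repl_ne _ _ _ hd)
      · exact Or.inl ⟨k, Finset.mem_union_right _ hk, haN k hk⟩
      · rcases hl with ⟨k, hk, hkl⟩ | h2l
        · exact Or.inl ⟨k, Finset.mem_union_left _ hk, by rw [haK k hk, hkl, repl_same]⟩
        · exact Or.inr (by rw [h2l, repl_same])
  refine ⟨a, ?_⟩
  refine
    { botK := Finset.mem_union_left _ hG.botK
      chain := ?_
      side := ?_
      botm := ?_
      botlab := ?_
      inj := ?_
      ne2 := ?_
      rng := ?_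
      surj := ?_
      specS := ?_
      specN := ?_
      oneS := ?_
      locinj := ?_
      comp := hcomp }
  · intro k hk
    rcases Finset.mem_union.1 hk with hk | hk
    · exact hG.chain k hk
    · exact h1 k hk
  · intro k hk hkb
    rcases Finset.mem_union.1 hk with hk | hk
    · rw [haK k hk, hdl]; exact hG.side k hk hkb
    · rw [haN k hk]; exact h2 k hk
  · rw [haK bot hG.botK, hdl, hdl]; exact hG.botm
  · rw [haK bot hG.botK, hdlab, hdlab]; exact hG.botlab
  · intro k hk k' hk' h
    rcases Finset.mem_union.1 hk with hk | hk <;> rcases Finset.mem_union.1 hk' with hk' | hk'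
    · rw [haK k hk, haK k' hk'] at h
      exact hG.inj k hk k' hk' (hrinj _ _ (hUa k hk) (hUa k' hk') h)
    · rw [haK k hk, haN k' hk'] at h
      exact absurd h.symm (hranN k' hk' _ (hUa k hk))
    · rw [haN k hk, haK k' hk'] at h
      exact absurd h (hranN k hk _ (hUa k' hk'))
    · rw [haN k hk, haN k' hk'] at h
      exact h5 k hk k' hk' h
  · intro k hk h
    rcases Finset.mem_union.1 hk with hk | hk
    · rw [haK k hk] at h
      exact hG.ne2 k hk (hrinj _ _ (hUa k hk) hU2 h)
    · rw [haN k hk] at h
      exact hranN k hk _ hU2 h
  · intro y hy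
    rcases (hused _).1 hy with ⟨_, hy⟩ | ⟨v, hv, hyv⟩ | hyδ
    · have := hG.rng y hy
      exact ⟨Finset.mem_union_left _ this.1, fun h => this.2 (hSS' h)⟩
    · have : y = v := Sum.inl.inj hyv
      subst this
      exact ⟨Finset.mem_union_right _ hv, hNS y hv⟩
    · rcases hδ with h | ⟨z, hz, hzS', hzS, hz2⟩
      · rw [h] at hyδ; exact absurd hyδ (by simp)
      · rw [hz2] at hyδ
        have : y = z := Sum.inl.inj hyδ
        subst this
        exact ⟨Finset.mem_union_left _ hz, hzS⟩
  · intro y hy hyS
    rw [hused]
    rcases Finset.mem_union.1 hy with hy | hy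
    · by_cases c : y ∈ S'
      · exact Or.inr (Or.inr (hδ1 y hy c hyS).symm)
      · exact Or.inl ⟨by simp, hG.surj y hy c⟩
    · exact Or.inr (Or.inl ⟨y, hy, rfl⟩)
  · rintro ⟨y, hy, hyS⟩ i
    rw [hused]
    have hyK : y ∈ K' := by
      rcases Finset.mem_union.1 hy with hy | hy
      · exact hy
      · exact absurd hyS (hNS y hy)
    by_cases c : i = l
    · right; right
      rw [c]; exact (hδ3 ⟨y, hyK, hyS⟩).symm
    · left
      exact ⟨by simpa using c, hG.specS ⟨y, hyK, hSS' hyS⟩ i⟩
  · intro hall
    by_cases c : ∃ z ∈ K', z ∈ S'
    · obtain ⟨z, hz, hzS'⟩ := c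
      have hzS : z ∉ S := hall z (Finset.mem_union_left _ hz)
      have hδz := hδ1 z hz hzS' hzS
      refine ⟨!l, ?_, ?_⟩
      · rw [hused]
        left
        exact ⟨by simp, hG.specS ⟨z, hz, hzS'⟩ _⟩
      · rw [hused, Bool.not_not]
        rintro (⟨h, _⟩ | ⟨v, _, hv⟩ | h)
        · exact h rfl
        · exact absurd hv (by simp)
        · rw [hδz] at h; exact absurd h (by simp)
    · push Not at c
      obtain ⟨i, hi, hi'⟩ := hG.specN c
      have hil : i = l := by
        by_contra hne
        have : (!i) = l := by cases i <;> cases l <;> simp at hne ⊢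
        rw [this] at hi'
        exact hi' hl
      subst hil
      refine ⟨i, ?_, ?_⟩
      · rw [hused]; right; right; exact (hδ2 c).symm
      · rw [hused]
        rintro (⟨_, h⟩ | ⟨v, _, hv⟩ | h)
        · exact hi' h
        · exact absurd hv (by simp)
        · rw [hδ2 c] at h
          exact bnot_ne_self' i (Sum.inr.inj h)
  · intro y hy y' hy' hyS hyS'
    have hyK : y ∈ K' := by
      rcases Finset.mem_union.1 hy with hy | hy
      · exact hy
      · exact absurd hyS (hNS y hy)
    have hyK' : y' ∈ K' := by
      rcases Finset.mem_union.1 hy' with hy | hy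
      · exact hy
      · exact absurd hyS' (hNS y' hy)
    exact hG.oneS y hyK y' hyK' (hSS' hyS) (hSS' hyS')
  · have key : ∀ y ∈ K', ∀ v ∈ N, y ∉ S → loc y ≠ loc v := by
      intro y hy v hv hyS h
      by_cases c : y ∈ S'
      · exact hyN y hy c hyS v hv h
      · exact c (hloc y v (hNS' v hv) (hNS v hv) h)
    intro y hy y' hy' hyS hyS' h
    rcases Finset.mem_union.1 hy with hy | hy <;> rcases Finset.mem_union.1 hy' with hy' | hy'
    · by_cases c : y ∈ S'
      · have c' : y' ∈ S' := hloc y' y c hyS h.symm
        exact hG.oneS y hy y' hy' c c'
      · by_cases c' : y' ∈ S'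
        · exact absurd (hloc y y' c' hyS' h) c
        · exact hG.locinj y hy y' hy' c c' h
    · exact absurd h (key y hy y' hy' hyS)
    · exact absurd h.symm (key y' hy' y hy hyS')
    · exact hNinj y hy y' hy' h

/-- Keep the recursive configuration. -/
theorem keep {e e' : Bool → α} {S S' : Set α} {loc : α → α} {lab : α → Bool}
    {K' : Finset α} {bot : α} {a' : α → α ⊕ Bool} {a2' : α ⊕ Bool}
    (hG : Good e' S' loc lab K' bot a' a2') (hSS' : S ⊆ S') (hno : ∀ z ∈ K', z ∉ S')
    (hside : ∀ k ∈ K', k ≠ bot → dl e loc (a' k) ⊓ bot = k)
    (hbotm : dl e loc (a' bot) ⊓ dl e loc a2' = bot)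
    (hcomp : bot ≤ e true ⊓ e false ∨ e true ⊓ e false ≤ bot) :
    Good e S loc lab K' bot a' a2' where
  botK := hG.botK
  chain := hG.chain
  side := hside
  botm := hbotm
  botlab := hG.botlab
  inj := hG.inj
  ne2 := hG.ne2
  rng := fun y hy => ⟨(hG.rng y hy).1, fun h => (hG.rng y hy).2 (hSS' h)⟩
  surj := fun y hy _ => hG.surj y hy (hno y hy)
  specS := fun ⟨y, hy, hyS⟩ => absurd (hSS' hyS) (hno y hy)
  specN := fun _ => hG.specN hno
  oneS := fun y hy _ _ hyS => absurd (hSS' hyS) (hno y hy)
  locinj := fun y hy y' hy' _ _ h => hG.locinj y hy y' hy' (hno y hy) (hno y' hy') h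
  comp := hcomp

theorem clo_mono (loc : α → α) : Monotone (clo loc) := by
  intro X Y h y hy
  rcases hy with hy | ⟨x, hx, hxy⟩
  · exact Or.inl (h hy)
  · exact Or.inr ⟨x, h hx, hxy⟩

theorem clo_sub (loc : α → α) (X : Set α) : X ⊆ clo loc X := fun _ h => Or.inl h

theorem sub_iter_clo (loc : α → α) (n : ℕ) (X : Set α) : X ⊆ (clo loc)^[n] X := by
  induction n generalizing X with
  | zero => exact le_refl _
  | succ n ih =>
    rw [Function.iterate_succ_apply]
    exact (clo_sub loc X).trans (ih _)

/-- the new part of the chain -/
theorem seg [DecidableEq α] (v : ℕ → α) (P j : ℕ) (pred : α → α)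
    (vinj : ∀ i < P, ∀ i' < P, v i = v i' → i = i')
    (predv : ∀ i, pred (v (i + 1)) = v i) (δ : α ⊕ Bool)
    (hδ : ∀ i, j ≤ i → i < P → δ ≠ Sum.inl (v i)) (N : Finset α)
    (hN : N = (Finset.Ico j P).image v) (an : α → α ⊕ Bool)
    (han : an = fun k => if k = v j then δ else Sum.inl (pred k))
    (out : α ⊕ Bool) (hout : out = if j < P then Sum.inl (v (P - 1)) else δ) :
    (∀ k ∈ N, ∀ k' ∈ N, an k = an k' → k = k') ∧ (∀ k ∈ N, an k ≠ out) ∧
    (∀ d, ((∃ k ∈ N, an k = d) ∨ out = d) ↔ ((∃ v ∈ N, d = Sum.inl v) ∨ d = δ)) := by
  have memN : ∀ k, k ∈ N ↔ ∃ i, j ≤ i ∧ i < P ∧ v i = k := by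
    intro k
    rw [hN, Finset.mem_image]
    constructor
    · rintro ⟨i, hi, rfl⟩
      rw [Finset.mem_Ico] at hi
      exact ⟨i, hi.1, hi.2, rfl⟩
    · rintro ⟨i, h1, h2, rfl⟩
      exact ⟨i, Finset.mem_Ico.2 ⟨h1, h2⟩, rfl⟩
  have an0 : an (v j) = δ := by rw [han]; simp
  have ans : ∀ i, j ≤ i → i + 1 < P → an (v (i + 1)) = Sum.inl (v i) := by
    intro i hi hiP
    have : v (i + 1) ≠ v j := by
      intro h
      have := vinj _ hiP j (by omega) h
      omega
    rw [han]
    simp only [this, if_false, predv]
  have hcase : ∀ k ∈ N, (j < P ∧ k = v j ∧ an k = δ) ∨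
      ∃ i, j ≤ i ∧ i + 1 < P ∧ k = v (i + 1) ∧ an k = Sum.inl (v i) := by
    intro k hk
    obtain ⟨i, h1, h2, rfl⟩ := (memN k).1 hk
    rcases h1.eq_or_lt with h3 | h3
    · subst h3; exact Or.inl ⟨h2, rfl, an0⟩
    · right
      obtain ⟨i, rfl⟩ : ∃ m, i = m + 1 := ⟨i - 1, by omega⟩
      exact ⟨i, by omega, h2, rfl, ans i (by omega) h2⟩
  refine ⟨?_, ?_, ?_⟩
  · intro k hk k' hk' h
    rcases hcase k hk with ⟨_, h1, h2⟩ | ⟨i, hi, hiP, h1, h2⟩ <;>
      rcases hcase k' hk' with ⟨_, h1', h2'⟩ | ⟨i', hi', hiP', h1', h2'⟩
    · rw [h1, h1']
    · rw [h2, h2'] at h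
      exact absurd h (hδ i' hi' (by omega))
    · rw [h2, h2'] at h
      exact absurd h.symm (hδ i hi (by omega))
    · rw [h2, h2'] at h
      have := vinj i (by omega) i' (by omega) (Sum.inl.inj h)
      rw [h1, h1', this]
  · intro k hk h
    rcases hcase k hk with ⟨hjP, h1, h2⟩ | ⟨i, hi, hiP, h1, h2⟩
    · rw [h2, hout, if_pos hjP] at h
      exact hδ (P - 1) (by omega) (by omega) h
    · rw [h2, hout, if_pos (by omega)] at h
      have := vinj i (by omega) (P - 1) (by omega) (Sum.inl.inj h)
      omega
  · intro d
    constructor
    · rintro (⟨k, hk, rfl⟩ | rfl)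
      · rcases hcase k hk with ⟨_, h1, h2⟩ | ⟨i, hi, hiP, h1, h2⟩
        · exact Or.inr h2
        · exact Or.inl ⟨v i, (memN _).2 ⟨i, hi, by omega, rfl⟩, h2⟩
      · by_cases hjP : j < P
        · rw [hout, if_pos hjP]
          exact Or.inl ⟨_, (memN _).2 ⟨P - 1, by omega, by omega, rfl⟩, rfl⟩
        · rw [hout, if_neg hjP]
          exact Or.inr rfl
    · rintro (⟨k, hk, rfl⟩ | rfl)
      · obtain ⟨i, h1, h2, rfl⟩ := (memN k).1 hk
        by_cases c : i + 1 < P
        · exact Or.inl ⟨v (i + 1), (memN _).2 ⟨i + 1, by omega, c, rfl⟩, ans i h1 c⟩
        · right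
          rw [hout, if_pos (by omega)]
          have : i = P - 1 := by omega
          rw [this]
      · by_cases hjP : j < P
        · exact Or.inl ⟨v j, (memN _).2 ⟨j, le_rfl, hjP, rfl⟩, an0⟩
        · right; rw [hout, if_neg hjP]

end

theorem slStatement : SLStatement := by
  classical
  intro α _ _ htree ht h hmono hbd loc lab n
  induction n with
  | zero =>
    intro e S hn
    exfalso
    have := hbd (e true ⊓ e false)
    omega
  | succ n ih =>
    intro e S hn
    set b := e true ⊓ e false with hb
    have hbe : ∀ i, b ≤ e i := by
      intro i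
      cases i
      · exact inf_le_right
      · exact inf_le_left
    set A : Set α := {y | y ≤ e true} ∪ {y | y ≤ e false} with hAdef
    have hA0 : ∀ y, y ≤ b → y ∈ A := fun y hy => Or.inl (hy.trans (hbe true))
    have hA : ∀ y, y ≤ b → y ∈ (clo loc)^[n + 1] A := fun y hy => sub_iter_clo _ _ _ (hA0 y hy)
    let f : α → α := fun y => if y ∈ S then b else loc y ⊓ b
    have fS : ∀ y ∈ S, f y = b := fun y hy => by simp [f, hy]
    have fN : ∀ y, y ∉ S → f y = loc y ⊓ b := fun y hy => by simp [f, hy]
    have fle : ∀ y, f y ≤ b := by
      intro y
      by_cases hy : y ∈ S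
      · rw [fS y hy]
      · rw [fN y hy]; exact inf_le_right
    set Per := Function.periodicPts f with hPer
    have hbij := Function.bijOn_periodicPts f
    have fPer : ∀ y ∈ Per, f y ∈ Per := fun y hy => hbij.mapsTo hy
    have finj : ∀ y ∈ Per, ∀ y' ∈ Per, f y = f y' → y = y' := fun y hy y' hy' he =>
      hbij.injOn hy hy' he
    have hpred : ∀ k, ∃ y, k ∈ Per → y ∈ Per ∧ f y = k := by
      intro k
      by_cases hk : k ∈ Per
      · obtain ⟨y, hy, hyk⟩ := hbij.surjOn hk
        exact ⟨y, fun _ => ⟨hy, hyk⟩⟩
      · exact ⟨k, fun h => absurd h hk⟩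
    choose pred hpred using hpred
    have pred_f : ∀ y ∈ Per, pred (f y) = y := fun y hy =>
      finj _ (hpred _ (fPer y hy)).1 _ hy (hpred _ (fPer y hy)).2
    have per_le : ∀ y ∈ Per, y ≤ b := fun y hy => by
      rw [← (hpred y hy).2]; exact fle _
    have hSlab : ∀ i : Bool, (!i) ≠ i := fun i => by cases i <;> decide
    by_cases hbP : b ∈ Per
    swap
    · -- `b` is not periodic
      have hPS : ∀ y ∈ Per, y ∉ S := by
        intro y hy hyS
        have := fPer y hy
        rw [fS y hyS] at this
        exact hbP this
      obtain ⟨x, y, hxy, hfxy⟩ := Finite.exists_ne_map_eq_of_infinite (fun m : ℕ => f^[m] b)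
      have hne : ∃ z, z ∈ Per := by
        rcases lt_or_gt_of_ne hxy with hlt | hlt
        · refine ⟨f^[x] b, Function.mk_mem_periodicPts (n := y - x) (by omega) ?_⟩
          change f^[y - x] (f^[x] b) = f^[x] b
          rw [← Function.iterate_add_apply, Nat.sub_add_cancel hlt.le]
          exact hfxy.symm
        · refine ⟨f^[y] b, Function.mk_mem_periodicPts (n := x - y) (by omega) ?_⟩
          change f^[x - y] (f^[y] b) = f^[y] b
          rw [← Function.iterate_add_apply, Nat.sub_add_cancel hlt.le]
          exact hfxy
      set K : Finset α := Finset.univ.filter (· ∈ Per) with hK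
      have memK : ∀ z, z ∈ K ↔ z ∈ Per := fun z => by simp [hK]
      obtain ⟨z, hz⟩ := hne
      obtain ⟨bot, hbotK, hmax⟩ := Finset.exists_max_image K ht ⟨z, (memK z).2 hz⟩
      have hbotP := (memK bot).1 hbotK
      have hchain : ∀ k ∈ K, k ≤ bot := by
        intro k hk
        rcases htree k bot b (per_le k ((memK k).1 hk)) (per_le bot hbotP) with h1 | h1
        · exact h1
        · rcases h1.lt_or_eq with h2 | h2
          · have := hmono _ _ h2
            have := hmax k hk
            omega
          · exact h2.symm.le
      have hbot_lt : bot ≠ b := fun h => hbP (h ▸ hbotP)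
      have hbotb : bot ≤ b := per_le bot hbotP
      set l := lab (loc (pred bot)) with hl
      have hloc : ∀ k ∈ Per, loc (pred k) ⊓ b = k := by
        intro k hk
        rw [← fN _ (hPS _ (hpred k hk).1)]
        exact (hpred k hk).2
      refine ⟨K, bot, fun k => Sum.inl (pred k), Sum.inr (!l), ?_, ?_⟩
      · refine
          { botK := hbotK
            chain := hchain
            side := ?_
            botm := ?_
            botlab := ?_
            inj := ?_
            ne2 := ?_
            rng := ?_
            surj := ?_
            specS := ?_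
            specN := ?_
            oneS := ?_
            locinj := ?_
            comp := Or.inl hbotb }
        · intro k hk _
          change loc (pred k) ⊓ bot = k
          have h1 : bot = b ⊓ bot := (inf_eq_right.2 hbotb).symm
          rw [h1, ← inf_assoc, hloc k ((memK k).1 hk)]
          exact inf_eq_left.2 (hchain k hk)
        · change loc (pred bot) ⊓ e (!l) = bot
          have h1 : ¬ b ≤ loc (pred bot) := by
            intro hle
            have := hloc bot hbotP
            rw [inf_eq_right.2 hle] at this
            exact hbot_lt this.symm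
          rw [inf_eq_of_not_le htree (hbe _) h1]
          exact hloc bot hbotP
        · change lab (loc (pred bot)) ≠ !l
          rw [← hl]
          exact (hSlab l).symm
        · intro k hk k' hk' hkk
          have : pred k = pred k' := Sum.inl.inj hkk
          rw [← (hpred k ((memK k).1 hk)).2, this, (hpred k' ((memK k').1 hk')).2]
        · intro k _ hk
          exact absurd hk (by simp)
        · rintro y (⟨k, hk, hky⟩ | hy)
          · have : pred k = y := Sum.inl.inj hky
            subst this
            have := (hpred k ((memK k).1 hk)).1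
            exact ⟨(memK _).2 this, hPS _ this⟩
          · exact absurd hy (by simp)
        · intro y hy _
          have hyP := (memK y).1 hy
          exact Or.inl ⟨f y, (memK _).2 (fPer y hyP), congrArg Sum.inl (pred_f y hyP)⟩
        · rintro ⟨y, hy, hyS⟩
          exact absurd hyS (hPS y ((memK y).1 hy))
        · intro _
          refine ⟨!l, Or.inr rfl, ?_⟩
          rintro (⟨k, _, hk⟩ | hk)
          · exact absurd hk (by simp)
          · exact hSlab _ (Sum.inr.inj hk).symm
        · intro y hy _ _ hyS
          exact absurd hyS (hPS y ((memK y).1 hy))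
        · intro y hy y' hy' hyS hyS' hyy
          refine finj y ((memK y).1 hy) y' ((memK y').1 hy') ?_
          rw [fN y hyS, fN y' hyS', hyy]
      · intro k hk
        exact hA k (per_le k ((memK k).1 hk))
    · -- `b` is periodic
      set P := Function.minimalPeriod f b with hP
      have hPpos : 0 < P := Function.minimalPeriod_pos_of_mem_periodicPts hbP
      set v : ℕ → α := fun i => f^[i] b with hv
      have v0 : v 0 = b := rfl
      have vs : ∀ i, v (i + 1) = f (v i) := fun i => Function.iterate_succ_apply' f i b
      have vP : v P = b := Function.iterate_minimalPeriod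
      have vinj : ∀ i < P, ∀ j < P, v i = v j → i = j := fun i hi j hj hij =>
        Function.iterate_injOn_Iio_minimalPeriod (f := f) (x := b) hi hj hij
      have vPer : ∀ i, v i ∈ Per := by
        intro i
        induction i with
        | zero => exact hbP
        | succ i ih => rw [vs]; exact fPer _ ih
      have predv : ∀ i, pred (v (i + 1)) = v i := fun i => by
        rw [vs]; exact pred_f _ (vPer i)
      have predb : pred b = v (P - 1) := by
        have h1 : v (P - 1 + 1) = b := by rw [Nat.sub_add_cancel hPpos]; exact vP
        rw [← h1]; exact predv _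
      have vle : ∀ i, v i ≤ b := fun i => per_le _ (vPer i)
      have vne : ∀ i, 0 < i → i < P → v i ≠ b := by
        intro i hi hiP hvi
        have := vinj i hiP 0 hPpos (hvi.trans v0.symm)
        omega
      set C : Finset α := (Finset.range P).image v with hC
      have memC : ∀ y, y ∈ C ↔ ∃ i < P, v i = y := fun y => by simp [hC]
      have CPer : ∀ y ∈ C, y ∈ Per := by
        intro y hy
        obtain ⟨i, _, rfl⟩ := (memC y).1 hy
        exact vPer i
      have bC : b ∈ C := (memC b).2 ⟨0, hPpos, v0⟩
      have fC : ∀ y ∈ C, f y ∈ C := by
        intro y hy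
        obtain ⟨i, hi, rfl⟩ := (memC y).1 hy
        rw [← vs]
        by_cases hiP : i + 1 < P
        · exact (memC _).2 ⟨i + 1, hiP, rfl⟩
        · have : i + 1 = P := by omega
          rw [this, vP]; exact bC
      have predC : ∀ y ∈ C, pred y ∈ C := by
        intro y hy
        obtain ⟨i, hi, rfl⟩ := (memC y).1 hy
        rcases i with _ | i
        · rw [v0, predb]; exact (memC _).2 ⟨P - 1, by omega, rfl⟩
        · rw [predv]; exact (memC _).2 ⟨i, by omega, rfl⟩
      by_cases hvS : ∃ i, v i ∈ S
      · obtain ⟨i0, hi0⟩ := hvS
        have hi0b : f (v i0) = b := fS _ hi0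
        have uniq : ∀ y ∈ Per, y ∈ S → y = v i0 := fun y hy hyS =>
          finj _ hy _ (vPer i0) (by rw [fS y hyS, hi0b])
        refine ⟨C, b, fun k => if k = b then Sum.inr true else Sum.inl (pred k), Sum.inr false,
          ?_, fun k hk => hA k (per_le k (CPer k hk))⟩
        refine
          { botK := bC
            chain := fun k hk => per_le k (CPer k hk)
            side := ?_
            botm := ?_
            botlab := ?_
            inj := ?_
            ne2 := ?_
            rng := ?_
            surj := ?_
            specS := ?_
            specN := ?_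
            oneS := ?_
            locinj := ?_
            comp := Or.inl le_rfl }
        · intro k hk hkb
          have hkP := CPer k hk
          simp only [hkb, if_false]
          change loc (pred k) ⊓ b = k
          rw [← fN _ ?_, (hpred k hkP).2]
          intro hS
          have := (hpred k hkP).2
          rw [fS _ hS] at this
          exact hkb this.symm
        · simp only [if_true]
          rfl
        · simp [dlab]
        · intro k hk k' hk' hkk
          by_cases c : k = b <;> by_cases c' : k' = b
          · rw [c, c']
          · simp [c, c'] at hkk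
          · simp [c, c'] at hkk
          · simp only [c, c', if_false] at hkk
            have : pred k = pred k' := Sum.inl.inj hkk
            rw [← (hpred k (CPer k hk)).2, this, (hpred k' (CPer k' hk')).2]
        · intro k _ hkk
          by_cases c : k = b
          · simp [c] at hkk
          · simp [c] at hkk
        · rintro y (⟨k, hk, hky⟩ | hy)
          · by_cases c : k = b
            · simp [c] at hky
            · simp only [c, if_false] at hky
              have : pred k = y := Sum.inl.inj hky
              subst this
              refine ⟨predC k hk, fun hS => c ?_⟩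
              rw [← (hpred k (CPer k hk)).2, fS _ hS]
          · exact absurd hy (by simp)
        · intro y hy hyS
          refine Or.inl ⟨f y, fC y hy, ?_⟩
          have hne : f y ≠ b := by
            intro hfy
            have : y = v i0 := finj _ (CPer y hy) _ (vPer i0) (by rw [hfy, hi0b])
            exact hyS (this ▸ hi0)
          simp only [hne, if_false]
          rw [pred_f y (CPer y hy)]
        · rintro _ i
          cases i
          · exact Or.inr rfl
          · exact Or.inl ⟨b, bC, by simp⟩
        · intro hall
          exfalso
          have hmem : v i0 ∈ C := by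
            have : v i0 = pred b := by
              rw [← hi0b]; exact (pred_f _ (vPer i0)).symm
            rw [this]; exact predC b bC
          exact hall _ hmem hi0
        · intro y hy y' hy' hyS hyS'
          rw [uniq y (CPer y hy) hyS, uniq y' (CPer y' hy') hyS']
        · intro y hy y' hy' hyS hyS' hyy
          refine finj y (CPer y hy) y' (CPer y' hy') ?_
          rw [fN y hyS, fN y' hyS', hyy]
      · push Not at hvS
        have CS : ∀ y ∈ C, y ∉ S := by
          intro y hy
          obtain ⟨i, _, rfl⟩ := (memC y).1 hy
          exact hvS i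
        have hlocC : ∀ k ∈ C, loc (pred k) ⊓ b = k := by
          intro k hk
          rw [← fN _ (CS _ (predC k hk)), (hpred k (CPer k hk)).2]
        set y0 := v (P - 1) with hy0
        set w := loc y0 with hw
        set l := lab w with hl
        have hwb : w ⊓ b = b := by
          have := hlocC b bC
          rwa [predb] at this
        have hbw : b ≤ w := inf_eq_right.1 hwb
        by_cases hwe : w ⊓ e (!l) = b
        · -- stop here
          refine ⟨C, b, fun k => Sum.inl (pred k), Sum.inr (!l), ?_,
            fun k hk => hA k (per_le k (CPer k hk))⟩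
          refine
            { botK := bC
              chain := fun k hk => per_le k (CPer k hk)
              side := fun k hk _ => hlocC k hk
              botm := ?_
              botlab := ?_
              inj := ?_
              ne2 := fun k _ hk => absurd hk (by simp)
              rng := ?_
              surj := ?_
              specS := ?_
              specN := ?_
              oneS := ?_
              locinj := ?_
              comp := Or.inl le_rfl }
          · change loc (pred b) ⊓ e (!l) = b
            rw [predb]; exact hwe
          · change lab (loc (pred b)) ≠ !l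
            rw [predb]; exact (hSlab l).symm
          · intro k hk k' hk' hkk
            have : pred k = pred k' := Sum.inl.inj hkk
            rw [← (hpred k (CPer k hk)).2, this, (hpred k' (CPer k' hk')).2]
          · rintro y (⟨k, hk, hky⟩ | hy)
            · have : pred k = y := Sum.inl.inj hky
              subst this
              exact ⟨predC k hk, CS _ (predC k hk)⟩
            · exact absurd hy (by simp)
          · intro y hy _
            exact Or.inl ⟨f y, fC y hy, congrArg Sum.inl (pred_f y (CPer y hy))⟩
          · rintro ⟨y, hy, hyS⟩
            exact absurd hyS (CS y hy)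
          · intro _
            refine ⟨!l, Or.inr rfl, ?_⟩
            rintro (⟨k, _, hk⟩ | hk)
            · exact absurd hk (by simp)
            · exact hSlab _ (Sum.inr.inj hk).symm
          · intro y hy _ _ hyS
            exact absurd hyS (CS y hy)
          · intro y hy y' hy' hyS hyS' hyy
            refine finj y (CPer y hy) y' (CPer y' hy') ?_
            rw [fN y hyS, fN y' hyS', hyy]
        · -- recursion
          set b' := w ⊓ e (!l) with hb'
          have hbb' : b < b' := lt_of_le_of_ne (le_inf hbw (hbe _)) (fun h => hwe h.symm)
          set e' : Bool → α := fun i => if i = l then w else e i with he'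
          have he'l : e' l = w := by simp [he']
          have he'n : e' (!l) = e (!l) := by simp [he']
          have he'b : e' true ⊓ e' false = b' := by
            rw [hb', ← he'n, ← he'l]
            rcases Bool.eq_false_or_eq_true l with h1 | h1
            · rw [h1]; rfl
            · rw [h1, inf_comm]; rfl
          set S' : Set α := S ∪ {y | ∃ u ∈ C, loc y = loc u} ∪ {y | ∃ u ∈ C, loc y ⊓ b' = u}
            with hS'
          have hSS' : S ⊆ S' := fun y hy => Or.inl (Or.inl hy)
          have hCS' : ∀ y ∈ C, y ∈ S' := fun y hy => Or.inl (Or.inr ⟨y, hy, rfl⟩)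
          have hlocS' : ∀ z y, y ∈ S' → y ∉ S → loc z = loc y → z ∈ S' := by
            rintro z y ((hy | ⟨u, hu, hy⟩) | ⟨u, hu, hy⟩) hyS hzy
            · exact absurd hy hyS
            · exact Or.inl (Or.inr ⟨u, hu, hzy.trans hy⟩)
            · exact Or.inr ⟨u, hu, by rw [hzy]; exact hy⟩
          have hCinj : ∀ u ∈ C, ∀ u' ∈ C, loc u = loc u' → u = u' := by
            intro u hu u' hu' h
            refine finj u (CPer u hu) u' (CPer u' hu') ?_
            rw [fN u (CS u hu), fN u' (CS u' hu'), h]
          obtain ⟨K', bot', a', a2', hG, hcl⟩ := ih e' S' (by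
            rw [he'b]; have := hmono _ _ hbb'; omega)
          have hclK : ∀ k ∈ K', k ∈ (clo loc)^[n + 1] A := by
            intro k hk
            rw [Function.iterate_succ_apply]
            refine (clo_mono loc).iterate n ?_ (hcl k hk)
            have key : ∀ i y, y ≤ e' i → y ∈ clo loc A := by
              intro i y hy
              by_cases c : i = l
              · rw [c, he'l] at hy
                exact Or.inr ⟨y0, hA0 _ (vle _), hy⟩
              · have : e' i = e i := by simp [he', c]
                rw [this] at hy
                cases i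
                · exact Or.inl (Or.inr hy)
                · exact Or.inl (Or.inl hy)
            rintro y (hy | hy)
            · exact key true y hy
            · exact key false y hy
          have hcomp' : bot' ≤ b' ∨ b' ≤ bot' := by
            have := hG.comp
            rwa [he'b] at this
          have hcompb : bot' ≤ b ∨ b ≤ bot' := by
            rcases hcomp' with h1 | h1
            · exact htree _ _ _ h1 hbb'.le
            · exact Or.inr (hbb'.le.trans h1)
          have hbe2 : e l ⊓ e (!l) = b := by
            rw [hb]
            rcases Bool.eq_false_or_eq_true l with h1 | h1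
            · rw [h1]; rfl
            · rw [h1, inf_comm]; rfl
          have hspec : b ≤ bot' → e l ⊓ bot' = b := by
            intro hbbot
            apply le_antisymm
            · rcases hcomp' with h1 | h1
              · calc e l ⊓ bot' ≤ e l ⊓ e (!l) := inf_le_inf_left _ (h1.trans inf_le_right)
                  _ = b := hbe2
              · have h2 : ¬ b' ≤ e l := by
                  intro h2
                  have : b' ≤ b := by
                    rw [← hbe2]; exact le_inf h2 inf_le_right
                  exact absurd this (not_le_of_gt hbb')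
                rw [inf_eq_of_not_le htree h1 h2]
                calc e l ⊓ b' ≤ e l ⊓ e (!l) := inf_le_inf_left _ inf_le_right
                  _ = b := hbe2
            · exact le_inf (hbe _) hbbot
          have hpredloc : b ≤ bot' → ∀ i, i + 1 < P → loc (v i) ⊓ bot' = v (i + 1) := by
            intro hbbot i hi
            have h1 : loc (v i) ⊓ b = v (i + 1) := by
              rw [vs, fN _ (hvS i)]
            have h2 : ¬ b ≤ loc (v i) := by
              intro h2
              rw [inf_eq_right.2 h2] at h1
              exact vne (i + 1) (by omega) hi h1.symm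
            rw [inf_eq_of_not_le htree hbbot h2, h1]
          have step : ∀ (j : ℕ) (δ : α ⊕ Bool), b ≤ bot' →
              (∀ i, j ≤ i → i < P → δ ≠ Sum.inl (v i)) →
              (j < P → dl e loc δ ⊓ bot' = v j) →
              (¬ j < P → dl e loc δ = w ∧ dlab loc lab δ = l) →
              (∀ i, j ≤ i → i < P → v i ∉ K') →
              Used K' a' a2' (Sum.inr l) →
              (δ = Sum.inr l ∨ ∃ y ∈ K', y ∈ S' ∧ y ∉ S ∧ δ = Sum.inl y) →
              (∀ z ∈ K', z ∈ S' → z ∉ S → δ = Sum.inl z) →
              ((∀ z ∈ K', z ∉ S') → δ = Sum.inr l) →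
              ((∃ z ∈ K', z ∈ S) → δ = Sum.inr l) →
              (∀ y ∈ K', y ∈ S' → y ∉ S → ∀ i, j ≤ i → i < P → loc y ≠ loc (v i)) →
              ∃ K bot a a2, Good e S loc lab K bot a a2 ∧
                ∀ k ∈ K, k ∈ (clo loc)^[n + 1] A := by
            intro j δ hbbot g1 g2 g3 g4 g5 g6 g7 g8 g9 g10
            set N : Finset α := (Finset.Ico j P).image v with hN
            set an : α → α ⊕ Bool := fun k => if k = v j then δ else Sum.inl (pred k) with han
            set out : α ⊕ Bool := if j < P then Sum.inl (v (P - 1)) else δ with hout
            obtain ⟨s5, s6, s7⟩ := seg v P j pred vinj predv δ g1 N hN an han out hout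
            have memN : ∀ k ∈ N, ∃ i, j ≤ i ∧ i < P ∧ v i = k := by
              intro k hk
              rw [hN, Finset.mem_image] at hk
              obtain ⟨i, hi, rfl⟩ := hk
              rw [Finset.mem_Ico] at hi
              exact ⟨i, hi.1, hi.2, rfl⟩
            have NC : ∀ k ∈ N, k ∈ C := by
              intro k hk
              obtain ⟨i, _, h2, rfl⟩ := memN k hk
              exact (memC _).2 ⟨i, h2, rfl⟩
            have t1 : ∀ k ∈ N, k ≤ bot' := fun k hk => (per_le k (CPer k (NC k hk))).trans hbbot
            have t2 : ∀ k ∈ N, dl e loc (an k) ⊓ bot' = k := by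
              intro k hk
              obtain ⟨i, h1, h2, rfl⟩ := memN k hk
              rcases h1.eq_or_lt with h3 | h3
              · subst h3
                have : an (v j) = δ := by rw [han]; simp
                rw [this]; exact g2 h2
              · obtain ⟨i, rfl⟩ : ∃ m, i = m + 1 := ⟨i - 1, by omega⟩
                have hne : v (i + 1) ≠ v j := by
                  intro h
                  have := vinj _ h2 j (by omega) h
                  omega
                have : an (v (i + 1)) = Sum.inl (v i) := by
                  rw [han]; simp only [hne, if_false, predv]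
                rw [this]
                exact hpredloc hbbot i h2
            have t3 : dl e loc out = e' l := by
              rw [he'l]
              by_cases hjP : j < P
              · rw [hout, if_pos hjP]; rfl
              · rw [hout, if_neg hjP]; exact (g3 hjP).1
            have t4 : dlab loc lab out = l := by
              by_cases hjP : j < P
              · rw [hout, if_pos hjP]; rfl
              · rw [hout, if_neg hjP]; exact (g3 hjP).2
            have hNK : ∀ u ∈ N, u ∉ K' := by
              intro u hu
              obtain ⟨i, h1, h2, rfl⟩ := memN u hu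
              exact g4 i h1 h2
            have hyN : ∀ y ∈ K', y ∈ S' → y ∉ S → ∀ u ∈ N, loc y ≠ loc u := by
              intro y hy hyS' hyS u hu
              obtain ⟨i, h1, h2, rfl⟩ := memN u hu
              exact g10 y hy hyS' hyS i h1 h2
            obtain ⟨a, ha⟩ := lift hG l he'n N an out δ t1 t2 t3 t4 s5 s6 s7
              (fun u hu => hCS' u (NC u hu)) (fun u hu => CS u (NC u hu)) hSS' hNK g5 g6 g7 g8 g9
              hlocS' (fun u hu u' hu' h => hCinj u (NC u hu) u' (NC u' hu') h) hyN hcompb
            refine ⟨K' ∪ N, bot', a, repl l out a2', ha, ?_⟩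
            intro k hk
            rcases Finset.mem_union.1 hk with hk | hk
            · exact hclK k hk
            · exact hA k (per_le k (CPer k (NC k hk)))
          by_cases hno : ∀ z ∈ K', z ∉ S'
          · -- no exceptional vertex
            obtain ⟨i, hi, hi'⟩ := hG.specN hno
            by_cases hil : i = l
            · subst hil
              by_cases hbbot : b ≤ bot'
              · refine step 0 (Sum.inr l) hbbot (fun i _ _ => by simp) ?_ ?_ ?_ hi (Or.inl rfl)
                  (fun z hz hzS' => absurd hzS' (hno z hz)) (fun _ => rfl) (fun _ => rfl)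
                  (fun z hz hzS' => absurd hzS' (hno z hz))
                · intro _
                  exact hspec hbbot
                · intro h; exact absurd hPpos h
                · intro i _ hiP hK
                  exact hno _ hK (hCS' _ ((memC _).2 ⟨i, hiP, rfl⟩))
              · have hbotb : bot' ≤ b := hcompb.resolve_right hbbot
                have hz : ∀ z, z ⊓ w = bot' → z ⊓ e l = bot' := by
                  intro z hz
                  have h1 : ¬ b ≤ z := fun h => hbbot (hz ▸ le_inf h hbw)
                  rw [inf_eq_of_not_le htree (hbe l) h1, ← inf_eq_of_not_le htree hbw h1, hz]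
                have hdl : ∀ d, d ≠ Sum.inr l → dl e loc d = dl e' loc d := by
                  rintro (y | i) hd
                  · rfl
                  · have : i ≠ l := fun h => hd (by rw [h])
                    simp [dl, he', this]
                refine ⟨K', bot', a', a2', keep hG hSS' hno ?_ ?_ hcompb, hclK⟩
                · intro k hk hkb
                  by_cases c : a' k = Sum.inr l
                  · exfalso
                    have := hG.side k hk hkb
                    rw [c] at this
                    change e' l ⊓ bot' = k at this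
                    rw [he'l, inf_eq_right.2 (hbotb.trans hbw)] at this
                    exact hkb this.symm
                  · rw [hdl _ c]; exact hG.side k hk hkb
                · have hbm := hG.botm
                  by_cases c : a' bot' = Sum.inr l
                  · have c2 : a2' ≠ Sum.inr l := fun h => hG.ne2 _ hG.botK (c.trans h.symm)
                    rw [c] at hbm ⊢
                    change e' l ⊓ _ = bot' at hbm
                    change e l ⊓ _ = bot'
                    rw [he'l, inf_comm] at hbm
                    rw [hdl _ c2, inf_comm]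
                    exact hz _ hbm
                  · rw [hdl _ c]
                    by_cases c2 : a2' = Sum.inr l
                    · rw [c2] at hbm ⊢
                      change _ ⊓ e' l = bot' at hbm
                      change _ ⊓ e l = bot'
                      rw [he'l] at hbm
                      exact hz _ hbm
                    · rw [hdl _ c2]; exact hbm
            · have hil' : (!i) = l := by
                cases i <;> cases hll : l <;> simp [hll] at hil ⊢
              rw [hil'] at hi'
              have hdl : ∀ d, Used K' a' a2' d → dl e loc d = dl e' loc d := by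
                rintro (y | m) hd
                · rfl
                · have : m ≠ l := fun h => hi' (h ▸ hd)
                  simp [dl, he', this]
              refine ⟨K', bot', a', a2', keep hG hSS' hno ?_ ?_ hcompb, hclK⟩
              · intro k hk hkb
                rw [hdl _ (Or.inl ⟨k, hk, rfl⟩)]; exact hG.side k hk hkb
              · rw [hdl _ (Or.inl ⟨bot', hG.botK, rfl⟩), hdl _ (Or.inr rfl)]
                exact hG.botm
          · push Not at hno
            obtain ⟨y, hyK, hyS'⟩ := hno
            have hbbot : b ≤ bot' := by
              by_contra hbbot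
              have hbotb : bot' ≤ b := hcompb.resolve_right hbbot
              have hloc2 : ∀ i, b ≤ e' i := by
                intro i
                by_cases c : i = l
                · rw [c, he'l]; exact hbw
                · have : e' i = e i := by simp [he', c]
                  rw [this]; exact hbe i
              have hat : ∀ i, a' bot' = Sum.inr i ∨ a2' = Sum.inr i := by
                intro i
                rcases hG.specS ⟨y, hyK, hyS'⟩ i with ⟨k, hk, hki⟩ | h2
                · by_cases c : k = bot'
                  · left; rw [← c]; exact hki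
                  · exfalso
                    have := hG.side k hk c
                    rw [hki] at this
                    change e' i ⊓ bot' = k at this
                    rw [inf_eq_right.2 (hbotb.trans (hloc2 i))] at this
                    exact c this.symm
                · exact Or.inr h2
              have hbm := hG.botm
              have h3 : e' true ⊓ e' false = bot' := by
                rcases hat true with h1 | h1 <;> rcases hat false with h2 | h2
                · rw [h1] at h2; simp at h2
                · rw [h1, h2] at hbm; exact hbm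
                · rw [h1, h2, inf_comm] at hbm; exact hbm
                · rw [h1] at h2; simp at h2
              rw [he'b] at h3
              exact hbbot (h3 ▸ hbb'.le)
            have honly : ∀ z ∈ K', z ∈ S' → z = y := fun z hz hzS' =>
              hG.oneS z hz y hyK hzS' hyS'
            have hul : Used K' a' a2' (Sum.inr l) := hG.specS ⟨y, hyK, hyS'⟩ l
            by_cases hyS : y ∈ S
            · refine step 0 (Sum.inr l) hbbot (fun i _ _ => by simp) ?_ ?_ ?_ hul (Or.inl rfl)
                ?_ (fun _ => rfl) (fun _ => rfl) ?_
              · intro _; exact hspec hbbot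
              · intro h; exact absurd hPpos h
              · intro i _ hiP hK
                have h1 : v i = y := honly _ hK (hCS' _ ((memC _).2 ⟨i, hiP, rfl⟩))
                exact hvS i (h1 ▸ hyS)
              · intro z hz hzS' hzS
                exact absurd (honly z hz hzS' ▸ hyS) hzS
              · intro z hz hzS' hzS
                exact absurd (honly z hz hzS' ▸ hyS) hzS
            · by_cases hyC : ∃ u ∈ C, loc y = loc u
              · obtain ⟨u, hu, hyu⟩ := hyC
                obtain ⟨i, hi, rfl⟩ := (memC u).1 hu
                have hne : ∀ m, i + 1 ≤ m → m < P → loc y ≠ loc (v m) := by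
                  intro m hm hmP h
                  have := hCinj (v i) hu (v m) ((memC _).2 ⟨m, hmP, rfl⟩) (hyu.symm.trans h)
                  have := vinj i hi m hmP this
                  omega
                refine step (i + 1) (Sum.inl y) hbbot ?_ ?_ ?_ ?_ hul
                  (Or.inr ⟨y, hyK, hyS', hyS, rfl⟩) ?_ ?_ ?_ ?_
                · intro m hm hmP h
                  exact hne m hm hmP (by rw [Sum.inl.inj h])
                · intro hiP
                  change loc y ⊓ bot' = v (i + 1)
                  rw [hyu]; exact hpredloc hbbot i hiP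
                · intro hiP
                  have : i = P - 1 := by omega
                  change loc y = w ∧ lab (loc y) = l
                  rw [hyu, this]
                  exact ⟨rfl, rfl⟩
                · intro m hm hmP hK
                  have h1 : v m = y := honly _ hK (hCS' _ ((memC _).2 ⟨m, hmP, rfl⟩))
                  exact hne m hm hmP (by rw [h1])
                · intro z hz hzS' _
                  rw [honly z hz hzS']
                · intro hall
                  exact absurd hyS' (hall y hyK)
                · rintro ⟨z, hz, hzS⟩
                  exact absurd (honly z hz (hSS' hzS) ▸ hzS) hyS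
                · intro z hz hzS' _ m hm hmP
                  rw [honly z hz hzS']
                  exact hne m hm hmP
              · have hyC2 : ∃ u ∈ C, loc y ⊓ b' = u := by
                  rcases hyS' with (h1 | h1) | h1
                  · exact absurd h1 hyS
                  · exact absurd h1 hyC
                  · exact h1
                obtain ⟨u, hu, hyu⟩ := hyC2
                obtain ⟨i, hi, rfl⟩ := (memC u).1 hu
                have hne : ∀ m, m < P → loc y ≠ loc (v m) := by
                  intro m hmP h
                  exact hyC ⟨v m, (memC _).2 ⟨m, hmP, rfl⟩, h⟩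
                refine step i (Sum.inl y) hbbot ?_ ?_ ?_ ?_ hul
                  (Or.inr ⟨y, hyK, hyS', hyS, rfl⟩) ?_ ?_ ?_ ?_
                · intro m hm hmP h
                  exact hne m hmP (by rw [Sum.inl.inj h])
                · intro _
                  change loc y ⊓ bot' = v i
                  rcases hcomp' with h1 | h1
                  · have h2 : bot' = b' ⊓ bot' := (inf_eq_right.2 h1).symm
                    rw [h2, ← inf_assoc, hyu]
                    exact inf_eq_left.2 ((vle i).trans hbbot)
                  · have h2 : ¬ b' ≤ loc y := by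
                      intro h2
                      rw [inf_eq_right.2 h2] at hyu
                      exact absurd (hyu ▸ vle i) (not_le_of_gt hbb')
                    rw [inf_eq_of_not_le htree h1 h2, hyu]
                · intro hiP
                  exact absurd hi hiP
                · intro m hm hmP hK
                  have h1 : v m = y := honly _ hK (hCS' _ ((memC _).2 ⟨m, hmP, rfl⟩))
                  exact hne m hmP (by rw [h1])
                · intro z hz hzS' _
                  rw [honly z hz hzS']
                · intro hall
                  exact absurd hyS' (hall y hyK)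
                · rintro ⟨z, hz, hzS⟩
                  exact absurd (honly z hz (hSS' hzS) ▸ hzS) hyS
                · intro z hz hzS' _ m hm hmP
                  rw [honly z hz hzS']
                  exact hne m hmP

end Pool.Agent.RF
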